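import Mathlib

/-! # Asymptotics -/

noncomputable section

namespace Pool.Agent.MixEnt

theorem Asym_nat (e : ℕ) (he : 1 ≤ e) (k : ℕ) (hk : 2 ≤ k) : ∃ L : ℕ, 1 ≤ L ∧
    4 * k + 32 ≤ 2 ^ (e * L) * L ^ e ∧ 2 ^ (e * L) * L ^ e ≤ 4 ^ e * (20 * k) := by
  classical
  have hex : ∃ L : ℕ, 1 ≤ L ∧ 4 * k + 32 ≤ 2 ^ (e * L) * L ^ e := by
    refine ⟨4 * k + 32, by omega, ?_⟩
    have h1 : 1 ≤ 2 ^ (e * (4 * k + 32)) := Nat.one_le_two_pow
    have h2 : (4 * k + 32) ^ 1 ≤ (4 * k + 32) ^ e := Nat.pow_le_pow_right (by omega) he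
    calc 4 * k + 32 = 1 * (4 * k + 32) ^ 1 := by ring
      _ ≤ _ := Nat.mul_le_mul h1 h2
  refine ⟨Nat.find hex, (Nat.find_spec hex).1, (Nat.find_spec hex).2, ?_⟩
  set L := Nat.find hex with hL
  have hL1 : 1 ≤ L := (Nat.find_spec hex).1
  by_cases h : L = 1
  · rw [h]
    have : 2 ^ e ≤ 4 ^ e := Nat.pow_le_pow_left (by norm_num) e
    calc 2 ^ (e * 1) * 1 ^ e = 2 ^ e * 1 := by simp
      _ ≤ 4 ^ e * (20 * k) := Nat.mul_le_mul this (by omega)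
  · have hmin : ¬ (1 ≤ L - 1 ∧ 4 * k + 32 ≤ 2 ^ (e * (L - 1)) * (L - 1) ^ e) :=
      Nat.find_min hex (by omega)
    have hlt : 2 ^ (e * (L - 1)) * (L - 1) ^ e < 4 * k + 32 := by
      by_contra hc
      exact hmin ⟨by omega, by omega⟩
    have h2 : L ^ e ≤ 2 ^ e * (L - 1) ^ e := by
      rw [← mul_pow]
      exact Nat.pow_le_pow_left (by omega) e
    have h3 : 2 ^ (e * L) = 2 ^ e * 2 ^ (e * (L - 1)) := by
      rw [← pow_add]
      congr 1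
      have : L = (L - 1) + 1 := by omega
      conv_lhs => rw [this]
      ring
    calc 2 ^ (e * L) * L ^ e ≤ (2 ^ e * 2 ^ (e * (L - 1))) * (2 ^ e * (L - 1) ^ e) := by
          rw [h3]; exact Nat.mul_le_mul le_rfl h2
      _ = (2 * 2) ^ e * (2 ^ (e * (L - 1)) * (L - 1) ^ e) := by rw [mul_pow]; ring
      _ ≤ 4 ^ e * (20 * k) := Nat.mul_le_mul (by norm_num) (by omega)

/-- For each `k ≥ 2` there is `L ≥ 1` with `4 k + 32 ≤ 2^{e L} L^e` and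
`√(e L) 2^{-r e L} ≥ c k^{-r} (log k)^{e r + 1/2}`. -/
theorem exists_L (e : ℕ) (he : 1 ≤ e) (r : ℝ) (hr : 1 < r) : ∃ c : ℝ, 0 < c ∧
    ∀ k : ℕ, 2 ≤ k → ∃ L : ℕ, 1 ≤ L ∧ 4 * k + 32 ≤ 2 ^ (e * L) * L ^ e ∧
      c * (k : ℝ) ^ (-r) * (Real.log k) ^ (e * r + 1 / 2) ≤
        √(e * L) * (2 : ℝ) ^ (-(r * (e * L))) := by
  have he0 : (0 : ℝ) < e := by exact_mod_cast he
  have hr0 : 0 < r := by linarith
  refine ⟨√e * (2 * e : ℝ) ^ (-((e : ℝ) * r + 1 / 2)) * ((4 : ℝ) ^ e * 20) ^ (-r), by positivity, ?_⟩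
  intro k hk
  obtain ⟨L, hL1, hL2, hL3⟩ := Asym_nat e he k hk
  refine ⟨L, hL1, hL2, ?_⟩
  have hk0 : (0 : ℝ) < k := by
    have : 0 < k := by omega
    exact_mod_cast this
  have hL0 : (0 : ℝ) < L := by exact_mod_cast hL1
  have hk1 : (1 : ℝ) ≤ k := by
    have : 1 ≤ k := by omega
    exact_mod_cast this
  -- the logarithm
  have hlog : Real.log k ≤ 2 * e * L := by
    have h1 : k ≤ 2 ^ (e * L) * L ^ e := by omega
    have h2 : L ^ e ≤ 2 ^ (e * L) := by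
      rw [mul_comm, pow_mul]
      exact Nat.pow_le_pow_left (Nat.lt_two_pow_self).le e
    have h3 : k ≤ 2 ^ (2 * (e * L)) := by
      calc k ≤ 2 ^ (e * L) * 2 ^ (e * L) := le_trans h1 (Nat.mul_le_mul le_rfl h2)
        _ = _ := by rw [← pow_add]; congr 1; ring
    have h4 : (k : ℝ) ≤ (2 : ℝ) ^ (2 * (e * L)) := by exact_mod_cast h3
    have h5 : Real.log k ≤ (2 * (e * L) : ℕ) * Real.log 2 := by
      rw [← Real.log_pow]
      exact Real.log_le_log hk0 h4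
    have h6 : Real.log 2 ≤ 1 := by
      have := Real.log_two_lt_d9
      linarith
    have h7 : (0 : ℝ) ≤ ((2 * (e * L) : ℕ) : ℝ) := by positivity
    calc Real.log k ≤ (2 * (e * L) : ℕ) * Real.log 2 := h5
      _ ≤ (2 * (e * L) : ℕ) * 1 := by gcongr
      _ = 2 * e * L := by push_cast; ring
  have hlog0 : 0 ≤ Real.log k := Real.log_nonneg hk1
  -- the power of two
  have hpow : (L : ℝ) ^ ((e : ℝ) * r) * ((4 : ℝ) ^ e * 20) ^ (-r) * (k : ℝ) ^ (-r) ≤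
      (2 : ℝ) ^ (-(r * (e * L))) := by
    have h1 : (2 : ℝ) ^ (e * L) * (L : ℝ) ^ e ≤ (4 : ℝ) ^ e * (20 * k) := by exact_mod_cast hL3
    have h2 : ((2 : ℝ) ^ (e * L) * (L : ℝ) ^ e) ^ r ≤ ((4 : ℝ) ^ e * (20 * k)) ^ r :=
      Real.rpow_le_rpow (by positivity) h1 hr0.le
    have h3 : ((2 : ℝ) ^ (e * L) * (L : ℝ) ^ e) ^ r =
        (2 : ℝ) ^ (r * (e * L)) * (L : ℝ) ^ ((e : ℝ) * r) := by
      rw [Real.mul_rpow (by positivity) (by positivity)]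
      congr 1
      · rw [← Real.rpow_natCast, ← Real.rpow_mul (by norm_num)]
        congr 1
        push_cast
        ring
      · rw [← Real.rpow_natCast, ← Real.rpow_mul hL0.le]
    have h4 : ((4 : ℝ) ^ e * (20 * k)) ^ r = ((4 : ℝ) ^ e * 20) ^ r * (k : ℝ) ^ r := by
      rw [← Real.mul_rpow (by positivity) (by positivity)]
      congr 1
      ring
    rw [h3, h4] at h2
    rw [Real.rpow_neg (by positivity), Real.rpow_neg hk0.le, Real.rpow_neg (by norm_num)]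
    have e1 : 0 < ((4 : ℝ) ^ e * 20) ^ r := by positivity
    have e2 : 0 < (k : ℝ) ^ r := by positivity
    have e3 : 0 < (2 : ℝ) ^ (r * (e * L)) := by positivity
    rw [← div_eq_mul_inv, ← div_eq_mul_inv, div_div, div_le_iff₀ (by positivity),
      inv_mul_eq_div, le_div_iff₀ e3]
    linarith
  -- the power of the logarithm
  have hlp : (Real.log k) ^ ((e : ℝ) * r + 1 / 2) ≤
      (2 * e : ℝ) ^ ((e : ℝ) * r + 1 / 2) * ((L : ℝ) ^ ((e : ℝ) * r) * √L) := by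
    have h0 : 0 ≤ (e : ℝ) * r + 1 / 2 := by positivity
    calc (Real.log k) ^ ((e : ℝ) * r + 1 / 2) ≤ (2 * e * L) ^ ((e : ℝ) * r + 1 / 2) :=
          Real.rpow_le_rpow hlog0 hlog h0
      _ = (2 * e : ℝ) ^ ((e : ℝ) * r + 1 / 2) * (L : ℝ) ^ ((e : ℝ) * r + 1 / 2) :=
          Real.mul_rpow (by positivity) hL0.le
      _ = _ := by
          rw [Real.rpow_add hL0, Real.sqrt_eq_rpow]
  have hs : √((e : ℝ) * L) = √e * √L := Real.sqrt_mul he0.le _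
  rw [hs]
  have hA : 0 < (2 * e : ℝ) ^ ((e : ℝ) * r + 1 / 2) := by positivity
  calc √e * (2 * e : ℝ) ^ (-((e : ℝ) * r + 1 / 2)) * ((4 : ℝ) ^ e * 20) ^ (-r) * (k : ℝ) ^ (-r) *
        (Real.log k) ^ ((e : ℝ) * r + 1 / 2)
      ≤ √e * (2 * e : ℝ) ^ (-((e : ℝ) * r + 1 / 2)) * ((4 : ℝ) ^ e * 20) ^ (-r) * (k : ℝ) ^ (-r) *
        ((2 * e : ℝ) ^ ((e : ℝ) * r + 1 / 2) * ((L : ℝ) ^ ((e : ℝ) * r) * √L)) := by gcongr
    _ = (√e * √L) * ((L : ℝ) ^ ((e : ℝ) * r) * ((4 : ℝ) ^ e * 20) ^ (-r) * (k : ℝ) ^ (-r)) *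
        ((2 * e : ℝ) ^ (-((e : ℝ) * r + 1 / 2)) * (2 * e : ℝ) ^ ((e : ℝ) * r + 1 / 2)) := by ring
    _ = (√e * √L) * ((L : ℝ) ^ ((e : ℝ) * r) * ((4 : ℝ) ^ e * 20) ^ (-r) * (k : ℝ) ^ (-r)) := by
        rw [Real.rpow_neg (x := (2 * e : ℝ)) (by positivity), inv_mul_cancel₀ hA.ne', mul_one]
    _ ≤ (√e * √L) * (2 : ℝ) ^ (-(r * (e * L))) := by gcongr

end Pool.Agent.MixEnt
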