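import Mathlib

/-!
# Entropy numbers of mixed smoothness classes in the uniform norm: definitions

* `circ`: normalised Lebesgue measure on `[0, 2π)`; `torus d`: its `d`-fold product.
* `bern1 r α x = 1 + 2 ∑_{k ≥ 1} k^{-r} cos (k x - α π / 2)`: the one variable Bernoulli kernel.
* `bern r α x = ∏ i, bern1 r (α i) (x i)`.
* `conv 𝕜 r α φ = F_r(·, α) * φ`.
* `MW 𝕜 d r q α`: the class of functions with bounded mixed derivative in `L_q`.
* `entropyNumber 𝕜 d k Θ`: the `k`-th entropy number of `Θ` in `L_∞`.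
-/

open MeasureTheory

noncomputable section

namespace Pool.Agent.MixEnt

/-- Normalised Lebesgue measure on `[0, 2π)`. -/
def circ : Measure ℝ :=
  (ENNReal.ofReal (2 * Real.pi))⁻¹ • (volume.restrict (Set.Ico 0 (2 * Real.pi)))

/-- Normalised Lebesgue measure on `[0, 2π)^d`. -/
def torus (d : ℕ) : Measure (Fin d → ℝ) := Measure.pi (fun _ => circ)

/-- The one variable Bernoulli kernel `F_r(x, α) = 1 + 2 ∑_{k ≥ 1} k^{-r} cos (k x - α π / 2)`. -/
def bern1 (r α x : ℝ) : ℝ :=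
  1 + 2 * ∑' k : ℕ, ((k : ℝ) + 1) ^ (-r) * Real.cos (((k : ℝ) + 1) * x - α * Real.pi / 2)

/-- The Bernoulli kernel `F_r(x, α) = ∏ i, F_r(x i, α i)` of `d` variables. -/
def bern {d : ℕ} (r : ℝ) (α x : Fin d → ℝ) : ℝ := ∏ i, bern1 r (α i) (x i)

/-- The convolution `F_r(·, α) * φ` on the torus `[0, 2π)^d` with its normalised measure. -/
def conv (𝕜 : Type) [RCLike 𝕜] {d : ℕ} (r : ℝ) (α : Fin d → ℝ) (φ : (Fin d → ℝ) → 𝕜)
    (x : Fin d → ℝ) : 𝕜 :=
  ∫ y, ((bern r α (x - y) : ℝ) : 𝕜) * φ y ∂(torus d)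

/-- The class `MW^r_{q,α}` of functions with bounded mixed derivative:
all `F_r(·, α) * φ` with `φ ∈ L_q`, `‖φ‖_q ≤ 1`. -/
def MW (𝕜 : Type) [RCLike 𝕜] (d : ℕ) (r q : ℝ) (α : Fin d → ℝ) : Set ((Fin d → ℝ) → 𝕜) :=
  {f | ∃ φ : (Fin d → ℝ) → 𝕜, MemLp φ (ENNReal.ofReal q) (torus d) ∧
    eLpNorm φ (ENNReal.ofReal q) (torus d) ≤ 1 ∧ f = conv 𝕜 r α φ}

/-- The `k`-th entropy number of a set `Θ` of functions on the torus in the norm of `L_∞`: the
infimum of all `ε > 0` such that there are `2 ^ k` points of `Θ` for which `Θ` is contained in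
the union of the `2 ^ k` closed balls of radius `ε` around these points. -/
def entropyNumber (𝕜 : Type) [RCLike 𝕜] (d k : ℕ) (Θ : Set ((Fin d → ℝ) → 𝕜)) : ℝ :=
  sInf {ε : ℝ | 0 < ε ∧ ∃ c : Fin (2 ^ k) → ((Fin d → ℝ) → 𝕜), (∀ j, c j ∈ Θ) ∧
    ∀ f ∈ Θ, ∃ j, eLpNorm (f - c j) ⊤ (torus d) ≤ ENNReal.ofReal ε}

instance : IsProbabilityMeasure circ := by
  constructor
  have h : (0 : ℝ) < 2 * Real.pi := by positivity
  simp only [circ, Measure.smul_apply, smul_eq_mul, Measure.restrict_apply MeasurableSet.univ,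
    Set.univ_inter, Real.volume_Ico, sub_zero]
  exact ENNReal.inv_mul_cancel (by simpa using h) ENNReal.ofReal_ne_top

instance (d : ℕ) : IsProbabilityMeasure (torus d) := by
  unfold torus; infer_instance

end Pool.Agent.MixEnt
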