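import Mathlib
import Pool.Agent.Lib.MP_b56574_an.Defs

/-! # One variable: orthogonality of cosines -/

open MeasureTheory

noncomputable section

namespace Pool.Agent.MixEnt


theorem integral_circ (f : ℝ → ℝ) :
    ∫ x, f x ∂circ = (2 * Real.pi)⁻¹ * ∫ x in (0)..(2 * Real.pi), f x := by
  have h : (0 : ℝ) ≤ 2 * Real.pi := by positivity
  rw [circ, integral_smul_measure, intervalIntegral.integral_of_le h,
    integral_Ico_eq_integral_Ioc, smul_eq_mul, ENNReal.toReal_inv, ENNReal.toReal_ofReal h]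

theorem circ_ae : ∀ᵐ x ∂circ, x ∈ Set.Ico 0 (2 * Real.pi) := by
  rw [circ]
  apply Measure.ae_smul_measure
  exact ae_restrict_mem measurableSet_Ico

theorem circ_integrable {f : ℝ → ℝ} (hf : Continuous f) : Integrable f circ := by
  have h : (0 : ℝ) < 2 * Real.pi := by positivity
  rw [circ]
  apply Integrable.smul_measure
  · have h1 : IntegrableOn f (Set.Icc 0 (2 * Real.pi)) := hf.integrableOn_Icc
    exact h1.mono_set Set.Ico_subset_Icc_self
  · simpa using h

theorem circ_cos (k : ℕ) (hk : 1 ≤ k) (b : ℝ) : ∫ x, Real.cos (k * x + b) ∂circ = 0 := by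
  have hk0 : (k : ℝ) ≠ 0 := by
    have : k ≠ 0 := by omega
    exact_mod_cast this
  rw [integral_circ, intervalIntegral.integral_comp_mul_add (fun x => Real.cos x) hk0, integral_cos]
  have h1 : Real.sin ((k : ℝ) * (2 * Real.pi) + b) = Real.sin b := by
    rw [add_comm]
    exact Real.sin_add_nat_mul_two_pi b k
  rw [h1]
  simp

theorem CircA_cos_neg (k : ℕ) (hk : 1 ≤ k) (b : ℝ) : ∫ x, Real.cos (-(k * x) + b) ∂circ = 0 := by
  have h : ∀ x : ℝ, Real.cos (-(k * x) + b) = Real.cos (k * x + (-b)) := by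
    intro x
    rw [← Real.cos_neg]
    congr 1
    ring
  simp only [h]
  exact circ_cos k hk (-b)

theorem CircA_cos_int (c : ℤ) (hc : c ≠ 0) (b : ℝ) : ∫ x, Real.cos (c * x + b) ∂circ = 0 := by
  rcases Int.lt_or_gt_of_ne hc with h | h
  · obtain ⟨k, hk⟩ : ∃ k : ℕ, c = -(k : ℤ) := ⟨c.natAbs, by omega⟩
    have hk1 : 1 ≤ k := by omega
    subst hk
    have := CircA_cos_neg k hk1 b
    simpa [neg_mul] using this
  · obtain ⟨k, hk⟩ : ∃ k : ℕ, c = (k : ℤ) := ⟨c.natAbs, by omega⟩
    have hk1 : 1 ≤ k := by omega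
    subst hk
    have := circ_cos k hk1 b
    simpa using this

theorem CircA_prod (A B : ℝ) :
    Real.cos A * Real.cos B = (Real.cos (A - B) + Real.cos (A + B)) / 2 := by
  rw [Real.cos_sub, Real.cos_add]
  ring

theorem CircA_half (a b : ℤ) (u v : ℝ) :
    ∫ x, (Real.cos (a * x + u) + Real.cos (b * x + v)) / 2 ∂circ =
      (∫ x, Real.cos (a * x + u) ∂circ + ∫ x, Real.cos (b * x + v) ∂circ) / 2 := by
  rw [integral_div, integral_add]
  · exact circ_integrable (by fun_prop)
  · exact circ_integrable (by fun_prop)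

theorem CircA_const (c : ℝ) : ∫ _x, c ∂circ = c := by
  simp

theorem circ_cos_sq (k : ℕ) (hk : 1 ≤ k) : ∫ x, Real.cos (k * x) * Real.cos (k * x) ∂circ = 1 / 2 := by
  have h : ∀ x : ℝ, Real.cos (k * x) * Real.cos (k * x) =
      (Real.cos (((0 : ℤ) : ℝ) * x + 0) + Real.cos (((2 * k : ℤ) : ℝ) * x + 0)) / 2 := by
    intro x
    rw [CircA_prod]
    congr 3
    · push_cast; ring
    · push_cast; ring
  simp only [h]
  rw [CircA_half, CircA_cos_int (2 * k : ℤ) (by omega)]
  simp

theorem circ_cos_cos (k l : ℕ) (hk : 1 ≤ k) (hl : 1 ≤ l) (hkl : k ≠ l) :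
    ∫ x, Real.cos (k * x) * Real.cos (l * x) ∂circ = 0 := by
  have h : ∀ x : ℝ, Real.cos (k * x) * Real.cos (l * x) =
      (Real.cos (((k - l : ℤ) : ℝ) * x + 0) + Real.cos (((k + l : ℤ) : ℝ) * x + 0)) / 2 := by
    intro x
    rw [CircA_prod]
    congr 3
    · push_cast; ring
    · push_cast; ring
  simp only [h]
  rw [CircA_half, CircA_cos_int (k - l : ℤ) (by omega), CircA_cos_int (k + l : ℤ) (by omega)]
  simp

theorem circ_conv_cos (m k : ℕ) (hm : 1 ≤ m) (hk : 1 ≤ k) (x b : ℝ) :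
    ∫ y, Real.cos (m * (x - y) - b) * Real.cos (k * y + b) ∂circ =
      if m = k then Real.cos (k * x) / 2 else 0 := by
  have h : ∀ y : ℝ, Real.cos (m * (x - y) - b) * Real.cos (k * y + b) =
      (Real.cos (((-(m + k) : ℤ) : ℝ) * y + (m * x - 2 * b)) +
        Real.cos (((k - m : ℤ) : ℝ) * y + m * x)) / 2 := by
    intro y
    rw [CircA_prod]
    congr 3
    · push_cast; ring
    · push_cast; ring
  simp only [h]
  rw [CircA_half, CircA_cos_int (-(m + k) : ℤ) (by omega)]
  split_ifs with hmk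
  · subst hmk
    simp
  · rw [CircA_cos_int (k - m : ℤ) (by omega)]
    simp

end Pool.Agent.MixEnt
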