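import Mathlib
import Pool.Agent.Lib.MP_b56574_an.CircA

/-! # One variable: the Bernoulli kernel -/

open MeasureTheory

noncomputable section

namespace Pool.Agent.MixEnt

theorem CircB_summable {r : ℝ} (hr : 1 < r) : Summable (fun k : ℕ => ((k : ℝ) + 1) ^ (-r)) := by
  have h : Summable (fun k : ℕ => ((k : ℝ)) ^ (-r)) := by
    rw [Real.summable_nat_rpow]; linarith
  have h2 := (summable_nat_add_iff 1).2 h
  simpa using h2

theorem CircB_term_norm {r : ℝ} (k : ℕ) (t : ℝ) :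
    ‖((k : ℝ) + 1) ^ (-r) * Real.cos t‖ ≤ ((k : ℝ) + 1) ^ (-r) := by
  rw [norm_mul, Real.norm_of_nonneg (by positivity : (0 : ℝ) ≤ ((k : ℝ) + 1) ^ (-r))]
  have h1 : ‖Real.cos t‖ ≤ 1 := Real.abs_cos_le_one t
  have h2 : (0 : ℝ) ≤ ((k : ℝ) + 1) ^ (-r) := by positivity
  nlinarith

theorem bern1_continuous {r : ℝ} (hr : 1 < r) (α : ℝ) : Continuous (bern1 r α) := by
  unfold bern1
  refine continuous_const.add (continuous_const.mul ?_)
  refine continuous_tsum (fun k => ?_) (CircB_summable hr) (fun k x => CircB_term_norm k _)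
  fun_prop

theorem bern1_bounded {r : ℝ} (hr : 1 < r) : ∃ C : ℝ, 0 < C ∧ ∀ α x, |bern1 r α x| ≤ C := by
  refine ⟨1 + 2 * ∑' k : ℕ, ((k : ℝ) + 1) ^ (-r), ?_, ?_⟩
  · have : (0 : ℝ) ≤ ∑' k : ℕ, ((k : ℝ) + 1) ^ (-r) := tsum_nonneg (fun k => by positivity)
    linarith
  · intro α x
    unfold bern1
    have h1 : ‖∑' k : ℕ, ((k : ℝ) + 1) ^ (-r) * Real.cos (((k : ℝ) + 1) * x - α * Real.pi / 2)‖ ≤
        ∑' k : ℕ, ((k : ℝ) + 1) ^ (-r) :=
      tsum_of_norm_bounded (CircB_summable hr).hasSum (fun k => CircB_term_norm k _)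
    rw [Real.norm_eq_abs] at h1
    refine (abs_add_le _ _).trans ?_
    rw [abs_one, abs_mul, abs_two]
    linarith

theorem bern1_conv {r : ℝ} (hr : 1 < r) (α : ℝ) (k : ℕ) (hk : 1 ≤ k) (x : ℝ) :
    ∫ y, bern1 r α (x - y) * ((k : ℝ) ^ r * Real.cos (k * y + α * Real.pi / 2)) ∂circ =
      Real.cos (k * x) := by
  set b : ℝ := α * Real.pi / 2 with hb
  have hk0 : (0 : ℝ) < k := by exact_mod_cast hk
  set F : ℕ → ℝ → ℝ := fun m y =>
    ((m : ℝ) + 1) ^ (-r) * Real.cos (((m : ℝ) + 1) * (x - y) - b) *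
      ((k : ℝ) ^ r * Real.cos (k * y + b)) with hF
  have hFc : ∀ m, Continuous (F m) := by
    intro m; simp only [hF]; fun_prop
  have hFi : ∀ m, Integrable (F m) circ := fun m => circ_integrable (hFc m)
  have hFn : ∀ m y, ‖F m y‖ ≤ ((m : ℝ) + 1) ^ (-r) * (k : ℝ) ^ r := by
    intro m y
    simp only [hF]
    rw [norm_mul]
    have h1 := CircB_term_norm (r := r) m (((m : ℝ) + 1) * (x - y) - b)
    have h2 : ‖(k : ℝ) ^ r * Real.cos (k * y + b)‖ ≤ (k : ℝ) ^ r := by
      rw [norm_mul, Real.norm_of_nonneg (by positivity : (0 : ℝ) ≤ (k : ℝ) ^ r)]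
      have h1 : ‖Real.cos (k * y + b)‖ ≤ 1 := Real.abs_cos_le_one _
      have h2 : (0 : ℝ) ≤ (k : ℝ) ^ r := by positivity
      nlinarith
    exact mul_le_mul h1 h2 (norm_nonneg _) (by positivity)
  have hFs : Summable fun m => ∫ y, ‖F m y‖ ∂circ := by
    refine Summable.of_nonneg_of_le (fun m => integral_nonneg (fun y => norm_nonneg _))
      (fun m => ?_) ((CircB_summable hr).mul_right ((k : ℝ) ^ r))
    calc ∫ y, ‖F m y‖ ∂circ ≤ ∫ _y, ((m : ℝ) + 1) ^ (-r) * (k : ℝ) ^ r ∂circ :=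
          integral_mono (hFi m).norm (integrable_const _) (hFn m)
      _ = ((m : ℝ) + 1) ^ (-r) * (k : ℝ) ^ r := by simp
  have hts := integral_tsum_of_summable_integral_norm hFi hFs
  -- each term
  have hterm : ∀ m, ∫ y, F m y ∂circ = if m + 1 = k then Real.cos (k * x) / 2 else 0 := by
    intro m
    have h1 : ∀ y, F m y = (((m : ℝ) + 1) ^ (-r) * (k : ℝ) ^ r) *
        (Real.cos (((m + 1 : ℕ) : ℝ) * (x - y) - b) * Real.cos (k * y + b)) := by
      intro y; simp only [hF]; push_cast; ring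
    simp_rw [h1]
    rw [integral_const_mul, circ_conv_cos (m + 1) k (by omega) hk x b]
    split_ifs with h
    · have h3 : ((m : ℝ) + 1) = k := by exact_mod_cast h
      rw [h3, ← Real.rpow_add hk0]
      simp
    · simp
  -- rewriting the integrand
  have hint : ∀ y, bern1 r α (x - y) * ((k : ℝ) ^ r * Real.cos (k * y + b)) =
      (k : ℝ) ^ r * Real.cos (k * y + b) + 2 * ∑' m, F m y := by
    intro y
    have hs : ∑' m, F m y = (∑' m : ℕ, ((m : ℝ) + 1) ^ (-r) *
        Real.cos (((m : ℝ) + 1) * (x - y) - b)) * ((k : ℝ) ^ r * Real.cos (k * y + b)) := by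
      simp only [hF]
      rw [tsum_mul_right]
    rw [hs]
    unfold bern1
    rw [← hb]
    ring
  simp_rw [hint]
  have hI1 : Integrable (fun y => (k : ℝ) ^ r * Real.cos (k * y + b)) circ :=
    circ_integrable (by fun_prop)
  have hI2 : Integrable (fun y => 2 * ∑' m, F m y) circ := by
    apply circ_integrable
    refine continuous_const.mul ?_
    refine continuous_tsum hFc ((CircB_summable hr).mul_right ((k : ℝ) ^ r)) (fun m y => hFn m y)
  rw [integral_add hI1 hI2, integral_const_mul, integral_const_mul, circ_cos k hk b, ← hts]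
  simp_rw [hterm]
  rw [tsum_eq_single (k - 1)]
  · rw [if_pos (by omega)]; ring
  · intro m hm
    rw [if_neg (by omega)]

end Pool.Agent.MixEnt
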