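import Mathlib
import Pool.Agent.Lib.MP_b56574_an.Defs

/-!
# Sign vectors, orthogonal systems and random Riesz products: definitions
-/

open MeasureTheory

noncomputable section

namespace Pool.Agent.MixEnt

/-- The sign attached to a Boolean. -/
def sg (b : Bool) : ℝ := if b then 1 else -1

/-- A uniformly bounded system of functions with mean zero, pairwise orthogonal, all of the same
`L_2` norm `√κ`. -/
structure Sys {Ω J : Type} [MeasurableSpace Ω] (μ : Measure Ω) (g : J → Ω → ℝ) (κ : ℝ) :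
    Prop where
  meas : ∀ j, Measurable (g j)
  bd : ∀ j x, |g j x| ≤ 1
  mean : ∀ j, ∫ x, g j x ∂μ = 0
  orth : ∀ j k, j ≠ k → ∫ x, g j x * g k x ∂μ = 0
  sq : ∀ j, ∫ x, g j x * g j x ∂μ = κ

/-- The Riesz product `∏_j (1 + c σ_j g_j)`. -/
def riesz {Ω J : Type} [Fintype J] (c : ℝ) (g : J → Ω → ℝ) (σ : J → Bool) (x : Ω) : ℝ :=
  ∏ j, (1 + c * sg (σ j) * g j x)

/-- The coefficient `∫ g_k ρ_σ`. -/
def coef {Ω J : Type} [MeasurableSpace Ω] [Fintype J] (μ : Measure Ω) (c : ℝ) (g : J → Ω → ℝ)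
    (σ : J → Bool) (k : J) : ℝ := ∫ x, g k x * riesz c g σ x ∂μ

/-- The kernel `X(x, y) = c² ∑_j g_j(x) g_j(y)`. -/
def kerX {Ω J : Type} [Fintype J] (c : ℝ) (g : J → Ω → ℝ) (x y : Ω) : ℝ :=
  c ^ 2 * ∑ j, g j x * g j y

end Pool.Agent.MixEnt
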