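import Mathlib
import Pool.Agent.Lib.MP_b56574_an.Sys

/-! # Sums over all sign vectors -/

noncomputable section

namespace Pool.Agent.MixEnt

variable {J : Type} [Fintype J] [DecidableEq J]

theorem sg_sq (b : Bool) : sg b * sg b = 1 := by cases b <;> simp [sg]

/-- Independence of the coordinates of a uniform sign vector. -/
theorem sum_prod_sign (f : J → Bool → ℝ) :
    ∑ σ : J → Bool, ∏ j, f j (σ j) = ∏ j, (f j true + f j false) := by
  have h := Finset.prod_univ_sum (fun _ : J => (Finset.univ : Finset Bool)) f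
  rw [Fintype.piFinset_univ] at h
  rw [← h]
  refine Finset.prod_congr rfl fun j _ => ?_
  rw [Fintype.sum_bool]

/-- `E ρ_σ(x) = 1`. -/
theorem sum_riesz {Ω : Type} (c : ℝ) (g : J → Ω → ℝ) (x : Ω) :
    ∑ σ : J → Bool, riesz c g σ x = 2 ^ Fintype.card J := by
  unfold riesz
  rw [sum_prod_sign (fun j b => 1 + c * sg b * g j x)]
  rw [Finset.prod_congr rfl (g := fun _ => (2 : ℝ))]
  · simp
  · intro j _; simp [sg]; ring

/-- `E σ_k ρ_σ(x) = c g_k(x)`. -/
theorem sum_sg_riesz {Ω : Type} (c : ℝ) (g : J → Ω → ℝ) (x : Ω) (k : J) :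
    ∑ σ : J → Bool, sg (σ k) * riesz c g σ x = 2 ^ Fintype.card J * (c * g k x) := by
  have h1 : ∀ σ : J → Bool, sg (σ k) * riesz c g σ x =
      ∏ j, ((if j = k then sg (σ j) else 1) * (1 + c * sg (σ j) * g j x)) := by
    intro σ
    rw [Finset.prod_mul_distrib, Finset.prod_ite_eq']
    simp [riesz]
  rw [Finset.sum_congr rfl fun σ _ => h1 σ]
  rw [sum_prod_sign (fun j b => (if j = k then sg b else 1) * (1 + c * sg b * g j x))]
  have h2 : ∀ j, ((if j = k then sg true else 1) * (1 + c * sg true * g j x) +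
      (if j = k then sg false else 1) * (1 + c * sg false * g j x)) =
      2 * (if j = k then c * g j x else 1) := by
    intro j
    by_cases hj : j = k
    · simp [hj, sg]; ring
    · simp [hj, sg]; ring
  rw [Finset.prod_congr rfl fun j _ => h2 j, Finset.prod_mul_distrib, Finset.prod_ite_eq']
  simp

/-- `E ρ_σ(x) ρ_σ(y) = ∏_j (1 + c² g_j(x) g_j(y))`. -/
theorem sum_riesz_riesz {Ω : Type} (c : ℝ) (g : J → Ω → ℝ) (x y : Ω) :
    ∑ σ : J → Bool, riesz c g σ x * riesz c g σ y =
      2 ^ Fintype.card J * ∏ j, (1 + c ^ 2 * (g j x * g j y)) := by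
  have h1 : ∀ σ : J → Bool, riesz c g σ x * riesz c g σ y =
      ∏ j, ((1 + c * sg (σ j) * g j x) * (1 + c * sg (σ j) * g j y)) := by
    intro σ
    rw [Finset.prod_mul_distrib]; rfl
  rw [Finset.sum_congr rfl fun σ _ => h1 σ]
  rw [sum_prod_sign (fun j b => (1 + c * sg b * g j x) * (1 + c * sg b * g j y))]
  have h2 : ∀ j, ((1 + c * sg true * g j x) * (1 + c * sg true * g j y) +
      (1 + c * sg false * g j x) * (1 + c * sg false * g j y)) =
      2 * (1 + c ^ 2 * (g j x * g j y)) := by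
    intro j
    simp [sg]; ring
  rw [Finset.prod_congr rfl fun j _ => h2 j, Finset.prod_mul_distrib]
  simp

/-- Khintchine: `E cosh (∑ σ_j a_j) ≤ exp (∑ a_j² / 2)`. -/
theorem sum_cosh (a : J → ℝ) :
    ∑ σ : J → Bool, Real.cosh (∑ j, sg (σ j) * a j) ≤
      2 ^ Fintype.card J * Real.exp ((∑ j, a j ^ 2) / 2) := by
  have key : ∀ s : ℝ, ∑ σ : J → Bool, Real.exp (s * ∑ j, sg (σ j) * a j) =
      ∏ j, (Real.exp (s * a j) + Real.exp (-(s * a j))) := by
    intro s
    have h1 : ∀ σ : J → Bool, Real.exp (s * ∑ j, sg (σ j) * a j) =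
        ∏ j, Real.exp (s * (sg (σ j) * a j)) := by
      intro σ
      rw [Finset.mul_sum, Real.exp_sum]
    rw [Finset.sum_congr rfl fun σ _ => h1 σ]
    rw [sum_prod_sign (fun j b => Real.exp (s * (sg b * a j)))]
    refine Finset.prod_congr rfl fun j _ => ?_
    simp [sg]
  have h2 : ∑ σ : J → Bool, Real.cosh (∑ j, sg (σ j) * a j) =
      ∏ j, (Real.exp (a j) + Real.exp (-(a j))) := by
    have e1 : ∑ σ : J → Bool, Real.cosh (∑ j, sg (σ j) * a j) =
        ((∑ σ : J → Bool, Real.exp (1 * ∑ j, sg (σ j) * a j)) +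
          ∑ σ : J → Bool, Real.exp ((-1) * ∑ j, sg (σ j) * a j)) / 2 := by
      rw [← Finset.sum_add_distrib, Finset.sum_div]
      refine Finset.sum_congr rfl fun σ _ => ?_
      rw [Real.cosh_eq]; simp
    rw [e1, key, key]
    have : ∏ j, (Real.exp (-1 * a j) + Real.exp (-(-1 * a j))) =
        ∏ j, (Real.exp (1 * a j) + Real.exp (-(1 * a j))) := by
      refine Finset.prod_congr rfl fun j _ => ?_
      simp [add_comm]
    rw [this]; simp
  rw [h2]
  have h3 : ∀ j, Real.exp (a j) + Real.exp (-(a j)) = 2 * Real.cosh (a j) := by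
    intro j; rw [Real.cosh_eq]; ring
  rw [Finset.prod_congr rfl fun j _ => h3 j, Finset.prod_mul_distrib, Finset.sum_div, Real.exp_sum]
  simp only [Finset.prod_const, Finset.card_univ]
  gcongr with j _
  exact Real.cosh_le_exp_half_sq (a j)

end Pool.Agent.MixEnt
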