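import Mathlib
import Pool.Agent.Lib.MP_b56574_an.Signs

/-! # Riesz products: positivity, mass, first moments of the coefficients -/

open MeasureTheory

noncomputable section

namespace Pool.Agent.MixEnt

variable {Ω J : Type} [MeasurableSpace Ω] [Fintype J] [DecidableEq J]
  {μ : Measure Ω} [IsProbabilityMeasure μ] {g : J → Ω → ℝ} {κ : ℝ}

theorem RieszA_abs_le (h : Sys μ g κ) {c : ℝ} (hc : 0 < c) (hc1 : c ≤ 1) (b : Bool) (j : J)
    (x : Ω) : |c * sg b * g j x| ≤ 1 := by
  have hs : |sg b| = 1 := by cases b <;> simp [sg]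
  rw [abs_mul, abs_mul, hs, mul_one, abs_of_pos hc]
  calc c * |g j x| ≤ 1 * 1 := mul_le_mul hc1 (h.bd j x) (abs_nonneg _) zero_le_one
    _ = 1 := one_mul 1

theorem riesz_nonneg (h : Sys μ g κ) {c : ℝ} (hc : 0 < c) (hc1 : c ≤ 1) (σ : J → Bool) (x : Ω) :
    0 ≤ riesz c g σ x := by
  unfold riesz
  refine Finset.prod_nonneg fun j _ => ?_
  have := (abs_le.1 (RieszA_abs_le h hc hc1 (σ j) j x)).1
  linarith

theorem RieszA_le (h : Sys μ g κ) {c : ℝ} (hc : 0 < c) (hc1 : c ≤ 1) (σ : J → Bool) (x : Ω) :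
    riesz c g σ x ≤ 2 ^ Fintype.card J := by
  unfold riesz
  calc ∏ j, (1 + c * sg (σ j) * g j x) ≤ ∏ _j : J, (2 : ℝ) := by
        refine Finset.prod_le_prod (fun j _ => ?_) fun j _ => ?_
        · have := (abs_le.1 (RieszA_abs_le h hc hc1 (σ j) j x)).1
          linarith
        · have := (abs_le.1 (RieszA_abs_le h hc hc1 (σ j) j x)).2
          linarith
    _ = 2 ^ Fintype.card J := by simp

theorem riesz_measurable (h : Sys μ g κ) (c : ℝ) (σ : J → Bool) :
    Measurable (riesz c g σ) := by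
  have e : riesz c g σ = fun x => ∏ j, (1 + c * sg (σ j) * g j x) := by
    funext x; rfl
  rw [e]
  exact Finset.measurable_prod _ fun j _ => ((h.meas j).const_mul _).const_add _

theorem riesz_integrable (h : Sys μ g κ) {c : ℝ} (hc : 0 < c) (hc1 : c ≤ 1) (σ : J → Bool) :
    Integrable (riesz c g σ) μ := by
  refine Integrable.of_bound (riesz_measurable h c σ).aestronglyMeasurable
    (2 ^ Fintype.card J) (Filter.Eventually.of_forall fun x => ?_)
  rw [Real.norm_eq_abs, abs_of_nonneg (riesz_nonneg h hc hc1 σ x)]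
  exact RieszA_le h hc hc1 σ x

theorem sum_integral_riesz (h : Sys μ g κ) {c : ℝ} (hc : 0 < c) (hc1 : c ≤ 1) :
    ∑ σ : J → Bool, ∫ x, riesz c g σ x ∂μ = 2 ^ Fintype.card J := by
  rw [← integral_finset_sum _ fun σ _ => riesz_integrable h hc hc1 σ]
  simp_rw [sum_riesz]
  simp

theorem RieszA_coef_integrable (h : Sys μ g κ) {c : ℝ} (hc : 0 < c) (hc1 : c ≤ 1)
    (σ : J → Bool) (k : J) : Integrable (fun x => g k x * riesz c g σ x) μ := by
  refine Integrable.of_bound ((h.meas k).mul (riesz_measurable h c σ)).aestronglyMeasurable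
    (2 ^ Fintype.card J) (Filter.Eventually.of_forall fun x => ?_)
  rw [Real.norm_eq_abs, abs_mul, abs_of_nonneg (riesz_nonneg h hc hc1 σ x)]
  calc |g k x| * riesz c g σ x ≤ 1 * riesz c g σ x :=
        mul_le_mul_of_nonneg_right (h.bd k x) (riesz_nonneg h hc hc1 σ x)
    _ ≤ 2 ^ Fintype.card J := by rw [one_mul]; exact RieszA_le h hc hc1 σ x

theorem sum_sg_coef (h : Sys μ g κ) {c : ℝ} (hc : 0 < c) (hc1 : c ≤ 1) (k : J) :
    ∑ σ : J → Bool, sg (σ k) * coef μ c g σ k = 2 ^ Fintype.card J * (c * κ) := by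
  have e : ∀ σ : J → Bool, sg (σ k) * coef μ c g σ k =
      ∫ x, sg (σ k) * (g k x * riesz c g σ x) ∂μ := by
    intro σ
    rw [integral_const_mul]; rfl
  rw [Finset.sum_congr rfl fun σ _ => e σ,
    ← integral_finset_sum _ fun σ _ => (RieszA_coef_integrable h hc hc1 σ k).const_mul _]
  have e2 : ∀ x, ∑ σ : J → Bool, sg (σ k) * (g k x * riesz c g σ x) =
      (2 ^ Fintype.card J * c) * (g k x * g k x) := by
    intro x
    have : ∀ σ : J → Bool, sg (σ k) * (g k x * riesz c g σ x) =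
        g k x * (sg (σ k) * riesz c g σ x) := by intro σ; ring
    rw [Finset.sum_congr rfl fun σ _ => this σ, ← Finset.mul_sum, sum_sg_riesz]
    ring
  simp_rw [e2]
  rw [integral_const_mul, h.sq k]
  ring

end Pool.Agent.MixEnt
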