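import Mathlib
import Pool.Agent.Lib.MP_b56574_an.Sys

/-!
# The index set: frequencies in a union of dyadic blocks

`d = e + 1`, `n = e L`. For `u ∈ {0, …, L-1}^e` the shape is `shp u = (n - ∑ u_i, u_1, …, u_e)`,
of total size `n`. The index set `Idx e L` consists of the pairs `(u, v)` with
`v_i < 2 ^ (shp u i)`; the frequency vector of `(u, v)` is `2 ^ (shp u i) + v_i`.
-/

open MeasureTheory

noncomputable section

namespace Pool.Agent.MixEnt

/-- The shape attached to `u`. -/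
def shp {e L : ℕ} (u : Fin e → Fin L) : Fin (e + 1) → ℕ :=
  Fin.cons (e * L - ∑ i, (u i : ℕ)) (fun i => (u i : ℕ))

/-- The index set. -/
abbrev Idx (e L : ℕ) : Type := (u : Fin e → Fin L) × ((i : Fin (e + 1)) → Fin (2 ^ shp u i))

/-- The frequency vector. -/
def frq {e L : ℕ} (j : Idx e L) (i : Fin (e + 1)) : ℕ := 2 ^ shp j.1 i + (j.2 i : ℕ)

/-- `g_j(x) = ∏ cos (k_i x_i)`. -/
def gfun {e L : ℕ} (j : Idx e L) (x : Fin (e + 1) → ℝ) : ℝ :=
  ∏ i, Real.cos ((frq j i : ℝ) * x i)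

/-- `φ_j(y) = ∏ k_i^r cos (k_i y_i + α_i π / 2)`. -/
def pfun {e L : ℕ} (r : ℝ) (α : Fin (e + 1) → ℝ) (j : Idx e L) (y : Fin (e + 1) → ℝ) : ℝ :=
  ∏ i, ((frq j i : ℝ) ^ r * Real.cos ((frq j i : ℝ) * y i + α i * Real.pi / 2))

theorem sum_shp {e L : ℕ} (u : Fin e → Fin L) : ∑ i, shp u i = e * L := by
  have h : ∑ i, (u i : ℕ) ≤ e * L := by
    calc ∑ i, (u i : ℕ) ≤ ∑ _i : Fin e, L := Finset.sum_le_sum fun i _ => (u i).2.le
      _ = e * L := by simp
  rw [Fin.sum_univ_succ]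
  simp only [shp, Fin.cons_zero, Fin.cons_succ]
  omega

theorem shp_le {e L : ℕ} (u : Fin e → Fin L) (i : Fin (e + 1)) : shp u i ≤ e * L := by
  rw [← sum_shp u]
  exact Finset.single_le_sum (f := shp u) (fun _ _ => Nat.zero_le _) (Finset.mem_univ i)

/-- `D = 2^{e L} L^e`. -/
theorem card_idx (e L : ℕ) : Fintype.card (Idx e L) = 2 ^ (e * L) * L ^ e := by
  have h : ∀ u : Fin e → Fin L, Fintype.card ((i : Fin (e + 1)) → Fin (2 ^ shp u i)) =
      2 ^ (e * L) := by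
    intro u
    rw [Fintype.card_pi]
    simp only [Fintype.card_fin]
    rw [Finset.prod_pow_eq_pow_sum, sum_shp]
  unfold Idx
  rw [Fintype.card_sigma, Finset.sum_congr rfl fun u _ => h u]
  simp [mul_comm]

theorem frq_pos {e L : ℕ} (j : Idx e L) (i : Fin (e + 1)) : 1 ≤ frq j i := by
  unfold frq
  have : 0 < 2 ^ shp j.1 i := by positivity
  omega

theorem frq_lt {e L : ℕ} (j : Idx e L) (i : Fin (e + 1)) : frq j i < 2 ^ (shp j.1 i + 1) := by
  unfold frq
  have := (j.2 i).2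
  rw [pow_succ]; omega

theorem idx_log_frq {e L : ℕ} (j : Idx e L) (i : Fin (e + 1)) :
    Nat.log 2 (frq j i) = shp j.1 i := by
  rw [Nat.log_eq_iff (Or.inr ⟨by norm_num, by have := frq_pos j i; omega⟩)]
  exact ⟨by unfold frq; omega, frq_lt j i⟩

/-- Different indices have different frequency vectors. -/
theorem frq_injective {e L : ℕ} : Function.Injective (frq : Idx e L → Fin (e + 1) → ℕ) := by
  rintro ⟨u, v⟩ ⟨u', v'⟩ h
  have hs : shp u = shp u' := by
    funext i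
    have h1 := idx_log_frq (⟨u, v⟩ : Idx e L) i
    have h2 := idx_log_frq (⟨u', v'⟩ : Idx e L) i
    rw [h] at h1
    exact h1.symm.trans h2
  have hu : u = u' := by
    funext i
    have h1 := congrFun hs i.succ
    simp only [shp, Fin.cons_succ] at h1
    exact Fin.ext h1
  subst hu
  have hv : v = v' := by
    funext i
    have h1 := congrFun h i
    unfold frq at h1
    exact Fin.ext (Nat.add_left_cancel h1)
  rw [hv]

/-- `|φ_j| ≤ 2^{r (n + d)}`. -/
theorem pfun_bound {e L : ℕ} {r : ℝ} (hr : 0 ≤ r) (α : Fin (e + 1) → ℝ) (j : Idx e L)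
    (y : Fin (e + 1) → ℝ) :
    |pfun r α j y| ≤ (2 : ℝ) ^ (r * ((e * L : ℕ) + e + 1 : ℝ)) := by
  unfold pfun
  rw [Finset.abs_prod]
  have h1 : ∀ i : Fin (e + 1), |((frq j i : ℝ) ^ r *
      Real.cos ((frq j i : ℝ) * y i + α i * Real.pi / 2))| ≤
      (2 : ℝ) ^ (r * ((shp j.1 i : ℝ) + 1)) := by
    intro i
    rw [abs_mul]
    have hc := Real.abs_cos_le_one ((frq j i : ℝ) * y i + α i * Real.pi / 2)
    have hn : (0 : ℝ) ≤ (frq j i : ℝ) := Nat.cast_nonneg _
    have hp : (0 : ℝ) ≤ (frq j i : ℝ) ^ r := Real.rpow_nonneg hn r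
    have hle : (frq j i : ℝ) ≤ (2 : ℝ) ^ ((shp j.1 i : ℝ) + 1) := by
      have h2 : ((frq j i : ℕ) : ℝ) ≤ ((2 ^ (shp j.1 i + 1) : ℕ) : ℝ) := by
        exact_mod_cast (frq_lt j i).le
      have h3 : ((2 ^ (shp j.1 i + 1) : ℕ) : ℝ) = (2 : ℝ) ^ ((shp j.1 i : ℝ) + 1) := by
        rw [Real.rpow_add (by norm_num), Real.rpow_natCast, Real.rpow_one]
        push_cast
        ring
      exact h2.trans h3.le
    calc |(frq j i : ℝ) ^ r| * |Real.cos ((frq j i : ℝ) * y i + α i * Real.pi / 2)|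
        ≤ (frq j i : ℝ) ^ r * 1 := by
          rw [abs_of_nonneg hp]
          exact mul_le_mul_of_nonneg_left hc hp
      _ ≤ ((2 : ℝ) ^ ((shp j.1 i : ℝ) + 1)) ^ r := by
          rw [mul_one]
          exact Real.rpow_le_rpow hn hle hr
      _ = (2 : ℝ) ^ (r * ((shp j.1 i : ℝ) + 1)) := by
          rw [← Real.rpow_mul (by norm_num), mul_comm]
  calc ∏ i, |((frq j i : ℝ) ^ r * Real.cos ((frq j i : ℝ) * y i + α i * Real.pi / 2))|
      ≤ ∏ i, (2 : ℝ) ^ (r * ((shp j.1 i : ℝ) + 1)) :=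
        Finset.prod_le_prod (fun i _ => abs_nonneg _) fun i _ => h1 i
    _ = (2 : ℝ) ^ (∑ i, r * ((shp j.1 i : ℝ) + 1)) :=
        (Real.rpow_sum_of_pos (by norm_num) _ _).symm
    _ = (2 : ℝ) ^ (r * ((e * L : ℕ) + e + 1 : ℝ)) := by
        congr 1
        rw [← Finset.mul_sum, Finset.sum_add_distrib]
        have h4 : ∑ i, (shp j.1 i : ℝ) = ((e * L : ℕ) : ℝ) := by
          rw [← sum_shp j.1]
          push_cast
          rfl
        rw [h4]
        simp only [Finset.sum_const, Finset.card_univ, Fintype.card_fin, nsmul_eq_mul, mul_one]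
        push_cast
        ring

theorem gfun_measurable {e L : ℕ} (j : Idx e L) : Measurable (gfun j) := by
  unfold gfun
  fun_prop

theorem pfun_measurable {e L : ℕ} (r : ℝ) (α : Fin (e + 1) → ℝ) (j : Idx e L) :
    Measurable (pfun r α j) := by
  unfold pfun
  fun_prop

/-- `∑_j ∏_i F_i(k_i) = ∑_u ∏_i ∑_{v < 2^{s_i}} F_i(2^{s_i} + v)`. -/
theorem sum_idx {e L : ℕ} (F : Fin (e + 1) → ℕ → ℝ) :
    ∑ j : Idx e L, ∏ i, F i (frq j i) =
      ∑ u : Fin e → Fin L, ∏ i, ∑ v ∈ Finset.range (2 ^ shp u i), F i (2 ^ shp u i + v) := by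
  rw [Fintype.sum_sigma]
  refine Finset.sum_congr rfl fun u _ => ?_
  have h : ∀ i : Fin (e + 1), ∑ v ∈ Finset.range (2 ^ shp u i), F i (2 ^ shp u i + v) =
      ∑ v : Fin (2 ^ shp u i), F i (2 ^ shp u i + (v : ℕ)) := by
    intro i
    rw [Finset.sum_range]
  rw [Finset.prod_congr rfl fun i _ => h i, Finset.prod_univ_sum]
  rw [← Fintype.piFinset_univ]
  rfl

end Pool.Agent.MixEnt
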