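import Mathlib
import Pool.Agent.Lib.MP_b56574_an.CircA
import Pool.Agent.Lib.MP_b56574_an.Idx

/-! # The cosine products form an orthogonal system -/

open MeasureTheory

noncomputable section

namespace Pool.Agent.MixEnt

theorem TrigA_prod {e L : ℕ} (j k : Idx e L) :
    ∫ x, gfun j x * gfun k x ∂(torus (e + 1)) =
      ∏ i, ∫ x, Real.cos ((frq j i : ℝ) * x) * Real.cos ((frq k i : ℝ) * x) ∂circ := by
  have h := MeasureTheory.integral_fintype_prod_eq_prod (𝕜 := ℝ) (ι := Fin (e + 1))
    (E := fun _ => ℝ) (μ := fun _ => circ)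
    (fun i x => Real.cos ((frq j i : ℝ) * x) * Real.cos ((frq k i : ℝ) * x))
  rw [torus, ← h]
  congr 1
  funext x
  rw [gfun, gfun, Finset.prod_mul_distrib]

theorem sys_gfun (e L : ℕ) :
    Sys (torus (e + 1)) (gfun : Idx e L → (Fin (e + 1) → ℝ) → ℝ) ((1 / 2) ^ (e + 1)) where
  meas := gfun_measurable
  bd := by
    intro j x
    rw [gfun, Finset.abs_prod]
    exact Finset.prod_le_one (fun i _ => abs_nonneg _) (fun i _ => Real.abs_cos_le_one _)
  mean := by
    intro j
    have h := MeasureTheory.integral_fintype_prod_eq_prod (𝕜 := ℝ) (ι := Fin (e + 1))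
      (E := fun _ => ℝ) (μ := fun _ => circ) (fun i x => Real.cos ((frq j i : ℝ) * x))
    change ∫ x, ∏ i, Real.cos ((frq j i : ℝ) * x i) ∂(torus (e + 1)) = 0
    rw [torus, h]
    apply Finset.prod_eq_zero (Finset.mem_univ 0)
    have h2 := circ_cos (frq j 0) (frq_pos j 0) 0
    simpa using h2
  orth := by
    intro j k hjk
    rw [TrigA_prod]
    have h1 : frq j ≠ frq k := fun h => hjk (frq_injective h)
    obtain ⟨i, hi⟩ := Function.ne_iff.1 h1
    exact Finset.prod_eq_zero (Finset.mem_univ i)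
      (circ_cos_cos (frq j i) (frq k i) (frq_pos j i) (frq_pos k i) hi)
  sq := by
    intro j
    rw [TrigA_prod]
    simp only [circ_cos_sq _ (frq_pos j _)]
    simp

end Pool.Agent.MixEnt
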