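import Mathlib
import Pool.Agent.Lib.MP_b56574_an.CircB
import Pool.Agent.Lib.MP_b56574_an.Idx

/-! # The convolution identity on the torus -/

open MeasureTheory

noncomputable section

namespace Pool.Agent.MixEnt


theorem bern_measurable {d : ℕ} {r : ℝ} (hr : 1 < r) (α : Fin d → ℝ) :
    Measurable (bern r α) := by
  have h : Continuous (bern r α) := by
    unfold bern
    exact continuous_finsetProd _ fun i _ => (bern1_continuous hr (α i)).comp (continuous_apply i)
  exact h.measurable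

theorem bern_bounded {r : ℝ} (hr : 1 < r) (d : ℕ) : ∃ C : ℝ, 0 < C ∧
    ∀ (α : Fin d → ℝ) x, |bern r α x| ≤ C := by
  obtain ⟨C, hC, h⟩ := bern1_bounded hr
  refine ⟨C ^ d, by positivity, fun α x => ?_⟩
  unfold bern
  rw [Finset.abs_prod]
  calc ∏ i, |bern1 r (α i) (x i)| ≤ ∏ _i : Fin d, C :=
        Finset.prod_le_prod (fun i _ => abs_nonneg _) fun i _ => h _ _
    _ = C ^ d := by simp

theorem integral_bern_pfun {e L : ℕ} {r : ℝ} (hr : 1 < r) (α : Fin (e + 1) → ℝ) (j : Idx e L)
    (x : Fin (e + 1) → ℝ) :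
    ∫ y, bern r α (x - y) * pfun r α j y ∂(torus (e + 1)) = gfun j x := by
  unfold gfun torus
  have h : ∀ y : Fin (e + 1) → ℝ, bern r α (x - y) * pfun r α j y =
      ∏ i, (bern1 r (α i) (x i - y i) *
        ((frq j i : ℝ) ^ r * Real.cos ((frq j i : ℝ) * y i + α i * Real.pi / 2))) := by
    intro y
    unfold bern pfun
    rw [← Finset.prod_mul_distrib]
    rfl
  simp only [h]
  rw [integral_fintype_prod_eq_prod (fun i (t : ℝ) => bern1 r (α i) (x i - t) *
        ((frq j i : ℝ) ^ r * Real.cos ((frq j i : ℝ) * t + α i * Real.pi / 2)))]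
  exact Finset.prod_congr rfl fun i _ => bern1_conv hr (α i) (frq j i) (frq_pos j i) (x i)

private theorem trigB_integrable {e L : ℕ} {r : ℝ} (hr : 1 < r) (α : Fin (e + 1) → ℝ) (j : Idx e L)
    (x : Fin (e + 1) → ℝ) :
    Integrable (fun y => bern r α (x - y) * pfun r α j y) (torus (e + 1)) := by
  obtain ⟨C, hC, h⟩ := bern_bounded hr (e + 1)
  have hm : Measurable fun y => bern r α (x - y) * pfun r α j y :=
    ((bern_measurable hr α).comp (measurable_const.sub measurable_id)).mul (pfun_measurable r α j)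
  refine Integrable.of_bound hm.aestronglyMeasurable
    (C * (2 : ℝ) ^ (r * ((e * L : ℕ) + e + 1 : ℝ))) ?_
  filter_upwards with y
  rw [Real.norm_eq_abs, abs_mul]
  exact mul_le_mul (h _ _) (pfun_bound (by linarith) α j y) (abs_nonneg _) hC.le

theorem conv_sum (𝕜 : Type) [RCLike 𝕜] {e L : ℕ} {r : ℝ} (hr : 1 < r) (α : Fin (e + 1) → ℝ)
    (a : Idx e L → ℝ) :
    conv 𝕜 r α (fun y => ((∑ j, a j * pfun r α j y : ℝ) : 𝕜)) =
      fun x => ((∑ j, a j * gfun j x : ℝ) : 𝕜) := by
  funext x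
  unfold conv
  have h : ∀ y : Fin (e + 1) → ℝ, ((bern r α (x - y) : ℝ) : 𝕜) *
      ((∑ j, a j * pfun r α j y : ℝ) : 𝕜) =
      ((∑ j, a j * (bern r α (x - y) * pfun r α j y) : ℝ) : 𝕜) := by
    intro y
    rw [← RCLike.ofReal_mul, Finset.mul_sum]
    congr 1
    exact Finset.sum_congr rfl fun j _ => by ring
  simp only [h]
  rw [integral_ofReal]
  congr 1
  rw [integral_finsetSum _ fun j _ => (trigB_integrable hr α j x).const_mul (a j)]
  refine Finset.sum_congr rfl fun j _ => ?_
  rw [integral_const_mul, integral_bern_pfun hr]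

end Pool.Agent.MixEnt
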