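import Mathlib
import Pool.Agent.Lib.MP_b56574_an.RieszA
import Pool.Agent.Lib.MP_b56574_an.TrigA
import Pool.Agent.Lib.MP_b56574_an.TrigB

/-! # Points of the class and pairs in one ball -/

open MeasureTheory

noncomputable section

namespace Pool.Agent.MixEnt

theorem CovA_scal {e L : ℕ} {B : ℝ} (σ : Idx e L → Bool) (F : Idx e L → (Fin (e + 1) → ℝ) → ℝ)
    (x : Fin (e + 1) → ℝ) :
    (∑ j, (B⁻¹ * sg (σ j)) * F j x) = B⁻¹ * ∑ j, sg (σ j) * F j x := by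
  rw [Finset.mul_sum]
  exact Finset.sum_congr rfl fun j _ => by ring

theorem CovA_ae (𝕜 : Type) [RCLike 𝕜] {e L : ℕ} {B ε : ℝ} (hB : 0 < B) (hε : 0 < ε)
    (σ w : Idx e L → Bool) (p : (Fin (e + 1) → ℝ) → 𝕜)
    (h1 : eLpNorm ((fun x => ((∑ j, (B⁻¹ * sg (σ j)) * gfun j x : ℝ) : 𝕜)) - p) ⊤
      (torus (e + 1)) ≤ ENNReal.ofReal ε)
    (h2 : eLpNorm ((fun x => ((∑ j, (B⁻¹ * sg (w j)) * gfun j x : ℝ) : 𝕜)) - p) ⊤
      (torus (e + 1)) ≤ ENNReal.ofReal ε) :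
    ∀ᵐ x ∂(torus (e + 1)), |(∑ j, sg (σ j) * gfun j x) - ∑ j, sg (w j) * gfun j x| ≤ 2 * ε * B := by
  rw [eLpNorm_exponent_top] at h1 h2
  filter_upwards [ae_le_eLpNormEssSup (f := (fun x => ((∑ j, (B⁻¹ * sg (σ j)) * gfun j x : ℝ) : 𝕜)) - p)
      (μ := torus (e + 1)),
    ae_le_eLpNormEssSup (f := (fun x => ((∑ j, (B⁻¹ * sg (w j)) * gfun j x : ℝ) : 𝕜)) - p)
      (μ := torus (e + 1))] with x hx1 hx2
  have a1 := hx1.trans h1
  have a2 := hx2.trans h2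
  rw [← ofReal_norm, ENNReal.ofReal_le_ofReal_iff hε.le] at a1 a2
  simp only [Pi.sub_apply] at a1 a2
  have a3 : ‖((∑ j, (B⁻¹ * sg (σ j)) * gfun j x : ℝ) : 𝕜) -
      ((∑ j, (B⁻¹ * sg (w j)) * gfun j x : ℝ) : 𝕜)‖ ≤ 2 * ε := by
    calc _ = ‖(((∑ j, (B⁻¹ * sg (σ j)) * gfun j x : ℝ) : 𝕜) - p x) -
        (((∑ j, (B⁻¹ * sg (w j)) * gfun j x : ℝ) : 𝕜) - p x)‖ := by congr 1; ring
      _ ≤ _ := norm_sub_le _ _
      _ ≤ 2 * ε := by linarith
  rw [← RCLike.ofReal_sub, RCLike.norm_ofReal, CovA_scal, CovA_scal, ← mul_sub, abs_mul,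
    abs_of_pos (inv_pos.2 hB), inv_mul_le_iff₀ hB] at a3
  linarith

theorem pair_bound (𝕜 : Type) [RCLike 𝕜] {e L : ℕ} {B ε c : ℝ} (hB : 0 < B) (hε : 0 < ε)
    (hc : 0 < c) (hc1 : c ≤ 1) (σ w : Idx e L → Bool)
    (hm : ∫ x, riesz c (gfun : Idx e L → _ → ℝ) σ x ∂(torus (e + 1)) ≤ 4)
    (p : (Fin (e + 1) → ℝ) → 𝕜)
    (h1 : eLpNorm ((fun x => ((∑ j, (B⁻¹ * sg (σ j)) * gfun j x : ℝ) : 𝕜)) - p) ⊤
      (torus (e + 1)) ≤ ENNReal.ofReal ε)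
    (h2 : eLpNorm ((fun x => ((∑ j, (B⁻¹ * sg (w j)) * gfun j x : ℝ) : 𝕜)) - p) ⊤
      (torus (e + 1)) ≤ ENNReal.ofReal ε) :
    ∫ x, ((∑ j, sg (σ j) * gfun j x) - ∑ j, sg (w j) * gfun j x) *
      riesz c (gfun : Idx e L → _ → ℝ) σ x ∂(torus (e + 1)) ≤ 8 * ε * B := by
  have hs := sys_gfun e L
  have hae := CovA_ae 𝕜 hB hε σ w p h1 h2
  have hint := riesz_integrable hs hc hc1 σ
  have hnn : ∀ x, 0 ≤ riesz c (gfun : Idx e L → _ → ℝ) σ x := riesz_nonneg hs hc hc1 σ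
  have hint2 : Integrable (fun x => 2 * ε * B * riesz c (gfun : Idx e L → _ → ℝ) σ x)
      (torus (e + 1)) := hint.const_mul _
  have hmeas : Measurable (fun x => ((∑ j, sg (σ j) * gfun j x) - ∑ j, sg (w j) * gfun j x) *
      riesz c (gfun : Idx e L → _ → ℝ) σ x) := by
    refine Measurable.mul (Measurable.sub ?_ ?_) (riesz_measurable hs c σ)
    · exact Finset.measurable_fun_sum _ fun j _ => (gfun_measurable j).const_mul _
    · exact Finset.measurable_fun_sum _ fun j _ => (gfun_measurable j).const_mul _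
  have hint1 : Integrable (fun x => ((∑ j, sg (σ j) * gfun j x) - ∑ j, sg (w j) * gfun j x) *
      riesz c (gfun : Idx e L → _ → ℝ) σ x) (torus (e + 1)) := by
    refine hint2.mono' hmeas.aestronglyMeasurable ?_
    filter_upwards [hae] with x hx
    rw [Real.norm_eq_abs, abs_mul, abs_of_nonneg (hnn x)]
    exact mul_le_mul_of_nonneg_right hx (hnn x)
  calc _ ≤ ∫ x, 2 * ε * B * riesz c (gfun : Idx e L → _ → ℝ) σ x ∂(torus (e + 1)) := by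
        refine integral_mono_ae hint1 hint2 ?_
        filter_upwards [hae] with x hx
        exact mul_le_mul_of_nonneg_right ((le_abs_self _).trans hx) (hnn x)
    _ = 2 * ε * B * ∫ x, riesz c (gfun : Idx e L → _ → ℝ) σ x ∂(torus (e + 1)) :=
        integral_const_mul _ _
    _ ≤ 2 * ε * B * 4 := by gcongr
    _ = 8 * ε * B := by ring

theorem mem_MW (𝕜 : Type) [RCLike 𝕜] {e L : ℕ} {r q : ℝ} (hr : 1 < r) (hq : 1 ≤ q)
    (α : Fin (e + 1) → ℝ) {B : ℝ} (hB : 0 < B) (σ : Idx e L → Bool)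
    (hσ : eLpNorm (fun y => ∑ j, sg (σ j) * pfun r α j y) (ENNReal.ofReal q) (torus (e + 1)) ≤
      ENNReal.ofReal B) :
    (fun x => ((∑ j, (B⁻¹ * sg (σ j)) * gfun j x : ℝ) : 𝕜)) ∈ MW 𝕜 (e + 1) r q α := by
  have hmeas : Measurable (fun y => ∑ j, sg (σ j) * pfun r α j y) :=
    Finset.measurable_fun_sum _ fun j _ => (pfun_measurable r α j).const_mul _
  have hnorm : eLpNorm (fun y => ((∑ j, (B⁻¹ * sg (σ j)) * pfun r α j y : ℝ) : 𝕜))
      (ENNReal.ofReal q) (torus (e + 1)) ≤ 1 := by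
    have e1 : eLpNorm (fun y => ((∑ j, (B⁻¹ * sg (σ j)) * pfun r α j y : ℝ) : 𝕜))
        (ENNReal.ofReal q) (torus (e + 1)) =
        eLpNorm (B⁻¹ • (fun y => ∑ j, sg (σ j) * pfun r α j y)) (ENNReal.ofReal q)
          (torus (e + 1)) := by
      refine eLpNorm_congr_norm_ae (Filter.Eventually.of_forall fun y => ?_)
      rw [CovA_scal, RCLike.norm_ofReal, Pi.smul_apply, smul_eq_mul, Real.norm_eq_abs]
    rw [e1, eLpNorm_const_smul]
    calc ‖B⁻¹‖ₑ * eLpNorm (fun y => ∑ j, sg (σ j) * pfun r α j y) (ENNReal.ofReal q)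
          (torus (e + 1)) ≤ ‖B⁻¹‖ₑ * ENNReal.ofReal B := by gcongr
      _ = 1 := by
          rw [← ofReal_norm, Real.norm_eq_abs, abs_of_pos (inv_pos.2 hB),
            ← ENNReal.ofReal_mul (inv_nonneg.2 hB.le), inv_mul_cancel₀ hB.ne', ENNReal.ofReal_one]
  refine ⟨fun y => ((∑ j, (B⁻¹ * sg (σ j)) * pfun r α j y : ℝ) : 𝕜), ⟨?_, ?_⟩, hnorm, ?_⟩
  · have h1 : Measurable (fun y => ∑ j, (B⁻¹ * sg (σ j)) * pfun r α j y) :=
      Finset.measurable_fun_sum _ fun j _ => (pfun_measurable r α j).const_mul _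
    exact (RCLike.continuous_ofReal.measurable.comp h1).aestronglyMeasurable
  · exact hnorm.trans_lt ENNReal.one_lt_top
  · exact (conv_sum 𝕜 hr α (fun j => B⁻¹ * sg (σ j))).symm

end Pool.Agent.MixEnt
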