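import Mathlib
import Pool.Agent.Lib.MP_b56574_an.Signs

/-! # The size of a Hamming ball -/

noncomputable section

namespace Pool.Agent.MixEnt

variable {J : Type} [Fintype J] [DecidableEq J]

/-- `∑_w 7^{-dist(σ, w)} = (8/7)^D`. -/
theorem sum_pow_hamming (σ : J → Bool) :
    ∑ w : J → Bool, (1 / 7 : ℝ) ^ hammingDist σ w = (8 / 7) ^ Fintype.card J := by
  have h1 : ∀ w : J → Bool, (1 / 7 : ℝ) ^ hammingDist σ w =
      ∏ j, (if σ j ≠ w j then (1 / 7 : ℝ) else 1) := by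
    intro w
    rw [Finset.prod_ite, Finset.prod_const, Finset.prod_const_one, mul_one]
    rfl
  rw [Finset.sum_congr rfl fun w _ => h1 w]
  rw [sum_prod_sign (fun j b => if σ j ≠ b then (1 / 7 : ℝ) else 1)]
  rw [Finset.prod_congr rfl (g := fun _ => (8 / 7 : ℝ))]
  · rw [Finset.prod_const, Finset.card_univ]
  · intro j _
    cases σ j <;> norm_num

/-- The Hamming ball of radius `D/8` has at most `2^{5 D / 8}` elements. -/
theorem hamming_ball (σ : J → Bool) (V : Finset (J → Bool))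
    (hV : ∀ w ∈ V, 8 * hammingDist σ w < Fintype.card J) :
    V.card ^ 8 ≤ 2 ^ (5 * Fintype.card J) := by
  set D := Fintype.card J with hD
  have h1 : (V.card : ℝ) * (1 / 7) ^ (D / 8) ≤ (8 / 7) ^ D := by
    calc (V.card : ℝ) * (1 / 7) ^ (D / 8) = ∑ w ∈ V, (1 / 7 : ℝ) ^ (D / 8) := by
          rw [Finset.sum_const, nsmul_eq_mul]
      _ ≤ ∑ w ∈ V, (1 / 7 : ℝ) ^ hammingDist σ w := by
          refine Finset.sum_le_sum fun w hw => ?_
          refine pow_le_pow_of_le_one (by norm_num) (by norm_num) ?_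
          have := hV w hw
          omega
      _ ≤ ∑ w : J → Bool, (1 / 7 : ℝ) ^ hammingDist σ w :=
          Finset.sum_le_sum_of_subset_of_nonneg (Finset.subset_univ V)
            (fun _ _ _ => by positivity)
      _ = (8 / 7) ^ D := sum_pow_hamming σ
  have h2 : (V.card : ℝ) ≤ 7 ^ (D / 8) * (8 / 7) ^ D := by
    have h3 : (1 / 7 : ℝ) ^ (D / 8) * 7 ^ (D / 8) = 1 := by
      rw [← mul_pow]; norm_num
    calc (V.card : ℝ) = (V.card : ℝ) * (1 / 7) ^ (D / 8) * 7 ^ (D / 8) := by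
          rw [mul_assoc, h3, mul_one]
      _ ≤ (8 / 7) ^ D * 7 ^ (D / 8) := by gcongr
      _ = _ := mul_comm _ _
  have h4 : (V.card : ℝ) ^ 8 ≤ 2 ^ (5 * D) := by
    calc (V.card : ℝ) ^ 8 ≤ (7 ^ (D / 8) * (8 / 7) ^ D) ^ 8 := by gcongr
      _ = 7 ^ (8 * (D / 8)) * ((8 / 7) ^ 8) ^ D := by
          rw [mul_pow, ← pow_mul, ← pow_mul, ← pow_mul, mul_comm (D / 8) 8, mul_comm D 8]
      _ ≤ 7 ^ D * ((8 / 7) ^ 8) ^ D := by
          gcongr
          · norm_num
          · exact Nat.mul_div_le D 8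
      _ = (7 * (8 / 7) ^ 8) ^ D := by rw [mul_pow]
      _ ≤ (2 ^ 5) ^ D := by
          gcongr
          norm_num
      _ = 2 ^ (5 * D) := by rw [← pow_mul]
  exact_mod_cast h4

/-- Any set of at least `2^{D-2-k}` sign vectors, `4 k + 32 ≤ D`, contains for each `σ` a vector
at distance at least `D/8`. -/
theorem exists_far (σ : J → Bool) (V : Finset (J → Bool)) (k : ℕ)
    (hk : 4 * k + 32 ≤ Fintype.card J) (hV : 2 ^ Fintype.card J ≤ 4 * 2 ^ k * V.card) :
    ∃ w ∈ V, Fintype.card J ≤ 8 * hammingDist σ w := by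
  by_contra hcon
  push Not at hcon
  have h1 := hamming_ball σ V hcon
  set D := Fintype.card J with hD
  have h2 : 2 ^ (8 * D) ≤ 2 ^ (16 + 8 * k + 5 * D) := by
    calc 2 ^ (8 * D) = (2 ^ D) ^ 8 := by rw [← pow_mul, mul_comm]
      _ ≤ (4 * 2 ^ k * V.card) ^ 8 := Nat.pow_le_pow_left hV 8
      _ = 2 ^ (16 + 8 * k) * V.card ^ 8 := by
          rw [mul_pow, mul_pow, ← pow_mul, pow_add, mul_comm k 8]
          norm_num
      _ ≤ 2 ^ (16 + 8 * k) * 2 ^ (5 * D) := Nat.mul_le_mul_left _ h1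
      _ = 2 ^ (16 + 8 * k + 5 * D) := by rw [← pow_add]
  have h3 := (Nat.pow_le_pow_iff_right (by norm_num : 1 < 2)).1 h2
  omega

end Pool.Agent.MixEnt
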