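import Mathlib
import Pool.Agent.Lib.MP_b56574_an.Signs

/-! # `L_q` norms of random sums -/

open MeasureTheory

noncomputable section

namespace Pool.Agent.MixEnt


theorem rpow_le_cosh (q : ℝ) (hq : 1 ≤ q) :
    ∃ C : ℝ, 0 < C ∧ ∀ x : ℝ, |x| ^ q ≤ C * Real.cosh x := by
  set m : ℕ := ⌈q⌉₊ with hm
  refine ⟨1 + 2 * (m.factorial : ℝ), by positivity, fun x => ?_⟩
  have hcosh : 1 ≤ Real.cosh x := Real.one_le_cosh x
  have hf : (0 : ℝ) < m.factorial := by positivity
  rcases le_total |x| 1 with hx | hx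
  · have h1 : |x| ^ q ≤ 1 := Real.rpow_le_one (abs_nonneg x) hx (by linarith)
    nlinarith
  · have h1 : |x| ^ q ≤ |x| ^ (m : ℝ) := Real.rpow_le_rpow_of_exponent_le hx (Nat.le_ceil q)
    rw [Real.rpow_natCast] at h1
    have h2 : |x| ^ m / (m.factorial : ℝ) ≤ Real.exp |x| :=
      Real.pow_div_factorial_le_exp |x| (abs_nonneg x) m
    have h3 : Real.exp |x| ≤ 2 * Real.cosh x := by
      rw [← Real.cosh_abs, Real.cosh_eq]
      have : 0 < Real.exp (-|x|) := Real.exp_pos _
      linarith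
    have h4 : |x| ^ m ≤ (m.factorial : ℝ) * (2 * Real.cosh x) := by
      have := (div_le_iff₀ hf).1 (h2.trans h3)
      linarith
    nlinarith

theorem khin_good (q : ℝ) (hq : 1 ≤ q) : ∃ C : ℝ, 0 < C ∧
    ∀ (Ω J : Type) [MeasurableSpace Ω] [Fintype J] [DecidableEq J] [Nonempty J]
      (μ : Measure Ω) [IsProbabilityMeasure μ] (φ : J → Ω → ℝ) (A : ℝ), 0 < A →
      (∀ j, Measurable (φ j)) → (∀ j x, |φ j x| ≤ A) →
      ∃ G : Finset (J → Bool), 3 * 2 ^ Fintype.card J ≤ 4 * G.card ∧ ∀ σ ∈ G,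
        eLpNorm (fun x => ∑ j, sg (σ j) * φ j x) (ENNReal.ofReal q) μ ≤
          ENNReal.ofReal (C * A * √(Fintype.card J)) := by
  obtain ⟨C, hC, hCb⟩ := rpow_le_cosh q hq
  refine ⟨(8 * C) ^ (1 / q), by positivity, ?_⟩
  intro Ω J _ _ _ _ μ _ φ A hA hmeas hbd
  set D : ℝ := (Fintype.card J : ℝ) with hD
  have hDpos : 0 < D := by
    rw [hD]; exact_mod_cast Fintype.card_pos
  have hsD : 0 < √D := Real.sqrt_pos.2 hDpos
  set B : ℝ := A * √D with hB
  have hBpos : 0 < B := by positivity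
  set S : (J → Bool) → Ω → ℝ := fun σ x => ∑ j, sg (σ j) * φ j x with hS
  have hSmeas : ∀ σ, Measurable (S σ) := fun σ =>
    Finset.measurable_sum _ fun j _ => (hmeas j).const_mul _
  have hSbd : ∀ σ x, |S σ x| ≤ D * A := by
    intro σ x
    calc |S σ x| ≤ ∑ j, |sg (σ j) * φ j x| := Finset.abs_sum_le_sum_abs _ _
      _ ≤ ∑ _j : J, A := by
        refine Finset.sum_le_sum fun j _ => ?_
        rw [abs_mul]
        have : |sg (σ j)| = 1 := by cases σ j <;> simp [sg]
        rw [this, one_mul]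
        exact hbd j x
      _ = D * A := by simp [hD]
  have hcm : ∀ σ, Measurable (fun x => Real.cosh (S σ x / B)) := fun σ =>
    Real.continuous_cosh.measurable.comp ((hSmeas σ).div_const B)
  have hcb : ∀ σ x, |Real.cosh (S σ x / B)| ≤ Real.cosh (D * A / B) := by
    intro σ x
    rw [abs_of_pos (Real.cosh_pos _)]
    rw [Real.cosh_le_cosh, abs_div, abs_div]
    exact div_le_div_of_nonneg_right ((hSbd σ x).trans (le_abs_self _)) (abs_nonneg _)
  have hci : ∀ σ, Integrable (fun x => Real.cosh (S σ x / B)) μ := fun σ =>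
    Integrable.of_bound (hcm σ).aestronglyMeasurable (Real.cosh (D * A / B))
      (Filter.Eventually.of_forall fun x => by rw [Real.norm_eq_abs]; exact hcb σ x)
  set F : (J → Bool) → ℝ := fun σ => ∫ x, Real.cosh (S σ x / B) ∂μ with hF
  have hF0 : ∀ σ, 0 ≤ F σ := fun σ => integral_nonneg fun x => (Real.cosh_pos _).le
  have hsum : ∑ σ, F σ ≤ 2 * 2 ^ Fintype.card J := by
    rw [hF, ← integral_finsetSum _ fun σ _ => hci σ]
    have hpt : ∀ x, ∑ σ, Real.cosh (S σ x / B) ≤ 2 * 2 ^ Fintype.card J := by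
      intro x
      have h1 : ∀ σ : J → Bool, S σ x / B = ∑ j, sg (σ j) * (φ j x / B) := by
        intro σ
        rw [hS]
        simp only
        rw [Finset.sum_div]
        exact Finset.sum_congr rfl fun j _ => by ring
      rw [Finset.sum_congr rfl fun σ _ => by rw [h1 σ]]
      refine (sum_cosh (fun j => φ j x / B)).trans ?_
      have h2 : ∑ j, (φ j x / B) ^ 2 ≤ 1 := by
        calc ∑ j, (φ j x / B) ^ 2 ≤ ∑ _j : J, A ^ 2 / B ^ 2 := by
              refine Finset.sum_le_sum fun j _ => ?_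
              rw [div_pow]
              refine div_le_div_of_nonneg_right ?_ (by positivity)
              rw [← sq_abs]
              exact pow_le_pow_left₀ (abs_nonneg _) (hbd j x) 2
          _ = D * (A ^ 2 / B ^ 2) := by simp [hD]
          _ = 1 := by
              rw [hB, mul_pow, Real.sq_sqrt hDpos.le]
              field_simp
      have h3 : Real.exp ((∑ j, (φ j x / B) ^ 2) / 2) ≤ 2 := by
        calc Real.exp ((∑ j, (φ j x / B) ^ 2) / 2) ≤ Real.exp (1 / 2) := by
              apply Real.exp_le_exp.2; linarith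
          _ ≤ 2 := by
              have h4 : Real.exp (1 / 2) ^ 2 = Real.exp 1 := by
                rw [← Real.exp_nat_mul]; norm_num
              have h5 := Real.exp_one_lt_d9
              nlinarith [Real.exp_pos (1 / 2)]
      have h6 : (0 : ℝ) < 2 ^ Fintype.card J := by positivity
      nlinarith
    calc ∫ x, ∑ σ, Real.cosh (S σ x / B) ∂μ ≤ ∫ _x, (2 * 2 ^ Fintype.card J : ℝ) ∂μ := by
          refine integral_mono (integrable_finsetSum _ fun σ _ => hci σ) (integrable_const _) ?_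
          intro x; exact hpt x
      _ = 2 * 2 ^ Fintype.card J := by simp
  set G : Finset (J → Bool) := Finset.univ.filter (fun σ => F σ ≤ 8) with hG
  refine ⟨G, ?_, ?_⟩
  · set Gc : Finset (J → Bool) := Finset.univ.filter (fun σ => ¬ F σ ≤ 8) with hGc
    have hcard : G.card + Gc.card = 2 ^ Fintype.card J := by
      rw [hG, hGc, Finset.card_filter_add_card_filter_not]
      simp
    have h1 : 8 * (Gc.card : ℝ) ≤ ∑ σ, F σ := by
      calc 8 * (Gc.card : ℝ) = ∑ _σ ∈ Gc, (8 : ℝ) := by simp [mul_comm]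
        _ ≤ ∑ σ ∈ Gc, F σ := by
            refine Finset.sum_le_sum fun σ hσ => ?_
            rw [hGc, Finset.mem_filter] at hσ
            exact (not_le.1 hσ.2).le
        _ ≤ ∑ σ, F σ := Finset.sum_le_sum_of_subset_of_nonneg (Finset.subset_univ _)
            fun σ _ _ => hF0 σ
    have h2 : 8 * (Gc.card : ℝ) ≤ 2 * 2 ^ Fintype.card J := h1.trans hsum
    have h3 : 4 * Gc.card ≤ 2 ^ Fintype.card J := by
      have : (4 * Gc.card : ℝ) ≤ 2 ^ Fintype.card J := by linarith
      exact_mod_cast this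
    omega
  · intro σ hσ
    rw [hG, Finset.mem_filter] at hσ
    have hσ8 : F σ ≤ 8 := hσ.2
    have hq0 : (ENNReal.ofReal q) ≠ 0 := by
      rw [Ne, ENNReal.ofReal_eq_zero]; linarith
    rw [eLpNorm_eq_lintegral_rpow_enorm_toReal hq0 ENNReal.ofReal_ne_top,
      ENNReal.toReal_ofReal (by linarith)]
    have hpt : ∀ x, ‖∑ j, sg (σ j) * φ j x‖ₑ ^ q ≤
        ENNReal.ofReal (B ^ q * C * Real.cosh (S σ x / B)) := by
      intro x
      rw [Real.enorm_eq_ofReal_abs, ENNReal.ofReal_rpow_of_nonneg (abs_nonneg _) (by linarith)]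
      apply ENNReal.ofReal_le_ofReal
      have h1 := hCb (S σ x / B)
      rw [abs_div, abs_of_pos hBpos, Real.div_rpow (abs_nonneg _) hBpos.le] at h1
      have h2 : 0 < B ^ q := Real.rpow_pos_of_pos hBpos q
      rw [div_le_iff₀ h2] at h1
      calc |∑ j, sg (σ j) * φ j x| ^ q ≤ C * Real.cosh (S σ x / B) * B ^ q := h1
        _ = B ^ q * C * Real.cosh (S σ x / B) := by ring
    have hint : ∫⁻ x, ‖∑ j, sg (σ j) * φ j x‖ₑ ^ q ∂μ ≤ ENNReal.ofReal (B ^ q * C * 8) := by
      calc ∫⁻ x, ‖∑ j, sg (σ j) * φ j x‖ₑ ^ q ∂μ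
          ≤ ∫⁻ x, ENNReal.ofReal (B ^ q * C * Real.cosh (S σ x / B)) ∂μ := lintegral_mono hpt
        _ = ENNReal.ofReal (∫ x, B ^ q * C * Real.cosh (S σ x / B) ∂μ) := by
            rw [ofReal_integral_eq_lintegral_ofReal ((hci σ).const_mul _)]
            exact Filter.Eventually.of_forall fun x => by
              have := Real.cosh_pos (S σ x / B)
              positivity
        _ ≤ ENNReal.ofReal (B ^ q * C * 8) := by
            apply ENNReal.ofReal_le_ofReal
            rw [integral_const_mul]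
            have : 0 ≤ B ^ q * C := by positivity
            exact mul_le_mul_of_nonneg_left hσ8 this
    calc (∫⁻ x, ‖∑ j, sg (σ j) * φ j x‖ₑ ^ q ∂μ) ^ (1 / q)
        ≤ (ENNReal.ofReal (B ^ q * C * 8)) ^ (1 / q) :=
          ENNReal.rpow_le_rpow hint (by positivity)
      _ = ENNReal.ofReal ((B ^ q * C * 8) ^ (1 / q)) :=
          ENNReal.ofReal_rpow_of_nonneg (by positivity) (by positivity)
      _ = ENNReal.ofReal ((8 * C) ^ (1 / q) * A * √D) := by
          congr 1
          have h1 : B ^ q * C * 8 = B ^ q * (8 * C) := by ring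
          rw [h1, Real.mul_rpow (by positivity) (by positivity), ← Real.rpow_mul hBpos.le,
            mul_one_div_cancel (by linarith), Real.rpow_one, hB]
          ring

end Pool.Agent.MixEnt
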