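import Mathlib
import Pool.Agent.Lib.MP_b56574_an.Defs

/-! # Dyadic blocks of the Dirichlet kernel -/

open MeasureTheory

noncomputable section

namespace Pool.Agent.MixEnt


def blk (m : ℕ) (u v : ℝ) : ℝ :=
  ∑ k ∈ Finset.range (2 ^ m), Real.cos (((2 ^ m + k : ℕ) : ℝ) * u) * Real.cos (((2 ^ m + k : ℕ) : ℝ) * v)

def dst (u v : ℝ) : ℝ := min |Real.sin ((u - v) / 2)| |Real.sin ((u + v) / 2)|

theorem dst_le_one (u v : ℝ) : dst u v ≤ 1 :=
  (min_le_left _ _).trans (Real.abs_sin_le_one _)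

theorem dst_nonneg (u v : ℝ) : 0 ≤ dst u v := le_min (abs_nonneg _) (abs_nonneg _)

theorem blk_le_pow (m : ℕ) (u v : ℝ) : |blk m u v| ≤ 2 ^ m := by
  unfold blk
  calc |∑ k ∈ Finset.range (2 ^ m),
        Real.cos (((2 ^ m + k : ℕ) : ℝ) * u) * Real.cos (((2 ^ m + k : ℕ) : ℝ) * v)|
      ≤ ∑ k ∈ Finset.range (2 ^ m),
        |Real.cos (((2 ^ m + k : ℕ) : ℝ) * u) * Real.cos (((2 ^ m + k : ℕ) : ℝ) * v)| :=
        Finset.abs_sum_le_sum_abs _ _
    _ ≤ ∑ _k ∈ Finset.range (2 ^ m), (1 : ℝ) := by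
        refine Finset.sum_le_sum fun k _ => ?_
        rw [abs_mul]
        exact mul_le_one₀ (Real.abs_cos_le_one _) (abs_nonneg _) (Real.abs_cos_le_one _)
    _ = 2 ^ m := by simp

theorem DirA_tele (a N : ℕ) (t : ℝ) :
    2 * Real.sin (t / 2) * ∑ k ∈ Finset.range N, Real.cos (((a + k : ℕ) : ℝ) * t) =
      Real.sin (((a : ℝ) + N) * t - t / 2) - Real.sin ((a : ℝ) * t - t / 2) := by
  induction N with
  | zero => simp
  | succ N ih =>
    rw [Finset.sum_range_succ, mul_add, ih]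
    have h1 : ((a : ℝ) + (N + 1 : ℕ)) * t - t / 2 = ((a + N : ℕ) : ℝ) * t + t / 2 := by
      push_cast; ring
    have h2 : ((a : ℝ) + N) * t - t / 2 = ((a + N : ℕ) : ℝ) * t - t / 2 := by
      push_cast; ring
    rw [h1, h2, Real.sin_add, Real.sin_sub]
    ring

theorem dirichlet_le (a N : ℕ) (t : ℝ) :
    |∑ k ∈ Finset.range N, Real.cos (((a + k : ℕ) : ℝ) * t)| * |Real.sin (t / 2)| ≤ 1 := by
  have h := DirA_tele a N t
  have h1 : |2 * Real.sin (t / 2) * ∑ k ∈ Finset.range N, Real.cos (((a + k : ℕ) : ℝ) * t)| ≤ 2 := by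
    rw [h]
    calc _ ≤ |Real.sin (((a : ℝ) + N) * t - t / 2)| + |Real.sin ((a : ℝ) * t - t / 2)| :=
        abs_sub _ _
      _ ≤ 1 + 1 := add_le_add (Real.abs_sin_le_one _) (Real.abs_sin_le_one _)
      _ = 2 := by norm_num
  rw [abs_mul, abs_mul, abs_two] at h1
  nlinarith [h1]

theorem blk_mul_dst_le (m : ℕ) (u v : ℝ) : |blk m u v| * dst u v ≤ 1 := by
  set A := ∑ k ∈ Finset.range (2 ^ m), Real.cos (((2 ^ m + k : ℕ) : ℝ) * (u - v)) with hA
  set B := ∑ k ∈ Finset.range (2 ^ m), Real.cos (((2 ^ m + k : ℕ) : ℝ) * (u + v)) with hB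
  have h1 : blk m u v = (A + B) / 2 := by
    rw [hA, hB, ← Finset.sum_add_distrib, Finset.sum_div]
    unfold blk
    refine Finset.sum_congr rfl fun k _ => ?_
    rw [mul_sub, mul_add, Real.cos_sub, Real.cos_add]
    ring
  have hA1 : |A| * |Real.sin ((u - v) / 2)| ≤ 1 := dirichlet_le (2 ^ m) (2 ^ m) (u - v)
  have hB1 : |B| * |Real.sin ((u + v) / 2)| ≤ 1 := dirichlet_le (2 ^ m) (2 ^ m) (u + v)
  have hd := dst_nonneg u v
  have hA2 : |A| * dst u v ≤ 1 :=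
    (mul_le_mul_of_nonneg_left (min_le_left _ _) (abs_nonneg _)).trans hA1
  have hB2 : |B| * dst u v ≤ 1 :=
    (mul_le_mul_of_nonneg_left (min_le_right _ _) (abs_nonneg _)).trans hB1
  rw [h1, abs_div, abs_two]
  have h3 : |A + B| ≤ |A| + |B| := abs_add_le _ _
  calc |A + B| / 2 * dst u v ≤ (|A| + |B|) / 2 * dst u v := by gcongr
    _ = (|A| * dst u v + |B| * dst u v) / 2 := by ring
    _ ≤ (1 + 1) / 2 := by gcongr
    _ = 1 := by norm_num

theorem exists_level (n : ℕ) (u v : ℝ) : ∃ k : Fin (n + 1), dst u v ≤ (1 / 2) ^ (k : ℕ) ∧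
    ∀ m ≤ n, |blk m u v| ≤ 2 ^ (min m (k + 1)) := by
  classical
  have hP : ∃ k, k ≤ n ∧ dst u v ≤ (1 / 2) ^ k := ⟨0, Nat.zero_le _, by simpa using dst_le_one u v⟩
  set K := Nat.findGreatest (fun k => dst u v ≤ (1 / 2 : ℝ) ^ k) n with hK
  have hK1 : dst u v ≤ (1 / 2 : ℝ) ^ K :=
    Nat.findGreatest_spec (P := fun k => dst u v ≤ (1 / 2 : ℝ) ^ k) (Nat.zero_le n)
      (by simpa using dst_le_one u v)
  have hK2 : K ≤ n := Nat.findGreatest_le n
  refine ⟨⟨K, Nat.lt_succ_of_le hK2⟩, hK1, fun m hm => ?_⟩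
  change |blk m u v| ≤ 2 ^ (min m (K + 1))
  rcases Nat.lt_or_ge K n with h | h
  · have h1 : ¬ dst u v ≤ (1 / 2 : ℝ) ^ (K + 1) := by
      intro h2
      have := Nat.le_findGreatest (P := fun k => dst u v ≤ (1 / 2 : ℝ) ^ k) (m := K + 1)
        (n := n) h h2
      omega
    rw [not_le] at h1
    rcases le_total m (K + 1) with h2 | h2
    · rw [min_eq_left h2]; exact blk_le_pow m u v
    · rw [min_eq_right h2]
      have h3 := blk_mul_dst_le m u v
      have h4 : |blk m u v| * (1 / 2 : ℝ) ^ (K + 1) ≤ 1 :=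
        (mul_le_mul_of_nonneg_left h1.le (abs_nonneg _)).trans h3
      rw [one_div, inv_pow, ← div_eq_mul_inv, div_le_one (by positivity)] at h4
      exact h4
  · rw [min_eq_left (by omega)]
    exact blk_le_pow m u v

end Pool.Agent.MixEnt
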