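import Mathlib
import Pool.Agent.Lib.MP_b56574_an.DirA

/-! # The distribution of `dst u` -/

open MeasureTheory

noncomputable section

namespace Pool.Agent.MixEnt

theorem DirB_exists_int {w θ : ℝ} (h : |Real.sin w| ≤ θ) :
    ∃ k : ℤ, |w - k * Real.pi| ≤ Real.pi * θ / 2 := by
  have hpi := Real.pi_pos
  refine ⟨round (w / Real.pi), ?_⟩
  set k : ℤ := round (w / Real.pi) with hk
  have h1 : |w / Real.pi - k| ≤ 1 / 2 := abs_sub_round _
  have h2 : w - k * Real.pi = (w / Real.pi - k) * Real.pi := by field_simp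
  have h3 : |w - k * Real.pi| ≤ Real.pi / 2 := by
    rw [h2, abs_mul, abs_of_pos hpi]
    nlinarith
  have h4 := Real.mul_abs_le_abs_sin h3
  have h5 : |Real.sin (w - k * Real.pi)| = |Real.sin w| := by
    rw [Real.sin_sub_int_mul_pi, abs_mul]
    simp
  rw [h5] at h4
  have h6 : 2 / Real.pi * |w - k * Real.pi| ≤ θ := h4.trans h
  rw [div_mul_eq_mul_div, div_le_iff₀ hpi] at h6
  linarith

theorem DirB_vol {a b c : ℝ} (h : b - a ≤ c) : volume (Set.Icc a b) ≤ ENNReal.ofReal c := by
  rw [Real.volume_Icc]
  exact ENNReal.ofReal_le_ofReal h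

theorem DirB_subset {u : ℝ} (hu : u ∈ Set.Ico 0 (2 * Real.pi)) {θ : ℝ} (hθ1 : θ < 1 / 4) :
    {v | dst u v ≤ θ} ∩ Set.Ico 0 (2 * Real.pi) ⊆
      Set.Icc (u - Real.pi * θ) (u + Real.pi * θ) ∪
      (Set.Icc 0 (u - 2 * Real.pi + Real.pi * θ) ∪
      (Set.Icc (u + 2 * Real.pi - Real.pi * θ) (2 * Real.pi) ∪
      (Set.Icc (2 * Real.pi - u - Real.pi * θ) (2 * Real.pi - u + Real.pi * θ) ∪
      (Set.Icc 0 (Real.pi * θ - u) ∪
      Set.Icc (4 * Real.pi - u - Real.pi * θ) (2 * Real.pi))))) := by
  have hpi := Real.pi_pos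
  have hθ2 : Real.pi * θ < Real.pi / 4 := by nlinarith
  rintro v ⟨hv, hv0, hv1⟩
  obtain ⟨hu0, hu1⟩ := hu
  simp only [Set.mem_setOf_eq, dst, min_le_iff] at hv
  simp only [Set.mem_union, Set.mem_Icc]
  rcases hv with hv | hv
  · obtain ⟨k, hk⟩ := DirB_exists_int hv
    rw [abs_le] at hk
    obtain ⟨hk1, hk2⟩ := hk
    have hk3 : (k : ℝ) < 2 := by
      by_contra hcon
      push Not at hcon
      nlinarith
    have hk4 : (-2 : ℝ) < k := by
      by_contra hcon
      push Not at hcon
      nlinarith
    have hk5 : k < 2 := by exact_mod_cast hk3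
    have hk6 : -2 < k := by exact_mod_cast hk4
    have hk7 : k = -1 ∨ k = 0 ∨ k = 1 := by omega
    rcases hk7 with rfl | rfl | rfl
    · right; right; left
      push_cast at hk1 hk2
      constructor <;> linarith
    · left
      push_cast at hk1 hk2
      constructor <;> linarith
    · right; left
      push_cast at hk1 hk2
      constructor <;> linarith
  · obtain ⟨k, hk⟩ := DirB_exists_int hv
    rw [abs_le] at hk
    obtain ⟨hk1, hk2⟩ := hk
    have hk3 : (k : ℝ) < 3 := by
      by_contra hcon
      push Not at hcon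
      nlinarith
    have hk4 : (-1 : ℝ) < k := by
      by_contra hcon
      push Not at hcon
      nlinarith
    have hk5 : k < 3 := by exact_mod_cast hk3
    have hk6 : -1 < k := by exact_mod_cast hk4
    have hk7 : k = 0 ∨ k = 1 ∨ k = 2 := by omega
    rcases hk7 with rfl | rfl | rfl
    · right; right; right; right; left
      push_cast at hk1 hk2
      constructor <;> linarith
    · right; right; right; left
      push_cast at hk1 hk2
      constructor <;> linarith
    · right; right; right; right; right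
      push_cast at hk1 hk2
      constructor <;> linarith

theorem dst_measurableSet (u θ : ℝ) : MeasurableSet {v | dst u v ≤ θ} := by
  apply measurableSet_le _ measurable_const
  unfold dst
  fun_prop

theorem circ_dst_le {u : ℝ} (hu : u ∈ Set.Ico 0 (2 * Real.pi)) {θ : ℝ} (hθ : 0 ≤ θ) :
    circ.real {v | dst u v ≤ θ} ≤ 4 * θ := by
  have hpi := Real.pi_pos
  by_cases hθ1 : θ < 1 / 4
  swap
  · push Not at hθ1
    have h := measureReal_le_one (μ := circ) (s := {v | dst u v ≤ θ})
    linarith
  have hsub := DirB_subset hu hθ1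
  obtain ⟨hu0, hu1⟩ := hu
  have hnn : 0 ≤ Real.pi * θ := by positivity
  have hvol : volume ({v | dst u v ≤ θ} ∩ Set.Ico 0 (2 * Real.pi)) ≤
      ENNReal.ofReal (8 * Real.pi * θ) := by
    refine (measure_mono hsub).trans ?_
    have e : ENNReal.ofReal (8 * Real.pi * θ) =
        ENNReal.ofReal (2 * (Real.pi * θ)) + (ENNReal.ofReal (Real.pi * θ) +
        (ENNReal.ofReal (Real.pi * θ) + (ENNReal.ofReal (2 * (Real.pi * θ)) +
        (ENNReal.ofReal (Real.pi * θ) + ENNReal.ofReal (Real.pi * θ))))) := by
      rw [← ENNReal.ofReal_add, ← ENNReal.ofReal_add, ← ENNReal.ofReal_add, ← ENNReal.ofReal_add,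
        ← ENNReal.ofReal_add]
      · congr 1; ring
      all_goals positivity
    rw [e]
    refine (measure_union_le _ _).trans (add_le_add (DirB_vol (by linarith)) ?_)
    refine (measure_union_le _ _).trans (add_le_add (DirB_vol (by linarith)) ?_)
    refine (measure_union_le _ _).trans (add_le_add (DirB_vol (by linarith)) ?_)
    refine (measure_union_le _ _).trans (add_le_add (DirB_vol (by linarith)) ?_)
    exact (measure_union_le _ _).trans (add_le_add (DirB_vol (by linarith))
      (DirB_vol (by linarith)))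
  have hc : circ {v | dst u v ≤ θ} ≤ ENNReal.ofReal (4 * θ) := by
    simp only [circ, Measure.smul_apply, smul_eq_mul,
      Measure.restrict_apply (dst_measurableSet u θ)]
    refine (mul_le_mul_right hvol _).trans ?_
    rw [← ENNReal.ofReal_inv_of_pos (by positivity), ← ENNReal.ofReal_mul (by positivity)]
    apply ENNReal.ofReal_le_ofReal
    apply le_of_eq
    field_simp
    ring
  rw [Measure.real]
  exact ENNReal.toReal_le_of_le_ofReal (by positivity) hc

end Pool.Agent.MixEnt
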