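import Mathlib
import Pool.Agent.Lib.MP_b56574_an.DirB
import Pool.Agent.Lib.MP_b56574_an.Idx

/-! # Level indicators on the torus -/

open MeasureTheory

noncomputable section

namespace Pool.Agent.MixEnt

theorem iLev_circ_ae : ∀ᵐ x ∂circ, x ∈ Set.Ico 0 (2 * Real.pi) := by
  unfold circ
  exact Measure.ae_smul_measure (ae_restrict_mem measurableSet_Ico) _

theorem torus_ae (d : ℕ) : ∀ᵐ x ∂(torus d), ∀ i, x i ∈ Set.Ico 0 (2 * Real.pi) := by
  unfold torus
  rw [Filter.eventually_all]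
  intro i
  exact (Measure.tendsto_eval_ae_ae (μ := fun _ : Fin d => circ) (i := i)).eventually iLev_circ_ae

def lev {e n : ℕ} (k : Fin (e + 1) → Fin (n + 1)) (x y : Fin (e + 1) → ℝ) : ℝ :=
  ∏ i, Set.indicator {v | dst (x i) v ≤ (1 / 2) ^ (k i : ℕ)} (fun _ => (1 : ℝ)) (y i)

theorem lev_nonneg {e n : ℕ} (k : Fin (e + 1) → Fin (n + 1)) (x y : Fin (e + 1) → ℝ) :
    0 ≤ lev k x y := by
  unfold lev
  exact Finset.prod_nonneg fun i _ => Set.indicator_nonneg (fun _ _ => zero_le_one) _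

theorem iLev_one_integrable (u θ : ℝ) :
    Integrable (Set.indicator {v | dst u v ≤ θ} (fun _ => (1 : ℝ))) circ :=
  (integrable_const 1).indicator (dst_measurableSet u θ)

theorem lev_integrable {e n : ℕ} (k : Fin (e + 1) → Fin (n + 1)) (x : Fin (e + 1) → ℝ) :
    Integrable (lev k x) (torus (e + 1)) := by
  unfold torus lev
  exact Integrable.fintype_prod (μ := fun _ : Fin (e + 1) => circ)
    (f := fun i => Set.indicator {v | dst (x i) v ≤ (1 / 2) ^ (k i : ℕ)} (fun _ => (1 : ℝ)))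
    fun i => iLev_one_integrable (x i) _

theorem integral_lev_le {e n : ℕ} (k : Fin (e + 1) → Fin (n + 1)) (x : Fin (e + 1) → ℝ)
    (hx : ∀ i, x i ∈ Set.Ico 0 (2 * Real.pi)) :
    ∫ y, lev k x y ∂(torus (e + 1)) ≤ ∏ i, (4 * (1 / 2 : ℝ) ^ (k i : ℕ)) := by
  unfold torus lev
  rw [integral_fintype_prod_eq_prod (μ := fun _ : Fin (e + 1) => circ)
    (f := fun i => Set.indicator {v | dst (x i) v ≤ (1 / 2) ^ (k i : ℕ)} (fun _ => (1 : ℝ)))]
  refine Finset.prod_le_prod (fun i _ => ?_) (fun i _ => ?_)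
  · exact integral_nonneg fun v => Set.indicator_nonneg (fun _ _ => zero_le_one) _
  · rw [integral_indicator (dst_measurableSet _ _)]
    rw [setIntegral_const, smul_eq_mul, mul_one]
    exact circ_dst_le (hx i) (by positivity)

end Pool.Agent.MixEnt
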