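import Mathlib
import Pool.Agent.Lib.MP_b56574_an.Idx
import Pool.Agent.Lib.MP_b56574_an.DirA

/-! # The kernel of the trigonometric system and its levels -/

open MeasureTheory

noncomputable section

namespace Pool.Agent.MixEnt

/-- `∑_u 2^{∑_i min (s_i, k_i + 1)}`. -/
def Wsum (e L : ℕ) (k : Fin (e + 1) → ℕ) : ℝ :=
  ∑ u : Fin e → Fin L, (2 : ℝ) ^ (∑ i, min (shp u i) (k i + 1))

theorem kerX_eq {e L : ℕ} (c : ℝ) (x y : Fin (e + 1) → ℝ) :
    kerX c (gfun : Idx e L → (Fin (e + 1) → ℝ) → ℝ) x y =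
      c ^ 2 * ∑ u : Fin e → Fin L, ∏ i, blk (shp u i) (x i) (y i) := by
  unfold kerX
  congr 1
  have h := sum_idx (e := e) (L := L)
    (fun i k => Real.cos ((k : ℝ) * x i) * Real.cos ((k : ℝ) * y i))
  unfold blk
  rw [← h]
  refine Finset.sum_congr rfl fun j _ => ?_
  unfold gfun
  rw [← Finset.prod_mul_distrib]

theorem kerX_level {e L : ℕ} (c : ℝ) (x y : Fin (e + 1) → ℝ) :
    ∃ k : Fin (e + 1) → Fin (e * L + 1), (∀ i, dst (x i) (y i) ≤ (1 / 2) ^ (k i : ℕ)) ∧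
      |kerX c (gfun : Idx e L → (Fin (e + 1) → ℝ) → ℝ) x y| ≤
        c ^ 2 * Wsum e L (fun i => (k i : ℕ)) := by
  choose k hk1 hk2 using fun i => exists_level (e * L) (x i) (y i)
  refine ⟨k, hk1, ?_⟩
  rw [kerX_eq, abs_mul, abs_of_nonneg (sq_nonneg c)]
  refine mul_le_mul_of_nonneg_left ?_ (sq_nonneg c)
  refine (Finset.abs_sum_le_sum_abs _ _).trans ?_
  unfold Wsum
  refine Finset.sum_le_sum fun u _ => ?_
  rw [Finset.abs_prod, ← Finset.prod_pow_eq_pow_sum]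
  exact Finset.prod_le_prod (fun i _ => abs_nonneg _) fun i _ => hk2 i _ (shp_le u i)

end Pool.Agent.MixEnt
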