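import Mathlib
import Pool.Agent.Lib.MP_b56574_an.Ker

/-! # Geometric sums -/

open MeasureTheory

noncomputable section

namespace Pool.Agent.MixEnt


theorem one_sub_two_rpow_neg {θ : ℝ} (h0 : 0 ≤ θ) (h1 : θ ≤ 1) :
    θ / 2 ≤ 1 - (2 : ℝ) ^ (-θ) := by
  have hc : ConvexOn ℝ Set.univ (fun x : ℝ => (2 : ℝ) ^ x) :=
    convexOn_rpow_left (by norm_num)
  have h := hc.2 (Set.mem_univ (0 : ℝ)) (Set.mem_univ (-1 : ℝ)) (sub_nonneg.mpr h1) h0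
    (by ring)
  simp only [smul_eq_mul, mul_zero, zero_add, mul_neg, mul_one, Real.rpow_zero] at h
  rw [Real.rpow_neg_one] at h
  linarith

theorem WBA_part {ρ : ℝ} (h0 : 0 ≤ ρ) (h1 : ρ < 1) (S : Finset ℕ) (f : ℕ → ℕ)
    (hf : Set.InjOn f S) : ∑ m ∈ S, ρ ^ f m ≤ (1 - ρ)⁻¹ := by
  rw [← tsum_geometric_of_lt_one h0 h1, ← Finset.sum_image (f := fun n => ρ ^ n) hf]
  exact (summable_geometric_of_lt_one h0 h1).sum_le_tsum _ (fun i _ => pow_nonneg h0 i)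

theorem geom_two_sided {θ : ℝ} (h0 : 0 < θ) (h1 : θ ≤ 1 / 2) (N : ℕ) (b : ℤ) :
    ∑ m ∈ Finset.range N, (2 : ℝ) ^ (-θ * |((m : ℤ) - b : ℤ)|) ≤ 4 / θ := by
  set ρ : ℝ := (2 : ℝ) ^ (-θ) with hρ
  have hρ0 : 0 < ρ := by positivity
  have hθ := one_sub_two_rpow_neg h0.le (by linarith : θ ≤ 1)
  rw [← hρ] at hθ
  have hρ1 : ρ < 1 := by linarith
  have hterm : ∀ m : ℕ, (2 : ℝ) ^ (-θ * |((m : ℤ) - b : ℤ)|) = ρ ^ ((m : ℤ) - b).natAbs := by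
    intro m
    rw [hρ, ← Real.rpow_natCast, ← Real.rpow_mul (by norm_num)]
    congr 2
    rw [Nat.cast_natAbs]
  rw [Finset.sum_congr rfl (fun m _ => hterm m),
    ← Finset.sum_filter_add_sum_filter_not (Finset.range N) (fun m : ℕ => b ≤ (m : ℤ))]
  have hA : ∑ m ∈ (Finset.range N).filter (fun m : ℕ => b ≤ (m : ℤ)),
      ρ ^ ((m : ℤ) - b).natAbs ≤ (1 - ρ)⁻¹ := by
    apply WBA_part hρ0.le hρ1
    intro m hm m' hm' h
    simp only [Finset.coe_filter, Set.mem_ofPred_eq] at hm hm'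
    simp only at h
    omega
  have hB : ∑ m ∈ (Finset.range N).filter (fun m : ℕ => ¬ b ≤ (m : ℤ)),
      ρ ^ ((m : ℤ) - b).natAbs ≤ (1 - ρ)⁻¹ := by
    apply WBA_part hρ0.le hρ1
    intro m hm m' hm' h
    simp only [Finset.coe_filter, Set.mem_ofPred_eq] at hm hm'
    simp only at h
    omega
  have hC : (1 - ρ)⁻¹ ≤ 2 / θ := by
    rw [inv_le_comm₀ (by linarith) (by positivity), inv_div]
    exact hθ
  calc _ ≤ 2 / θ + 2 / θ := add_le_add (hA.trans hC) (hB.trans hC)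
    _ = 4 / θ := by ring

def jj (e L : ℕ) (k : Fin (e + 1) → ℕ) : ℝ := (∑ i, (k i : ℝ)) + (e + 1) - e * L

end Pool.Agent.MixEnt
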