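import Mathlib
import Pool.Agent.Lib.MP_b56574_an.WBA

/-! # The sum over all levels -/

open MeasureTheory

noncomputable section

namespace Pool.Agent.MixEnt

private theorem isum_term (e L : ℕ) (k : Fin (e + 1) → Fin (e * L + 1)) :
    (2 : ℝ) ^ (jj e L (fun i => (k i : ℕ)) - |jj e L (fun i => (k i : ℕ))| / 2) *
        ∏ i, (4 * (1 / 2 : ℝ) ^ (k i : ℕ)) =
      8 ^ (e + 1) * (1 / 2) ^ (e * L) *
        (2 : ℝ) ^ (-(1 / 2 : ℝ) * |jj e L (fun i => (k i : ℕ))|) := by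
  have h2 : (0 : ℝ) < 2 := two_pos
  have hS : jj e L (fun i => (k i : ℕ)) =
      ((∑ i, (k i : ℕ) : ℕ) : ℝ) + ((e + 1 : ℕ) : ℝ) - ((e * L : ℕ) : ℝ) := by
    unfold jj
    push_cast
    ring
  have h1 : (2 : ℝ) ^ (jj e L (fun i => (k i : ℕ))) =
      2 ^ (∑ i, (k i : ℕ)) * 2 ^ (e + 1) / 2 ^ (e * L) := by
    rw [hS, Real.rpow_sub h2, Real.rpow_add h2, Real.rpow_natCast, Real.rpow_natCast,
      Real.rpow_natCast]
  have h3 : ∏ i, (4 * (1 / 2 : ℝ) ^ (k i : ℕ)) = 4 ^ (e + 1) * (1 / 2) ^ (∑ i, (k i : ℕ)) := by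
    rw [Finset.prod_mul_distrib, Finset.prod_const, Finset.card_univ, Fintype.card_fin,
      Finset.prod_pow_eq_pow_sum]
  have h4 : jj e L (fun i => (k i : ℕ)) - |jj e L (fun i => (k i : ℕ))| / 2 =
      jj e L (fun i => (k i : ℕ)) + -(1 / 2 : ℝ) * |jj e L (fun i => (k i : ℕ))| := by ring
  rw [h4, Real.rpow_add h2, h1, h3]
  have h5 : (2 : ℝ) ^ (∑ i, (k i : ℕ)) * (1 / 2) ^ (∑ i, (k i : ℕ)) = 1 := by
    rw [← mul_pow]; norm_num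
  have h6 : (8 : ℝ) ^ (e + 1) = 4 ^ (e + 1) * 2 ^ (e + 1) := by
    rw [← mul_pow]; norm_num
  have h7 : (1 / 2 : ℝ) ^ (e * L) = 1 / 2 ^ (e * L) := by
    rw [one_div_pow]
  rw [h6, h7]
  calc (2 : ℝ) ^ (∑ i, (k i : ℕ)) * 2 ^ (e + 1) / 2 ^ (e * L) *
        2 ^ (-(1 / 2 : ℝ) * |jj e L fun i => (k i : ℕ)|) *
        (4 ^ (e + 1) * (1 / 2) ^ ∑ i, (k i : ℕ)) =
      ((2 : ℝ) ^ (∑ i, (k i : ℕ)) * (1 / 2) ^ (∑ i, (k i : ℕ))) *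
        (4 ^ (e + 1) * 2 ^ (e + 1) * (1 / 2 ^ (e * L)) *
        2 ^ (-(1 / 2 : ℝ) * |jj e L fun i => (k i : ℕ)|)) := by ring
    _ = _ := by rw [h5, one_mul]

private theorem isum_inner (e L N : ℕ) (y : Fin e → Fin N) :
    ∑ x : Fin N, (2 : ℝ) ^ (-(1 / 2 : ℝ) *
      |jj e L (fun i => ((Fin.cons (α := fun _ => Fin N) x y : Fin (e + 1) → Fin N) i : ℕ))|) ≤ 8 := by
  have hj : ∀ x : Fin N,
      jj e L (fun i => ((Fin.cons (α := fun _ => Fin N) x y : Fin (e + 1) → Fin N) i : ℕ)) =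
      ((((x : ℕ) : ℤ) - ((e * L : ℤ) - (e + 1) - ∑ i, ((y i : ℕ) : ℤ)) : ℤ) : ℝ) := by
    intro x
    unfold jj
    rw [Fin.sum_univ_succ]
    simp only [Fin.cons_zero, Fin.cons_succ]
    push_cast
    ring
  have h1 : ∀ x : Fin N, (2 : ℝ) ^ (-(1 / 2 : ℝ) *
      |jj e L (fun i => ((Fin.cons (α := fun _ => Fin N) x y : Fin (e + 1) → Fin N) i : ℕ))|) =
      (fun m : ℕ => (2 : ℝ) ^ (-(1 / 2 : ℝ) *
        ((|(m : ℤ) - ((e * L : ℤ) - (e + 1) - ∑ i, ((y i : ℕ) : ℤ))| : ℤ) : ℝ))) (x : ℕ) := by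
    intro x
    rw [hj x, ← Int.cast_abs]
  rw [Finset.sum_congr rfl fun x _ => h1 x]
  rw [Fin.sum_univ_eq_sum_range (fun m : ℕ => (2 : ℝ) ^ (-(1 / 2 : ℝ) *
        ((|(m : ℤ) - ((e * L : ℤ) - (e + 1) - ∑ i, ((y i : ℕ) : ℤ))| : ℤ) : ℝ))) N]
  refine (geom_two_sided (θ := 1 / 2) (by norm_num) le_rfl N _).trans ?_
  norm_num

theorem sum_levels_le (e : ℕ) : ∃ C : ℝ, 0 < C ∧ ∀ L : ℕ,
    ∑ k : Fin (e + 1) → Fin (e * L + 1),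
      (2 : ℝ) ^ (jj e L (fun i => (k i : ℕ)) - |jj e L (fun i => (k i : ℕ))| / 2) *
        ∏ i, (4 * (1 / 2 : ℝ) ^ (k i : ℕ)) ≤
      C * (1 / 2) ^ (e * L) * ((e * L : ℕ) + 1 : ℝ) ^ e := by
  refine ⟨8 ^ (e + 2), by positivity, fun L => ?_⟩
  rw [Finset.sum_congr rfl fun k _ => isum_term e L k, ← Finset.mul_sum]
  have hsum : ∑ k : Fin (e + 1) → Fin (e * L + 1),
      (2 : ℝ) ^ (-(1 / 2 : ℝ) * |jj e L (fun i => (k i : ℕ))|) ≤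
      8 * ((e * L : ℕ) + 1 : ℝ) ^ e := by
    rw [← (Fin.consEquiv (fun _ : Fin (e + 1) => Fin (e * L + 1))).sum_comp,
      Fintype.sum_prod_type_right]
    calc ∑ y : Fin e → Fin (e * L + 1), ∑ x : Fin (e * L + 1),
          (2 : ℝ) ^ (-(1 / 2 : ℝ) * |jj e L (fun i =>
            ((Fin.consEquiv (fun _ : Fin (e + 1) => Fin (e * L + 1))) (x, y) i : ℕ))|) ≤
        ∑ _y : Fin e → Fin (e * L + 1), (8 : ℝ) :=
          Finset.sum_le_sum fun y _ => isum_inner e L (e * L + 1) y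
      _ = 8 * ((e * L : ℕ) + 1 : ℝ) ^ e := by
        rw [Finset.sum_const, Finset.card_univ, Fintype.card_fun, Fintype.card_fin,
          Fintype.card_fin, nsmul_eq_mul]
        push_cast
        ring
  calc (8 : ℝ) ^ (e + 1) * (1 / 2) ^ (e * L) * ∑ k : Fin (e + 1) → Fin (e * L + 1),
        (2 : ℝ) ^ (-(1 / 2 : ℝ) * |jj e L (fun i => (k i : ℕ))|) ≤
      8 ^ (e + 1) * (1 / 2) ^ (e * L) * (8 * ((e * L : ℕ) + 1 : ℝ) ^ e) := by gcongr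
    _ = 8 ^ (e + 2) * (1 / 2) ^ (e * L) * ((e * L : ℕ) + 1 : ℝ) ^ e := by ring

end Pool.Agent.MixEnt
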