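import Mathlib
import Pool.Agent.Lib.MP_b56574_an.WBA

/-! # Elementary inequalities -/

open MeasureTheory

noncomputable section

namespace Pool.Agent.MixEnt


theorem poly_exp_le (m : ℕ) : ∃ C : ℝ, 0 < C ∧ ∀ j : ℝ, 0 ≤ j →
    (1 + j) ^ m * Real.exp ((1 + j) / 8) ≤ C * (2 : ℝ) ^ (j / 2) := by
  refine ⟨(m.factorial : ℝ) * 5 ^ m * Real.exp 1, by positivity, fun j hj => ?_⟩
  have h1 : ((1 + j) / 5) ^ m / (m.factorial : ℝ) ≤ Real.exp ((1 + j) / 5) :=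
    Real.pow_div_factorial_le_exp _ (by positivity) m
  have hf : (0 : ℝ) < m.factorial := by positivity
  have h2 : (1 + j) ^ m ≤ (m.factorial : ℝ) * 5 ^ m * Real.exp ((1 + j) / 5) := by
    rw [div_pow, div_div, div_le_iff₀ (by positivity)] at h1
    calc (1 + j) ^ m ≤ Real.exp ((1 + j) / 5) * (5 ^ m * (m.factorial : ℝ)) := h1
      _ = _ := by ring
  have h3 : Real.exp ((1 + j) / 5) * Real.exp ((1 + j) / 8) ≤ Real.exp 1 * (2 : ℝ) ^ (j / 2) := by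
    rw [← Real.exp_add, Real.rpow_def_of_pos (by norm_num : (0 : ℝ) < 2), ← Real.exp_add]
    apply Real.exp_le_exp.2
    have h4 : (0.6931471803 : ℝ) < Real.log 2 := Real.log_two_gt_d9
    nlinarith
  calc (1 + j) ^ m * Real.exp ((1 + j) / 8)
      ≤ ((m.factorial : ℝ) * 5 ^ m * Real.exp ((1 + j) / 5)) * Real.exp ((1 + j) / 8) := by
        gcongr
    _ = ((m.factorial : ℝ) * 5 ^ m) * (Real.exp ((1 + j) / 5) * Real.exp ((1 + j) / 8)) := by ring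
    _ ≤ ((m.factorial : ℝ) * 5 ^ m) * (Real.exp 1 * (2 : ℝ) ^ (j / 2)) := by gcongr
    _ = _ := by ring

theorem jj_le {e L : ℕ} (hL : 1 ≤ L) (k : Fin (e + 1) → Fin (e * L + 1)) :
    1 + jj e L (fun i => (k i : ℕ)) ≤ ((e : ℝ) + 2) ^ 2 * L := by
  unfold jj
  have h1 : ∀ i, ((k i : ℕ) : ℝ) ≤ e * L := by
    intro i
    have := (k i).2
    have h2 : (k i : ℕ) ≤ e * L := by omega
    exact_mod_cast h2
  have h2 : ∑ i, ((k i : ℕ) : ℝ) ≤ (e + 1) * (e * L) := by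
    calc ∑ i, ((k i : ℕ) : ℝ) ≤ ∑ _i : Fin (e + 1), ((e : ℝ) * L) :=
          Finset.sum_le_sum fun i _ => h1 i
      _ = (e + 1) * (e * L) := by simp
  have hL' : (1 : ℝ) ≤ L := by exact_mod_cast hL
  have he : (0 : ℝ) ≤ e := by positivity
  nlinarith [mul_nonneg he he, mul_nonneg he (by linarith : (0 : ℝ) ≤ (L : ℝ) - 1),
    mul_nonneg (mul_nonneg he he) (by linarith : (0 : ℝ) ≤ (L : ℝ) - 1)]

end Pool.Agent.MixEnt
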