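import Mathlib
import Pool.Agent.Lib.MP_b56574_an.WBA

/-! # The pointwise combinatorial bound -/

open MeasureTheory

noncomputable section

namespace Pool.Agent.MixEnt


theorem two_pow_min_le {e L : ℕ} (u : Fin e → Fin L) (k : Fin (e + 1) → ℕ) {θ : ℝ}
    (h0 : 0 < θ) (h1 : θ ≤ 1 / 2) :
    (2 : ℝ) ^ (∑ i, min (shp u i) (k i + 1)) ≤ 2 ^ (e * L) * (2 : ℝ) ^ (θ * jj e L k) *
      ∏ i : Fin e, (2 : ℝ) ^ (-θ * |(((u i : ℕ) : ℤ) - ((k i.succ : ℤ) + 1) : ℤ)|) := by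
  have h2 : (0 : ℝ) < 2 := by norm_num
  set w : Fin (e + 1) → ℝ := fun i => (shp u i : ℝ) - ((k i : ℝ) + 1) with hw
  have hsum : ∑ i, (shp u i : ℝ) = (e * L : ℕ) := by
    rw [← sum_shp u]; push_cast; rfl
  have hmin : ∀ i, ((min (shp u i) (k i + 1) : ℕ) : ℝ) = (shp u i : ℝ) - max (w i) 0 := by
    intro i
    have : w i = (shp u i : ℝ) - ((k i : ℝ) + 1) := rfl
    rcases le_total (shp u i) (k i + 1) with h | h
    · have h' : (shp u i : ℝ) ≤ (k i : ℝ) + 1 := by exact_mod_cast h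
      rw [min_eq_left h, max_eq_right (by rw [this]; linarith)]
      ring
    · have h' : (k i : ℝ) + 1 ≤ (shp u i : ℝ) := by exact_mod_cast h
      rw [min_eq_right h, max_eq_left (by rw [this]; linarith), this]
      push_cast
      ring
  have habs : ∀ i, |w i| = 2 * max (w i) 0 - w i := by
    intro i
    rcases le_total (w i) 0 with h | h
    · rw [abs_of_nonpos h, max_eq_right h]; ring
    · rw [abs_of_nonneg h, max_eq_left h]; ring
  have hjj : jj e L k = -∑ i, w i := by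
    simp only [hw, jj, Finset.sum_sub_distrib, Finset.sum_add_distrib, hsum]
    simp
  have hprod : ∏ i : Fin e, (2 : ℝ) ^ (-θ * |(((u i : ℕ) : ℤ) - ((k i.succ : ℤ) + 1) : ℤ)|) =
      (2 : ℝ) ^ (-θ * ∑ i : Fin e, |w i.succ|) := by
    rw [Finset.mul_sum, Real.rpow_sum_of_pos h2]
    refine Finset.prod_congr rfl fun i _ => ?_
    congr 2
    simp [hw, shp]
  rw [hprod, ← Real.rpow_natCast, ← Real.rpow_natCast, ← Real.rpow_add h2, ← Real.rpow_add h2]
  refine Real.rpow_le_rpow_of_exponent_le (by norm_num) ?_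
  have e1 : ((∑ i, min (shp u i) (k i + 1) : ℕ) : ℝ) = (e * L : ℕ) - ∑ i, max (w i) 0 := by
    rw [Nat.cast_sum, ← hsum, ← Finset.sum_sub_distrib]
    exact Finset.sum_congr rfl fun i _ => hmin i
  have e2 : ∑ i, |w i| = 2 * ∑ i, max (w i) 0 - ∑ i, w i := by
    rw [Finset.mul_sum, ← Finset.sum_sub_distrib]
    exact Finset.sum_congr rfl fun i _ => habs i
  have e3 : ∑ i, |w i| = |w 0| + ∑ i : Fin e, |w i.succ| := Fin.sum_univ_succ _
  have e4 : 0 ≤ |w 0| := abs_nonneg _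
  have e5 : 0 ≤ ∑ i, max (w i) 0 := Finset.sum_nonneg fun i _ => le_max_right _ _
  rw [e1, hjj]
  have e6 : θ * ∑ i : Fin e, |w i.succ| ≤ θ * (2 * ∑ i, max (w i) 0 - ∑ i, w i) := by
    refine mul_le_mul_of_nonneg_left ?_ h0.le
    linarith
  have e7 : θ * (2 * ∑ i, max (w i) 0) ≤ ∑ i, max (w i) 0 := by nlinarith
  nlinarith

end Pool.Agent.MixEnt
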