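import Mathlib
import Pool.Agent.Lib.MP_b56574_an.WBB

/-! # The combinatorial bound for `Wsum` -/

open MeasureTheory

noncomputable section

namespace Pool.Agent.MixEnt


theorem Wsum_theta (e L : ℕ) (k : Fin (e + 1) → ℕ) {θ : ℝ} (h0 : 0 < θ) (h1 : θ ≤ 1 / 2) :
    Wsum e L k ≤ 2 ^ (e * L) * (2 : ℝ) ^ (θ * jj e L k) * (4 / θ) ^ e := by
  unfold Wsum
  refine (Finset.sum_le_sum fun u _ => two_pow_min_le u k h0 h1).trans ?_
  rw [← Finset.mul_sum]
  refine mul_le_mul_of_nonneg_left ?_ (by positivity)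
  have h2 := Finset.prod_univ_sum (fun _ : Fin e => (Finset.univ : Finset (Fin L)))
    (fun (i : Fin e) (m : Fin L) =>
      (2 : ℝ) ^ (-θ * |(((m : ℕ) : ℤ) - ((k i.succ : ℤ) + 1) : ℤ)|))
  rw [Fintype.piFinset_univ] at h2
  rw [← h2]
  calc ∏ i : Fin e, ∑ m : Fin L,
        (2 : ℝ) ^ (-θ * |(((m : ℕ) : ℤ) - ((k i.succ : ℤ) + 1) : ℤ)|)
      ≤ ∏ _i : Fin e, (4 / θ) := by
        refine Finset.prod_le_prod (fun i _ => Finset.sum_nonneg fun m _ => by positivity)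
          fun i _ => ?_
        rw [Fin.sum_univ_eq_sum_range
          (fun m : ℕ => (2 : ℝ) ^ (-θ * |((m : ℤ) - ((k i.succ : ℤ) + 1) : ℤ)|)) L]
        exact geom_two_sided h0 h1 L _
    _ = (4 / θ) ^ e := by rw [Finset.prod_const, Finset.card_univ, Fintype.card_fin]

theorem Wsum_neg (e L : ℕ) (k : Fin (e + 1) → ℕ) (hj : jj e L k ≤ 0) :
    Wsum e L k ≤ 2 ^ (e * L) * (8 ^ e * (2 : ℝ) ^ (jj e L k / 2)) := by
  refine (Wsum_theta e L k (θ := 1 / 2) (by norm_num) le_rfl).trans (le_of_eq ?_)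
  have h1 : (4 / (1 / 2) : ℝ) = 8 := by norm_num
  have h2 : (1 / 2 : ℝ) * jj e L k = jj e L k / 2 := by ring
  rw [h1, h2]
  ring

theorem Wsum_pos (e L : ℕ) (k : Fin (e + 1) → ℕ) (hj : 0 ≤ jj e L k) :
    Wsum e L k ≤ 2 ^ (e * L) * (2 * 8 ^ e * (1 + jj e L k) ^ e) := by
  have hp : 0 < 1 + jj e L k := by linarith
  have h0 : (0 : ℝ) < 1 / (2 * (1 + jj e L k)) := by positivity
  have h1 : 1 / (2 * (1 + jj e L k)) ≤ (1 / 2 : ℝ) := by
    rw [div_le_div_iff₀ (by positivity) (by norm_num)]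
    linarith
  refine (Wsum_theta e L k h0 h1).trans ?_
  have h2 : 4 / (1 / (2 * (1 + jj e L k))) = 8 * (1 + jj e L k) := by
    field_simp
    norm_num
  have h3 : 1 / (2 * (1 + jj e L k)) * jj e L k ≤ 1 := by
    rw [div_mul_eq_mul_div, div_le_iff₀ (by positivity)]
    linarith
  have h4 : (2 : ℝ) ^ (1 / (2 * (1 + jj e L k)) * jj e L k) ≤ 2 := by
    calc (2 : ℝ) ^ (1 / (2 * (1 + jj e L k)) * jj e L k) ≤ (2 : ℝ) ^ (1 : ℝ) :=
          Real.rpow_le_rpow_of_exponent_le (by norm_num) h3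
      _ = 2 := Real.rpow_one 2
  rw [h2, mul_pow, mul_assoc, mul_assoc]
  refine mul_le_mul_of_nonneg_left ?_ (by positivity)
  exact mul_le_mul_of_nonneg_right h4 (by positivity)

end Pool.Agent.MixEnt
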