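import Mathlib
import Pool.Agent.Lib.MP_b56574_an.PhiA
import Pool.Agent.Lib.MP_b56574_an.WB

/-! # The pointwise bound of `|X|³ e^{|X|}` on a level -/

open MeasureTheory

noncomputable section

namespace Pool.Agent.MixEnt

/-- The pointwise bound. Here `A = c² 2^n = a² e L / L^e`. -/
theorem phi_le (e : ℕ) (he : 1 ≤ e) : ∃ a₀ C : ℝ, 0 < a₀ ∧ 0 < C ∧ ∀ a A : ℝ, 0 < a → a ≤ a₀ →
    ∀ L : ℕ, 1 ≤ L → A = a ^ 2 * (e * L) / (L : ℝ) ^ e →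
    ∀ (k : Fin (e + 1) → Fin (e * L + 1)) (X : ℝ),
      |X| ≤ A / 2 ^ (e * L) * Wsum e L (fun i => (k i : ℕ)) →
      |X| ^ 3 * Real.exp |X| ≤ C * A ^ 3 *
        (2 : ℝ) ^ (jj e L (fun i => (k i : ℕ)) - |jj e L (fun i => (k i : ℕ))| / 2) := by
  obtain ⟨Cm, hCm, hpoly⟩ := poly_exp_le (3 * e)
  have heR : (1 : ℝ) ≤ e := by exact_mod_cast he
  set K0 : ℝ := 2 * 8 ^ e * (e * ((e : ℝ) + 2) ^ (2 * e)) with hK0
  have h8 : (1 : ℝ) ≤ 8 ^ e := one_le_pow₀ (by norm_num)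
  have he2 : (1 : ℝ) ≤ ((e : ℝ) + 2) ^ (2 * e) := one_le_pow₀ (by linarith)
  have hee2 : (1 : ℝ) ≤ e * ((e : ℝ) + 2) ^ (2 * e) := by nlinarith
  have hK1 : (1 : ℝ) ≤ K0 := by
    have h := mul_le_mul h8 hee2 (by norm_num) (by positivity)
    rw [hK0]; nlinarith
  have hKpos : 0 < K0 := by linarith
  refine ⟨1 / (8 * K0), 3 * 8 ^ (3 * e) + 8 * 8 ^ (3 * e) * Cm, by positivity, by positivity, ?_⟩
  intro a A ha ha0 L hL hA k X hX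
  set j : ℝ := jj e L (fun i => (k i : ℕ)) with hj
  have hLR : (1 : ℝ) ≤ L := by exact_mod_cast hL
  have hL0 : (0 : ℝ) < L := by linarith
  have hA0 : 0 < A := by rw [hA]; positivity
  -- `a² K0 ≤ 1/8`
  have haK : a ^ 2 * K0 ≤ 1 / 8 := by
    have h1 : a ≤ 1 := by
      refine ha0.trans ?_
      rw [div_le_one (by positivity)]; linarith
    have h2 : a ^ 2 ≤ a := by nlinarith
    calc a ^ 2 * K0 ≤ a * K0 := by gcongr
      _ ≤ 1 / (8 * K0) * K0 := by gcongr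
      _ = 1 / 8 := by field_simp
  have hLe : (L : ℝ) / (L : ℝ) ^ e ≤ 1 := by
    rw [div_le_one (by positivity)]
    calc (L : ℝ) = (L : ℝ) ^ 1 := by simp
      _ ≤ (L : ℝ) ^ e := pow_le_pow_right₀ hLR he
  have hAe : A ≤ a ^ 2 * e := by
    have : A = a ^ 2 * e * ((L : ℝ) / (L : ℝ) ^ e) := by rw [hA]; ring
    rw [this]
    calc a ^ 2 * e * ((L : ℝ) / (L : ℝ) ^ e) ≤ a ^ 2 * e * 1 := by gcongr
      _ = _ := by ring
  have h2n : (0 : ℝ) < 2 ^ (e * L) := by positivity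
  rcases le_total j 0 with hj0 | hj0
  · -- the case `j ≤ 0`
    have hW := Wsum_neg e L (fun i => (k i : ℕ)) hj0
    rw [← hj] at hW
    have hX' : |X| ≤ A * (8 ^ e * (2 : ℝ) ^ (j / 2)) := by
      calc |X| ≤ A / 2 ^ (e * L) * Wsum e L (fun i => (k i : ℕ)) := hX
        _ ≤ A / 2 ^ (e * L) * (2 ^ (e * L) * (8 ^ e * (2 : ℝ) ^ (j / 2))) := by gcongr
        _ = _ := by field_simp
    have h2j : (2 : ℝ) ^ (j / 2) ≤ 1 :=
      Real.rpow_le_one_of_one_le_of_nonpos (by norm_num) (by linarith)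
    have h2j0 : (0 : ℝ) < (2 : ℝ) ^ (j / 2) := by positivity
    have hX1 : |X| ≤ 1 := by
      calc |X| ≤ A * (8 ^ e * (2 : ℝ) ^ (j / 2)) := hX'
        _ ≤ (a ^ 2 * e) * (8 ^ e * 1) := by gcongr
        _ ≤ a ^ 2 * K0 := by
          rw [hK0]
          have : (e : ℝ) * (8 ^ e * 1) ≤ 2 * 8 ^ e * (e * ((e : ℝ) + 2) ^ (2 * e)) := by
            calc (e : ℝ) * (8 ^ e * 1) = 1 * 8 ^ e * (e * 1) := by ring
              _ ≤ 2 * 8 ^ e * (e * ((e : ℝ) + 2) ^ (2 * e)) := by gcongr; norm_num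
          calc a ^ 2 * e * (8 ^ e * 1) = a ^ 2 * (e * (8 ^ e * 1)) := by ring
            _ ≤ _ := by gcongr
        _ ≤ 1 := by linarith
    have hexp : Real.exp |X| ≤ 3 := by
      calc Real.exp |X| ≤ Real.exp 1 := Real.exp_le_exp.2 hX1
        _ ≤ 3 := by linarith [Real.exp_one_lt_d9]
    have hpow : (2 : ℝ) ^ (j - |j| / 2) = ((2 : ℝ) ^ (j / 2)) ^ 3 := by
      rw [abs_of_nonpos hj0, ← Real.rpow_natCast, ← Real.rpow_mul (by norm_num)]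
      congr 1; push_cast; ring
    rw [hpow]
    calc |X| ^ 3 * Real.exp |X| ≤ (A * (8 ^ e * (2 : ℝ) ^ (j / 2))) ^ 3 * 3 := by gcongr
      _ = 3 * 8 ^ (3 * e) * A ^ 3 * ((2 : ℝ) ^ (j / 2)) ^ 3 := by
        rw [mul_comm 3 e, pow_mul]; ring
      _ ≤ (3 * 8 ^ (3 * e) + 8 * 8 ^ (3 * e) * Cm) * A ^ 3 * ((2 : ℝ) ^ (j / 2)) ^ 3 := by
        gcongr
        have : 0 < 8 * 8 ^ (3 * e) * Cm := by positivity
        linarith
  · -- the case `0 ≤ j`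
    have hW := Wsum_pos e L (fun i => (k i : ℕ)) hj0
    rw [← hj] at hW
    have hX' : |X| ≤ A * (2 * 8 ^ e * (1 + j) ^ e) := by
      calc |X| ≤ A / 2 ^ (e * L) * Wsum e L (fun i => (k i : ℕ)) := hX
        _ ≤ A / 2 ^ (e * L) * (2 ^ (e * L) * (2 * 8 ^ e * (1 + j) ^ e)) := by gcongr
        _ = _ := by field_simp
    have hjl : 1 + j ≤ ((e : ℝ) + 2) ^ 2 * L := jj_le hL k
    have hX1 : |X| ≤ (1 + j) / 8 := by
      obtain ⟨f, rfl⟩ : ∃ f, e = f + 1 := ⟨e - 1, by omega⟩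
      have h1 : (1 + j) ^ f ≤ (((f + 1 : ℕ) : ℝ) + 2) ^ (2 * f) * (L : ℝ) ^ f := by
        calc (1 + j) ^ f ≤ ((((f + 1 : ℕ) : ℝ) + 2) ^ 2 * L) ^ f := by gcongr
          _ = _ := by rw [mul_pow, ← pow_mul]
      have h2 : A * (1 + j) ^ (f + 1) ≤
          a ^ 2 * (((f + 1 : ℕ) : ℝ) * (((f + 1 : ℕ) : ℝ) + 2) ^ (2 * f)) * (1 + j) := by
        rw [hA, pow_succ (1 + j) f]
        calc a ^ 2 * (((f + 1 : ℕ) : ℝ) * L) / (L : ℝ) ^ (f + 1) * ((1 + j) ^ f * (1 + j))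
            ≤ a ^ 2 * (((f + 1 : ℕ) : ℝ) * L) / (L : ℝ) ^ (f + 1) *
              (((((f + 1 : ℕ) : ℝ) + 2) ^ (2 * f) * (L : ℝ) ^ f) * (1 + j)) := by gcongr
          _ = a ^ 2 * (((f + 1 : ℕ) : ℝ) * (((f + 1 : ℕ) : ℝ) + 2) ^ (2 * f)) * (1 + j) := by
            rw [pow_succ (L : ℝ) f]; field_simp
      calc |X| ≤ A * (2 * 8 ^ (f + 1) * (1 + j) ^ (f + 1)) := hX'
        _ = 2 * 8 ^ (f + 1) * (A * (1 + j) ^ (f + 1)) := by ring
        _ ≤ 2 * 8 ^ (f + 1) *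
            (a ^ 2 * (((f + 1 : ℕ) : ℝ) * (((f + 1 : ℕ) : ℝ) + 2) ^ (2 * f)) * (1 + j)) := by
          gcongr
        _ ≤ 2 * 8 ^ (f + 1) *
            (a ^ 2 * (((f + 1 : ℕ) : ℝ) * (((f + 1 : ℕ) : ℝ) + 2) ^ (2 * (f + 1))) * (1 + j)) := by
          gcongr
          · linarith
          · omega
        _ = a ^ 2 * K0 * (1 + j) := by rw [hK0]; ring
        _ ≤ 1 / 8 * (1 + j) := by gcongr
        _ = _ := by ring
    have hpow : (2 : ℝ) ^ (j - |j| / 2) = (2 : ℝ) ^ (j / 2) := by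
      rw [abs_of_nonneg hj0]; congr 1; ring
    rw [hpow]
    calc |X| ^ 3 * Real.exp |X|
        ≤ (A * (2 * 8 ^ e * (1 + j) ^ e)) ^ 3 * Real.exp ((1 + j) / 8) := by gcongr
      _ = 8 * 8 ^ (3 * e) * A ^ 3 * ((1 + j) ^ (3 * e) * Real.exp ((1 + j) / 8)) := by
        rw [mul_comm 3 e, pow_mul, pow_mul]; ring
      _ ≤ 8 * 8 ^ (3 * e) * A ^ 3 * (Cm * (2 : ℝ) ^ (j / 2)) :=
        mul_le_mul_of_nonneg_left (hpoly j hj0) (by positivity)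
      _ = (8 * 8 ^ (3 * e) * Cm) * A ^ 3 * (2 : ℝ) ^ (j / 2) := by ring
      _ ≤ (3 * 8 ^ (3 * e) + 8 * 8 ^ (3 * e) * Cm) * A ^ 3 * (2 : ℝ) ^ (j / 2) := by
        gcongr
        have : (0 : ℝ) < 3 * 8 ^ (3 * e) := by positivity
        linarith

end Pool.Agent.MixEnt
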