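import Mathlib
import Pool.Agent.Lib.MP_b56574_an.Phi
import Pool.Agent.Lib.MP_b56574_an.ILev
import Pool.Agent.Lib.MP_b56574_an.ISum

/-! # The bound of the integral `∬ |X|³ e^{|X|}` -/

open MeasureTheory

noncomputable section

namespace Pool.Agent.MixEnt


theorem I3_le (e : ℕ) (he : 1 ≤ e) : ∃ a₀ C : ℝ, 0 < a₀ ∧ 0 < C ∧ ∀ a c : ℝ, 0 < a → a ≤ a₀ →
    ∀ L : ℕ, 1 ≤ L → c ^ 2 = a ^ 2 * (e * L) / ((2 : ℝ) ^ (e * L) * (L : ℝ) ^ e) →
    ∫ x, ∫ y, |kerX c (gfun : Idx e L → (Fin (e + 1) → ℝ) → ℝ) x y| ^ 3 *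
        Real.exp |kerX c (gfun : Idx e L → (Fin (e + 1) → ℝ) → ℝ) x y|
          ∂(torus (e + 1)) ∂(torus (e + 1)) ≤
      C * (a ^ 2 * (e * L) / (L : ℝ) ^ e) ^ 3 * (1 / 2) ^ (e * L) * ((e * L : ℕ) + 1 : ℝ) ^ e := by
  obtain ⟨a₀, C1, ha₀, hC1, hphi⟩ := phi_le e he
  obtain ⟨C2, hC2, hsum⟩ := sum_levels_le e
  refine ⟨a₀, C1 * C2, ha₀, by positivity, ?_⟩
  intro a c ha haa L hL hcL
  set A : ℝ := a ^ 2 * (e * L) / (L : ℝ) ^ e with hA
  have hA0 : 0 ≤ A := by rw [hA]; positivity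
  have hcA : c ^ 2 = A / 2 ^ (e * L) := by
    rw [hcL, hA, div_div, mul_comm ((2 : ℝ) ^ (e * L))]
  set T : (Fin (e + 1) → Fin (e * L + 1)) → ℝ := fun k =>
    (2 : ℝ) ^ (jj e L (fun i => (k i : ℕ)) - |jj e L (fun i => (k i : ℕ))| / 2) with hT
  have hT0 : ∀ k, 0 ≤ T k := fun k => by
    simp only [hT]
    positivity
  -- pointwise bound
  have hpt : ∀ x y : Fin (e + 1) → ℝ,
      |kerX c (gfun : Idx e L → (Fin (e + 1) → ℝ) → ℝ) x y| ^ 3 *
        Real.exp |kerX c (gfun : Idx e L → (Fin (e + 1) → ℝ) → ℝ) x y| ≤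
      ∑ k : Fin (e + 1) → Fin (e * L + 1), C1 * A ^ 3 * T k * lev k x y := by
    intro x y
    obtain ⟨k, hk1, hk2⟩ := kerX_level (e := e) (L := L) c x y
    rw [hcA] at hk2
    have h1 := hphi a A ha haa L hL hA k _ hk2
    have h2 : lev k x y = 1 := by
      unfold lev
      apply Finset.prod_eq_one
      intro i _
      rw [Set.indicator_of_mem]
      exact hk1 i
    calc _ ≤ C1 * A ^ 3 * T k := h1
      _ = C1 * A ^ 3 * T k * lev k x y := by rw [h2, mul_one]
      _ ≤ _ := Finset.single_le_sum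
          (f := fun k : Fin (e + 1) → Fin (e * L + 1) => C1 * A ^ 3 * T k * lev k x y)
          (fun k' _ => mul_nonneg (mul_nonneg (by positivity) (hT0 k')) (lev_nonneg k' x y))
          (Finset.mem_univ k)
  set B : ℝ := C1 * C2 * A ^ 3 * (1 / 2) ^ (e * L) * ((e * L : ℕ) + 1 : ℝ) ^ e with hB
  have hin : ∀ x : Fin (e + 1) → ℝ, (∀ i, x i ∈ Set.Ico 0 (2 * Real.pi)) →
      ∫ y, |kerX c (gfun : Idx e L → (Fin (e + 1) → ℝ) → ℝ) x y| ^ 3 *
        Real.exp |kerX c (gfun : Idx e L → (Fin (e + 1) → ℝ) → ℝ) x y| ∂(torus (e + 1)) ≤ B := by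
    intro x hx
    have hint : ∀ k ∈ (Finset.univ : Finset (Fin (e + 1) → Fin (e * L + 1))),
        Integrable (fun y => C1 * A ^ 3 * T k * lev k x y) (torus (e + 1)) := fun k _ =>
      (lev_integrable k x).const_mul _
    calc _ ≤ ∫ y, ∑ k : Fin (e + 1) → Fin (e * L + 1), C1 * A ^ 3 * T k * lev k x y
            ∂(torus (e + 1)) := by
          apply integral_mono_of_nonneg
          · exact Filter.Eventually.of_forall (fun y => by positivity)
          · exact integrable_finsetSum _ hint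
          · exact Filter.Eventually.of_forall (fun y => hpt x y)
      _ = ∑ k : Fin (e + 1) → Fin (e * L + 1), C1 * A ^ 3 * T k *
            ∫ y, lev k x y ∂(torus (e + 1)) := by
          rw [integral_finsetSum _ hint]
          apply Finset.sum_congr rfl
          intro k _
          rw [integral_const_mul]
      _ ≤ ∑ k : Fin (e + 1) → Fin (e * L + 1), C1 * A ^ 3 * T k *
            ∏ i, (4 * (1 / 2 : ℝ) ^ (k i : ℕ)) := by
          apply Finset.sum_le_sum
          intro k _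
          apply mul_le_mul_of_nonneg_left (integral_lev_le k x hx)
          exact mul_nonneg (by positivity) (hT0 k)
      _ = C1 * A ^ 3 * ∑ k : Fin (e + 1) → Fin (e * L + 1), T k *
            ∏ i, (4 * (1 / 2 : ℝ) ^ (k i : ℕ)) := by
          rw [Finset.mul_sum]
          apply Finset.sum_congr rfl
          intro k _
          ring
      _ ≤ C1 * A ^ 3 * (C2 * (1 / 2) ^ (e * L) * ((e * L : ℕ) + 1 : ℝ) ^ e) :=
          mul_le_mul_of_nonneg_left (hsum L) (by positivity)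
      _ = B := by rw [hB]; ring
  calc _ ≤ ∫ _x : Fin (e + 1) → ℝ, B ∂(torus (e + 1)) := by
        apply integral_mono_of_nonneg
        · exact Filter.Eventually.of_forall (fun x => integral_nonneg (fun y => by positivity))
        · exact integrable_const _
        · filter_upwards [torus_ae (e + 1)] with x hx
          exact hin x hx
    _ = B := by simp
    _ = _ := by rw [hB]

end Pool.Agent.MixEnt
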