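import Mathlib
import Pool.Agent.Lib.MP_b56574_an.IThree

/-! # The choice of the parameter -/

open MeasureTheory

noncomputable section

namespace Pool.Agent.MixEnt

/-- For a suitable `a > 0` depending only on `e`, all hypotheses of `separation` hold for the
trigonometric system with `c² = a² n / D`, for all `L ≥ 1`. -/
theorem params (e : ℕ) (he : 1 ≤ e) : ∃ a : ℝ, 0 < a ∧ ∀ L : ℕ, 1 ≤ L → ∃ c : ℝ, 0 < c ∧
    c ^ 2 = a ^ 2 * (e * L) / Fintype.card (Idx e L) ∧ c ^ 2 ≤ 1 / 2 ∧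
    ∫ x, ∫ y, |kerX c (gfun : Idx e L → (Fin (e + 1) → ℝ) → ℝ) x y| ^ 3 *
        Real.exp |kerX c (gfun : Idx e L → (Fin (e + 1) → ℝ) → ℝ) x y|
          ∂(torus (e + 1)) ∂(torus (e + 1)) ≤
      c ^ 4 * ((1 / 2 : ℝ) ^ (e + 1)) ^ 2 * Fintype.card (Idx e L) / 1024 ∧
    c ^ 2 * √(Fintype.card (Idx e L)) ≤ (1 / 2 : ℝ) ^ (e + 1) / 2048 := by
  obtain ⟨a₀, C, ha₀, hC, hI⟩ := I3_le e he
  have heR : (1 : ℝ) ≤ e := by exact_mod_cast he
  set κ : ℝ := (1 / 2 : ℝ) ^ (e + 1) with hκ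
  have hκ0 : 0 < κ := by positivity
  set K : ℝ := 2 * e + 2048 * e / κ + 1024 * C * e * ((e : ℝ) + 1) ^ e / κ ^ 2 + 1 with hK
  have hK0 : 0 < K := by positivity
  have hK1 : 1 ≤ K := by
    have : 0 ≤ 2 * e + 2048 * e / κ + 1024 * C * e * ((e : ℝ) + 1) ^ e / κ ^ 2 := by positivity
    linarith
  have ha : 0 < min a₀ (1 / K) := lt_min ha₀ (by positivity)
  set a : ℝ := min a₀ (1 / K) with hadef
  have haK : a ^ 2 ≤ 1 / K := by
    have h1 : a ≤ 1 / K := min_le_right _ _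
    have h2 : (1 : ℝ) / K ≤ 1 := by rw [div_le_one hK0]; exact hK1
    nlinarith
  have hb1 : a ^ 2 * e ≤ 1 / 2 := by
    have h : (2 * (e : ℝ)) ≤ K := by
      have : 0 ≤ 2048 * e / κ + 1024 * C * e * ((e : ℝ) + 1) ^ e / κ ^ 2 := by positivity
      linarith
    calc a ^ 2 * e ≤ 1 / K * e := by gcongr
      _ ≤ 1 / K * (K / 2) := by gcongr; linarith
      _ = 1 / 2 := by field_simp
  have hb2 : a ^ 2 * e ≤ κ / 2048 := by
    have h : 2048 * e / κ ≤ K := by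
      have : 0 ≤ 2 * e + 1024 * C * e * ((e : ℝ) + 1) ^ e / κ ^ 2 := by positivity
      linarith
    have h' : (e : ℝ) ≤ K * κ / 2048 := by
      rw [div_le_iff₀ hκ0] at h; linarith
    calc a ^ 2 * e ≤ 1 / K * e := by gcongr
      _ ≤ 1 / K * (K * κ / 2048) := by gcongr
      _ = κ / 2048 := by field_simp
  have hb3 : C * (a ^ 2 * e) * ((e : ℝ) + 1) ^ e ≤ κ ^ 2 / 1024 := by
    have h : 1024 * C * e * ((e : ℝ) + 1) ^ e / κ ^ 2 ≤ K := by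
      have : 0 ≤ 2 * e + 2048 * e / κ := by positivity
      linarith
    have h' : C * e * ((e : ℝ) + 1) ^ e ≤ K * κ ^ 2 / 1024 := by
      rw [div_le_iff₀ (by positivity)] at h; linarith
    calc C * (a ^ 2 * e) * ((e : ℝ) + 1) ^ e = a ^ 2 * (C * e * ((e : ℝ) + 1) ^ e) := by ring
      _ ≤ 1 / K * (K * κ ^ 2 / 1024) := by gcongr
      _ = κ ^ 2 / 1024 := by field_simp
  refine ⟨a, ha, ?_⟩
  intro L hL
  have hLR : (1 : ℝ) ≤ L := by exact_mod_cast hL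
  have hL0 : (0 : ℝ) < L := by linarith
  have hD : ((Fintype.card (Idx e L) : ℕ) : ℝ) = 2 ^ (e * L) * (L : ℝ) ^ e := by
    rw [card_idx]; push_cast; ring
  rw [hD]
  have hD0 : (0 : ℝ) < 2 ^ (e * L) * (L : ℝ) ^ e := by positivity
  set c : ℝ := √(a ^ 2 * (e * L) / (2 ^ (e * L) * (L : ℝ) ^ e)) with hc
  have hc2 : c ^ 2 = a ^ 2 * (e * L) / (2 ^ (e * L) * (L : ℝ) ^ e) := by
    rw [hc, Real.sq_sqrt (by positivity)]
  have hLe : (L : ℝ) / (L : ℝ) ^ e ≤ 1 := by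
    rw [div_le_one (by positivity)]
    calc (L : ℝ) = (L : ℝ) ^ 1 := by simp
      _ ≤ (L : ℝ) ^ e := pow_le_pow_right₀ hLR he
  refine ⟨c, by rw [hc]; exact Real.sqrt_pos.2 (by positivity), hc2, ?_, ?_, ?_⟩
  · rw [hc2]
    calc a ^ 2 * (e * L) / (2 ^ (e * L) * (L : ℝ) ^ e)
        = a ^ 2 * e * ((L : ℝ) / (L : ℝ) ^ e) * (1 / 2 ^ (e * L)) := by field_simp
      _ ≤ a ^ 2 * e * 1 * 1 := by
        gcongr
        rw [div_le_one (by positivity)]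
        exact one_le_pow₀ (by norm_num)
      _ ≤ 1 / 2 := by linarith
  · refine (hI a c ha (min_le_left _ _) L hL hc2).trans ?_
    have hc4 : c ^ 4 = (a ^ 2 * (e * L) / (2 ^ (e * L) * (L : ℝ) ^ e)) ^ 2 := by
      rw [← hc2]; ring
    rw [hc4]
    set A : ℝ := a ^ 2 * (e * L) / (L : ℝ) ^ e with hA
    have hA0 : 0 < A := by positivity
    have hAe : A ≤ a ^ 2 * e := by
      have : A = a ^ 2 * e * ((L : ℝ) / (L : ℝ) ^ e) := by rw [hA]; ring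
      rw [this]
      calc a ^ 2 * e * ((L : ℝ) / (L : ℝ) ^ e) ≤ a ^ 2 * e * 1 := by gcongr
        _ = _ := by ring
    have hn1 : ((e * L : ℕ) + 1 : ℝ) ^ e ≤ ((e : ℝ) + 1) ^ e * (L : ℝ) ^ e := by
      rw [← mul_pow]
      gcongr
      push_cast
      nlinarith
    have hr : (a ^ 2 * (e * L) / (2 ^ (e * L) * (L : ℝ) ^ e)) ^ 2 * κ ^ 2 *
        (2 ^ (e * L) * (L : ℝ) ^ e) / 1024 =
        A ^ 2 * (1 / 2) ^ (e * L) * (L : ℝ) ^ e * (κ ^ 2 / 1024) := by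
      rw [hA, one_div, inv_pow]
      field_simp
    rw [hr]
    calc C * A ^ 3 * (1 / 2) ^ (e * L) * ((e * L : ℕ) + 1 : ℝ) ^ e
        = A ^ 2 * (1 / 2) ^ (e * L) * (C * A * ((e * L : ℕ) + 1 : ℝ) ^ e) := by ring
      _ ≤ A ^ 2 * (1 / 2) ^ (e * L) *
          (C * (a ^ 2 * e) * (((e : ℝ) + 1) ^ e * (L : ℝ) ^ e)) := by gcongr
      _ = A ^ 2 * (1 / 2) ^ (e * L) * (L : ℝ) ^ e * (C * (a ^ 2 * e) * ((e : ℝ) + 1) ^ e) := by
        ring
      _ ≤ A ^ 2 * (1 / 2) ^ (e * L) * (L : ℝ) ^ e * (κ ^ 2 / 1024) := by gcongr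
  · have hsq : (L : ℝ) ≤ √(2 ^ (e * L) * (L : ℝ) ^ e) := by
      apply Real.le_sqrt_of_sq_le
      have h1 : (L : ℝ) ≤ 2 ^ (e * L) := by
        calc (L : ℝ) ≤ (2 : ℝ) ^ L := by exact_mod_cast Nat.lt_two_pow_self.le
          _ ≤ 2 ^ (e * L) := pow_le_pow_right₀ (by norm_num) (by nlinarith)
      have h2 : (L : ℝ) ≤ (L : ℝ) ^ e := by
        calc (L : ℝ) = (L : ℝ) ^ 1 := by simp
          _ ≤ (L : ℝ) ^ e := pow_le_pow_right₀ hLR he
      calc (L : ℝ) ^ 2 = L * L := by ring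
        _ ≤ 2 ^ (e * L) * (L : ℝ) ^ e := by gcongr
    have hs0 : 0 < √(2 ^ (e * L) * (L : ℝ) ^ e) := by linarith
    have hss : √(2 ^ (e * L) * (L : ℝ) ^ e) * √(2 ^ (e * L) * (L : ℝ) ^ e) =
        2 ^ (e * L) * (L : ℝ) ^ e := Real.mul_self_sqrt hD0.le
    rw [hc2]
    set s : ℝ := √(2 ^ (e * L) * (L : ℝ) ^ e) with hs
    rw [← hss]
    calc a ^ 2 * (e * L) / (s * s) * s = a ^ 2 * e * (L / s) := by field_simp
      _ ≤ a ^ 2 * e * 1 := by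
        gcongr
        rw [div_le_one hs0]; exact hsq
      _ ≤ κ / 2048 := by linarith

end Pool.Agent.MixEnt
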