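import Mathlib
import Pool.Agent.Lib.MP_b56574_an.Sys

/-! # The pointwise expansion of the product `K = ∏ (1 + t_j)` -/

noncomputable section

namespace Pool.Agent.MixEnt

variable {J : Type} [Fintype J]

/-- `e^{t - t²} ≤ 1 + t` for `|t| ≤ 1/2`. -/
theorem exp_sub_sq_le {t : ℝ} (ht : |t| ≤ 1 / 2) : Real.exp (t - t ^ 2) ≤ 1 + t := by
  rw [abs_le] at ht
  have hpos : 0 < 1 + t := by linarith [ht.1]
  rw [← Real.le_log_iff_exp_le hpos]
  -- log (1+t) ≥ t - t^2
  have key : ∀ s : ℝ, -1 / 2 ≤ s → s ≤ 1 / 2 → s - s ^ 2 ≤ Real.log (1 + s) := by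
    intro s hs1 hs2
    have h1 : 0 < 1 + s := by linarith
    have h2 := Real.one_sub_inv_le_log_of_pos h1
    by_cases hs : 0 ≤ s
    · have : s - s ^ 2 ≤ 1 - (1 + s)⁻¹ := by
        rw [show 1 - (1 + s)⁻¹ = s / (1 + s) by field_simp; ring, le_div_iff₀ h1]
        nlinarith [mul_nonneg hs (mul_nonneg hs hs)]
      linarith
    · push Not at hs
      have hab : |-s| < 1 := by rw [abs_neg, abs_lt]; constructor <;> linarith
      have h3 := Real.abs_log_sub_add_sum_range_le hab 4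
      rw [abs_of_pos (by linarith : 0 < -s)] at h3
      simp only [Finset.sum_range_succ, Finset.sum_range_zero, zero_add, pow_one, Nat.cast_zero,
        div_one, sub_neg_eq_add, Nat.cast_one, Nat.cast_ofNat] at h3
      rw [abs_le] at h3
      have h4 := h3.1
      have h5 : (-s) ^ (4 + 1) / (1 + s) ≤ 2 * (-s) ^ 5 := by
        rw [div_le_iff₀ h1]
        have h0 : 0 ≤ (-s) ^ 5 := by apply pow_nonneg; linarith
        have h00 : (-s) ^ (4 + 1) = (-s) ^ 5 * 1 := by norm_num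
        rw [h00]
        nlinarith [mul_nonneg h0 (by linarith : 0 ≤ 1 / 2 + s)]
      norm_num at h4 h5 ⊢
      have hs3 : (-s) ^ 5 ≤ s ^ 2 * (1 / 8) := by
        have : (-s) ^ 3 ≤ (1 / 2) ^ 3 := pow_le_pow_left₀ (by linarith) (by linarith) 3
        calc (-s) ^ 5 = s ^ 2 * (-s) ^ 3 := by ring
          _ ≤ s ^ 2 * (1 / 2) ^ 3 := by gcongr
          _ = _ := by norm_num
      have hs2' : (-s) ^ 3 ≤ s ^ 2 * (1 / 2) := by
        calc (-s) ^ 3 = s ^ 2 * (-s) := by ring
          _ ≤ s ^ 2 * (1 / 2) := by gcongr; linarith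
      have hs4 : s ^ 4 ≤ s ^ 2 * (1 / 4) := by
        have : (-s) ^ 2 ≤ (1 / 2) ^ 2 := pow_le_pow_left₀ (by linarith) (by linarith) 2
        calc s ^ 4 = s ^ 2 * (-s) ^ 2 := by ring
          _ ≤ s ^ 2 * (1 / 2) ^ 2 := by gcongr
          _ = _ := by norm_num
      nlinarith
  exact key t (by linarith [ht.1]) ht.2

/-- `e^x - 1 - x ≤ x² e^{|x|} / 2`. -/
theorem exp_sub_one_sub_le (x : ℝ) : Real.exp x - 1 - x ≤ x ^ 2 * Real.exp |x| / 2 := by
  have hpos : ∀ y : ℝ, 0 ≤ y → Real.exp y - 1 - y ≤ y ^ 2 * Real.exp y / 2 := by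
    intro y hy
    -- h(y) = y^2 e^y/2 - e^y + 1 + y
    have hmono : MonotoneOn (fun y : ℝ => y ^ 2 * Real.exp y / 2 - Real.exp y + 1 + y)
        (Set.Ici 0) := by
      apply monotoneOn_of_deriv_nonneg (convex_Ici 0)
      · fun_prop
      · fun_prop
      · intro z hz
        rw [interior_Ici, Set.mem_Ioi] at hz
        have hd : HasDerivAt (fun y : ℝ => y ^ 2 * Real.exp y / 2 - Real.exp y + 1 + y)
            ((2 * z * Real.exp z + z ^ 2 * Real.exp z) / 2 - Real.exp z + 1) z := by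
          have h1 : HasDerivAt (fun y : ℝ => y ^ 2 * Real.exp y)
              (2 * z * Real.exp z + z ^ 2 * Real.exp z) z := by
            have h := (hasDerivAt_pow 2 z).mul (Real.hasDerivAt_exp z)
            refine h.congr_deriv ?_
            norm_num
          exact (((h1.div_const 2).sub (Real.hasDerivAt_exp z)).add_const 1).add
            (hasDerivAt_id z)
        rw [hd.deriv]
        have h3 : 1 - z ≤ Real.exp (-z) := by
          have := Real.add_one_le_exp (-z); linarith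
        have h4 : Real.exp z * Real.exp (-z) = 1 := by rw [← Real.exp_add]; simp
        have h5 : 0 < Real.exp z := Real.exp_pos z
        nlinarith [mul_le_mul_of_nonneg_left h3 h5.le, mul_nonneg (sq_nonneg z) h5.le]
    have := hmono (Set.mem_Ici.2 le_rfl) (Set.mem_Ici.2 hy) hy
    simp at this
    linarith
  rcases le_or_gt 0 x with h | h
  · rw [abs_of_nonneg h]; exact hpos x h
  · rw [abs_of_neg h]
    have h1 := hpos (-x) (by linarith)
    -- e^x - 1 - x ≤ e^{-x} - 1 + x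
    have h2 : Real.exp x - 1 - x ≤ Real.exp (-x) - 1 - (-x) := by
      have hs := Real.self_le_sinh_iff.2 (by linarith : 0 ≤ -x)
      rw [Real.sinh_eq] at hs
      rw [neg_neg] at hs
      linarith
    have h3 : (-x) ^ 2 = x ^ 2 := by ring
    rw [h3] at h1
    linarith

/-- If all `|t_j| ≤ δ ≤ 1/2` then `X (K - 1 - X) ≤ |X|³ e^{|X|} / 2 + δ² D |X|`,
`X = ∑ t_j`, `K = ∏ (1 + t_j)`. -/
theorem expand_le (t : J → ℝ) (δ : ℝ) (hδ : δ ≤ 1 / 2) (ht : ∀ j, |t j| ≤ δ) :
    (∑ j, t j) * ((∏ j, (1 + t j)) - 1 - ∑ j, t j) ≤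
      |∑ j, t j| ^ 3 * Real.exp |∑ j, t j| / 2 + δ ^ 2 * Fintype.card J * |∑ j, t j| := by
  set X := ∑ j, t j with hX
  set K := ∏ j, (1 + t j) with hK
  have hpos : ∀ j, 0 ≤ 1 + t j := by
    intro j
    have := (abs_le.1 (ht j)).1
    linarith
  have hK1 : K ≤ Real.exp X := by
    rw [hX, Real.exp_sum]
    exact Finset.prod_le_prod (fun j _ => hpos j) fun j _ => by
      have := Real.add_one_le_exp (t j); linarith
  have hq : ∑ j, t j ^ 2 ≤ δ ^ 2 * Fintype.card J := by
    calc ∑ j, t j ^ 2 ≤ ∑ _j : J, δ ^ 2 := by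
          refine Finset.sum_le_sum fun j _ => ?_
          rw [← sq_abs (t j)]
          exact pow_le_pow_left₀ (abs_nonneg _) (ht j) 2
      _ = _ := by simp [mul_comm]
  have hK2 : 1 + X - δ ^ 2 * Fintype.card J ≤ K := by
    have h1 : Real.exp (∑ j, (t j - t j ^ 2)) ≤ K := by
      rw [Real.exp_sum]
      exact Finset.prod_le_prod (fun j _ => (Real.exp_pos _).le) fun j _ =>
        exp_sub_sq_le ((ht j).trans hδ)
    have h2 := Real.add_one_le_exp (∑ j, (t j - t j ^ 2))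
    rw [Finset.sum_sub_distrib] at h1 h2
    linarith
  have hexp : Real.exp X - 1 - X ≤ X ^ 2 * Real.exp |X| / 2 := exp_sub_one_sub_le X
  have hXX : X ≤ |X| := le_abs_self X
  have hup : K - 1 - X ≤ X ^ 2 * Real.exp |X| / 2 := by linarith
  have hlo : -(δ ^ 2 * Fintype.card J) ≤ K - 1 - X := by linarith
  have hq0 : 0 ≤ δ ^ 2 * (Fintype.card J : ℝ) := by positivity
  have hs0 : 0 ≤ X ^ 2 * Real.exp |X| / 2 := by positivity
  have habs : |K - 1 - X| ≤ X ^ 2 * Real.exp |X| / 2 + δ ^ 2 * Fintype.card J := by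
    rw [abs_le]; constructor <;> linarith
  calc X * (K - 1 - X) ≤ |X * (K - 1 - X)| := le_abs_self _
    _ = |X| * |K - 1 - X| := abs_mul _ _
    _ ≤ |X| * (X ^ 2 * Real.exp |X| / 2 + δ ^ 2 * Fintype.card J) := by gcongr
    _ = _ := by rw [← sq_abs X]; ring

end Pool.Agent.MixEnt
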