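import Mathlib
import Pool.Agent.Lib.MP_b56574_an.Signs

/-! # The moments of the kernel -/

open MeasureTheory

noncomputable section

namespace Pool.Agent.MixEnt

variable {Ω J : Type} [MeasurableSpace Ω] [Fintype J] [DecidableEq J]
  {μ : Measure Ω} [IsProbabilityMeasure μ] {g : J → Ω → ℝ} {κ : ℝ}

omit [Fintype J] [DecidableEq J] in
theorem rieszB_integrable (h : Sys μ g κ) (j : J) : Integrable (g j) μ := by
  refine Integrable.of_bound (h.meas j).aestronglyMeasurable 1 (Filter.Eventually.of_forall fun x => ?_)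
  rw [Real.norm_eq_abs]
  exact h.bd j x

omit [Fintype J] [DecidableEq J] in
theorem rieszB_integrable_mul (h : Sys μ g κ) (j k : J) : Integrable (fun x => g j x * g k x) μ := by
  refine Integrable.of_bound ((h.meas j).mul (h.meas k)).aestronglyMeasurable 1
    (Filter.Eventually.of_forall fun x => ?_)
  rw [Real.norm_eq_abs, abs_mul]
  exact mul_le_one₀ (h.bd j x) (abs_nonneg _) (h.bd k x)

omit [Fintype J] [IsProbabilityMeasure μ] in
theorem rieszB_int_mul (h : Sys μ g κ) (j k : J) :
    ∫ x, g j x * g k x ∂μ = if j = k then κ else 0 := by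
  by_cases e : j = k
  · subst e
    rw [if_pos rfl]
    exact h.sq j
  · rw [if_neg e]
    exact h.orth j k e

theorem integral_kerX (h : Sys μ g κ) (c : ℝ) :
    ∫ x, ∫ y, kerX c g x y ∂μ ∂μ = 0 := by
  have h1 : ∀ x, ∫ y, kerX c g x y ∂μ = 0 := by
    intro x
    unfold kerX
    rw [integral_const_mul, integral_finsetSum _ fun j _ => (rieszB_integrable h j).const_mul _]
    rw [Finset.sum_eq_zero, mul_zero]
    intro j _
    rw [integral_const_mul, h.mean j, mul_zero]
  simp [h1]

omit [MeasurableSpace Ω] [DecidableEq J] in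
theorem rieszB_sq (c : ℝ) (x y : Ω) : kerX c g x y ^ 2 =
    c ^ 4 * ∑ j, ∑ k, (g j x * g k x) * (g j y * g k y) := by
  unfold kerX
  rw [mul_pow, sq (∑ j, g j x * g j y), Finset.sum_mul_sum]
  rw [show (c ^ 2) ^ 2 = c ^ 4 by ring]
  congr 1
  refine Finset.sum_congr rfl fun j _ => Finset.sum_congr rfl fun k _ => ?_
  ring

theorem rieszB_inner (h : Sys μ g κ) (c : ℝ) (x : Ω) :
    ∫ y, kerX c g x y ^ 2 ∂μ = c ^ 4 * κ * ∑ j, g j x * g j x := by
  simp only [rieszB_sq]
  rw [integral_const_mul, integral_finsetSum]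
  · rw [mul_assoc]
    congr 1
    rw [Finset.mul_sum]
    refine Finset.sum_congr rfl fun j _ => ?_
    rw [integral_finsetSum _ fun k _ => (rieszB_integrable_mul h j k).const_mul _]
    rw [Finset.sum_eq_single j]
    · rw [integral_const_mul, h.sq j]
      ring
    · intro k _ hk
      rw [integral_const_mul, h.orth j k (Ne.symm hk), mul_zero]
    · intro hj
      exact absurd (Finset.mem_univ j) hj
  · intro j _
    exact integrable_finsetSum _ fun k _ => (rieszB_integrable_mul h j k).const_mul _

theorem integral_kerX_sq (h : Sys μ g κ) (c : ℝ) :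
    ∫ x, ∫ y, kerX c g x y ^ 2 ∂μ ∂μ = c ^ 4 * κ ^ 2 * Fintype.card J := by
  simp only [rieszB_inner h c]
  rw [integral_const_mul, integral_finsetSum _ fun j _ => rieszB_integrable_mul h j j]
  simp only [h.sq]
  rw [Finset.sum_const, Finset.card_univ, nsmul_eq_mul]
  ring

omit [DecidableEq J] [IsProbabilityMeasure μ] in
theorem rieszB_abs_le (h : Sys μ g κ) (c : ℝ) (x y : Ω) :
    |kerX c g x y| ≤ c ^ 2 * Fintype.card J := by
  unfold kerX
  rw [abs_mul, abs_of_nonneg (sq_nonneg c)]
  refine mul_le_mul_of_nonneg_left ?_ (sq_nonneg c)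
  refine (Finset.abs_sum_le_sum_abs _ _).trans ?_
  calc ∑ j, |g j x * g j y| ≤ ∑ _j : J, (1 : ℝ) := by
        refine Finset.sum_le_sum fun j _ => ?_
        rw [abs_mul]
        exact mul_le_one₀ (h.bd j x) (abs_nonneg _) (h.bd j y)
    _ = Fintype.card J := by simp

omit [DecidableEq J] [IsProbabilityMeasure μ] in
theorem rieszB_meas (h : Sys μ g κ) (c : ℝ) (x : Ω) : Measurable (kerX c g x) := by
  unfold kerX
  refine Measurable.const_mul ?_ _
  exact Finset.measurable_fun_sum _ fun j _ => (h.meas j).const_mul _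

theorem rieszB_int (h : Sys μ g κ) (c : ℝ) (x : Ω) : Integrable (kerX c g x) μ := by
  refine Integrable.of_bound (rieszB_meas h c x).aestronglyMeasurable (c ^ 2 * Fintype.card J)
    (Filter.Eventually.of_forall fun y => ?_)
  rw [Real.norm_eq_abs]
  exact rieszB_abs_le h c x y

theorem rieszB_int_sq (h : Sys μ g κ) (c : ℝ) (x : Ω) :
    Integrable (fun y => kerX c g x y ^ 2) μ := by
  refine Integrable.of_bound ((rieszB_meas h c x).pow_const 2).aestronglyMeasurable
    ((c ^ 2 * Fintype.card J) ^ 2) (Filter.Eventually.of_forall fun y => ?_)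
  rw [Real.norm_eq_abs, abs_pow]
  exact pow_le_pow_left₀ (abs_nonneg _) (rieszB_abs_le h c x y) 2

theorem integral_abs_kerX (h : Sys μ g κ) (hκ : 0 < κ) {c : ℝ} (hc : 0 < c) :
    ∫ x, ∫ y, |kerX c g x y| ∂μ ∂μ ≤ c ^ 2 * κ * √(Fintype.card J) := by
  rcases Nat.eq_zero_or_pos (Fintype.card J) with hD | hD
  · have : IsEmpty J := Fintype.card_eq_zero_iff.mp hD
    simp [kerX]
  · have hDr : (0 : ℝ) < Fintype.card J := by exact_mod_cast hD
    have hs : 0 < √(Fintype.card J : ℝ) := Real.sqrt_pos.mpr hDr
    have hss : √(Fintype.card J : ℝ) * √(Fintype.card J : ℝ) = Fintype.card J :=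
      Real.mul_self_sqrt hDr.le
    set l : ℝ := c ^ 2 * κ * √(Fintype.card J) with hl
    have hlpos : 0 < l := by positivity
    -- pointwise
    have hpt : ∀ x y, |kerX c g x y| ≤ l / 2 + (1 / (2 * l)) * kerX c g x y ^ 2 := by
      intro x y
      have h1 : 0 ≤ (|kerX c g x y| - l) ^ 2 := sq_nonneg _
      have h2 : |kerX c g x y| ^ 2 = kerX c g x y ^ 2 := sq_abs _
      have h3 : l / 2 + (1 / (2 * l)) * kerX c g x y ^ 2 - |kerX c g x y| =
          (1 / (2 * l)) * (|kerX c g x y| - l) ^ 2 := by
        rw [← h2]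
        field_simp
        ring
      have h4 : 0 ≤ (1 / (2 * l)) * (|kerX c g x y| - l) ^ 2 := by positivity
      linarith
    have hin : ∀ x, ∫ y, |kerX c g x y| ∂μ ≤
        l / 2 + (1 / (2 * l)) * (c ^ 4 * κ * ∑ j, g j x * g j x) := by
      intro x
      calc ∫ y, |kerX c g x y| ∂μ ≤ ∫ y, (l / 2 + (1 / (2 * l)) * kerX c g x y ^ 2) ∂μ := by
            refine integral_mono (rieszB_int h c x).abs ?_ (hpt x)
            exact (integrable_const _).add ((rieszB_int_sq h c x).const_mul _)
        _ = _ := by
            rw [integral_add (integrable_const _) ((rieszB_int_sq h c x).const_mul _),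
              integral_const_mul, rieszB_inner h c x]
            simp
    have hint : Integrable (fun x => l / 2 + (1 / (2 * l)) * (c ^ 4 * κ * ∑ j, g j x * g j x)) μ := by
      refine (integrable_const _).add (Integrable.const_mul (Integrable.const_mul ?_ _) _)
      exact integrable_finsetSum _ fun j _ => rieszB_integrable_mul h j j
    calc ∫ x, ∫ y, |kerX c g x y| ∂μ ∂μ
        ≤ ∫ x, (l / 2 + (1 / (2 * l)) * (c ^ 4 * κ * ∑ j, g j x * g j x)) ∂μ := by
          refine integral_mono_of_nonneg (Filter.Eventually.of_forall fun x => ?_) hint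
            (Filter.Eventually.of_forall hin)
          exact integral_nonneg fun y => abs_nonneg _
      _ = l / 2 + (1 / (2 * l)) * (c ^ 4 * κ * (Fintype.card J * κ)) := by
          rw [integral_add (integrable_const _)
            (Integrable.const_mul (Integrable.const_mul
              (integrable_finsetSum _ fun j _ => rieszB_integrable_mul h j j) _) _),
            integral_const_mul, integral_const_mul,
            integral_finsetSum _ fun j _ => rieszB_integrable_mul h j j]
          simp only [h.sq]
          simp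
      _ = l := by
          have h5 : c ^ 4 * κ * (Fintype.card J * κ) = l * l := by
            rw [← hss, hl]
            ring
          rw [h5]
          field_simp
          ring

end Pool.Agent.MixEnt
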