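import Mathlib
import Pool.Agent.Lib.MP_b56574_an.RieszA

/-! # Second moment of the coefficients -/

open MeasureTheory

noncomputable section

namespace Pool.Agent.MixEnt

variable {Ω J : Type} [MeasurableSpace Ω] [Fintype J] [DecidableEq J]
  {μ : Measure Ω} [IsProbabilityMeasure μ] {g : J → Ω → ℝ} {κ : ℝ}

theorem rieszC_integrable (h : Sys μ g κ) {c : ℝ} (hc : 0 < c) (hc1 : c ≤ 1) (σ : J → Bool)
    (k : J) : Integrable (fun x => g k x * riesz c g σ x) μ := by
  refine (riesz_integrable h hc hc1 σ).bdd_mul (c := 1) (h.meas k).aestronglyMeasurable ?_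
  exact Filter.Eventually.of_forall fun x => by simpa [Real.norm_eq_abs] using h.bd k x

theorem rieszC_coef_sq (μ : Measure Ω) (c : ℝ) (g : J → Ω → ℝ) (σ : J → Bool) (k : J) :
    coef μ c g σ k ^ 2 =
      ∫ x, ∫ y, (g k x * riesz c g σ x) * (g k y * riesz c g σ y) ∂μ ∂μ := by
  simp only [coef, integral_const_mul, integral_mul_const]
  ring

theorem rieszC_point (c : ℝ) (g : J → Ω → ℝ) (x y : Ω) :
    2 ^ Fintype.card J * (kerX c g x y * ∏ j, (1 + c ^ 2 * (g j x * g j y))) =
      ∑ σ : J → Bool, ∑ k, c ^ 2 *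
        ((g k x * riesz c g σ x) * (g k y * riesz c g σ y)) := by
  have h1 := sum_riesz_riesz c g x y
  calc 2 ^ Fintype.card J * (kerX c g x y * ∏ j, (1 + c ^ 2 * (g j x * g j y)))
      = kerX c g x y * (2 ^ Fintype.card J * ∏ j, (1 + c ^ 2 * (g j x * g j y))) := by ring
    _ = kerX c g x y * ∑ σ : J → Bool, riesz c g σ x * riesz c g σ y := by rw [h1]
    _ = ∑ σ : J → Bool, ∑ k, c ^ 2 *
        ((g k x * riesz c g σ x) * (g k y * riesz c g σ y)) := by
      rw [Finset.mul_sum]
      refine Finset.sum_congr rfl fun σ _ => ?_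
      rw [kerX, Finset.mul_sum, Finset.sum_mul]
      refine Finset.sum_congr rfl fun k _ => ?_
      ring

theorem sum_coef_sq (h : Sys μ g κ) {c : ℝ} (hc : 0 < c) (hc1 : c ≤ 1) :
    c ^ 2 * ∑ σ : J → Bool, ∑ k, coef μ c g σ k ^ 2 = 2 ^ Fintype.card J *
      ∫ x, ∫ y, kerX c g x y * ∏ j, (1 + c ^ 2 * (g j x * g j y)) ∂μ ∂μ := by
  have hI := fun (σ : J → Bool) (k : J) => rieszC_integrable h hc hc1 σ k
  have hR : 2 ^ Fintype.card J *
      ∫ x, ∫ y, kerX c g x y * ∏ j, (1 + c ^ 2 * (g j x * g j y)) ∂μ ∂μ =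
      ∫ x, ∫ y, ∑ σ : J → Bool, ∑ k, c ^ 2 *
        ((g k x * riesz c g σ x) * (g k y * riesz c g σ y)) ∂μ ∂μ := by
    rw [← integral_const_mul]
    refine integral_congr_ae (Filter.Eventually.of_forall fun x => ?_)
    simp only
    rw [← integral_const_mul]
    refine integral_congr_ae (Filter.Eventually.of_forall fun y => ?_)
    exact rieszC_point c g x y
  rw [hR]
  have hin : ∀ x, ∫ y, ∑ σ : J → Bool, ∑ k, c ^ 2 *
        ((g k x * riesz c g σ x) * (g k y * riesz c g σ y)) ∂μ =
      ∑ σ : J → Bool, ∑ k, c ^ 2 *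
        ((g k x * riesz c g σ x) * ∫ y, (g k y * riesz c g σ y) ∂μ) := by
    intro x
    rw [integral_finset_sum]
    · refine Finset.sum_congr rfl fun σ _ => ?_
      rw [integral_finset_sum]
      · refine Finset.sum_congr rfl fun k _ => ?_
        rw [integral_const_mul, integral_const_mul]
      · intro k _
        exact ((hI σ k).const_mul _).const_mul _
    · intro σ _
      exact integrable_finset_sum _ fun k _ => ((hI σ k).const_mul _).const_mul _
  simp only [hin]
  rw [integral_finset_sum]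
  · rw [Finset.mul_sum]
    refine Finset.sum_congr rfl fun σ _ => ?_
    rw [integral_finset_sum]
    · rw [Finset.mul_sum]
      refine Finset.sum_congr rfl fun k _ => ?_
      rw [integral_const_mul, integral_mul_const, coef]
      ring
    · intro k _
      exact ((hI σ k).mul_const _).const_mul _
  · intro σ _
    exact integrable_finset_sum _ fun k _ => ((hI σ k).mul_const _).const_mul _

end Pool.Agent.MixEnt
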