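import Mathlib
import Pool.Agent.Lib.MP_b56574_an.RieszA
import Pool.Agent.Lib.MP_b56574_an.RieszB
import Pool.Agent.Lib.MP_b56574_an.RieszC
import Pool.Agent.Lib.MP_b56574_an.Expand

/-! # The second moment bound of the errors -/

open MeasureTheory

noncomputable section

namespace Pool.Agent.MixEnt

variable {Ω J : Type} [MeasurableSpace Ω] [Fintype J] [DecidableEq J]
  {μ : Measure Ω} [IsProbabilityMeasure μ] {g : J → Ω → ℝ} {κ : ℝ}

theorem Riesz_integrable_of_bdd {Ω : Type} [MeasurableSpace Ω] {μ : Measure Ω}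
    [IsProbabilityMeasure μ] (F : Ω → Ω → ℝ)
    (hF : Measurable (fun p : Ω × Ω => F p.1 p.2)) (C : ℝ) (hC : ∀ x y, |F x y| ≤ C) :
    Integrable (fun p : Ω × Ω => F p.1 p.2) (μ.prod μ) := by
  apply Integrable.of_bound hF.aestronglyMeasurable C
  filter_upwards with p
  rw [Real.norm_eq_abs]
  exact hC p.1 p.2

theorem Riesz_kerX_meas {Ω J : Type} [MeasurableSpace Ω] [Fintype J]
    {μ : Measure Ω} {g : J → Ω → ℝ} {κ : ℝ} (h : Sys μ g κ) (c : ℝ) :
    Measurable (fun p : Ω × Ω => kerX c g p.1 p.2) := by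
  unfold kerX
  apply Measurable.const_mul
  apply Finset.measurable_fun_sum
  intro j _
  exact ((h.meas j).comp measurable_fst).mul ((h.meas j).comp measurable_snd)

theorem Riesz_abs_kerX_le {Ω J : Type} [MeasurableSpace Ω] [Fintype J]
    {μ : Measure Ω} {g : J → Ω → ℝ} {κ : ℝ} (h : Sys μ g κ) (c : ℝ) (x y : Ω) :
    |kerX c g x y| ≤ c ^ 2 * Fintype.card J := by
  unfold kerX
  rw [abs_mul, abs_of_nonneg (sq_nonneg c)]
  apply mul_le_mul_of_nonneg_left _ (sq_nonneg c)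
  calc |∑ j, g j x * g j y| ≤ ∑ j, |g j x * g j y| := Finset.abs_sum_le_sum_abs _ _
    _ ≤ ∑ _j : J, (1 : ℝ) := by
        apply Finset.sum_le_sum
        intro j _
        rw [abs_mul]
        exact mul_le_one₀ (h.bd j x) (abs_nonneg _) (h.bd j y)
    _ = Fintype.card J := by simp

theorem Riesz_K_meas {Ω J : Type} [MeasurableSpace Ω] [Fintype J]
    {μ : Measure Ω} {g : J → Ω → ℝ} {κ : ℝ} (h : Sys μ g κ) (c : ℝ) :
    Measurable (fun p : Ω × Ω => ∏ j, (1 + c ^ 2 * (g j p.1 * g j p.2))) := by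
  apply Finset.measurable_fun_prod
  intro j _
  apply Measurable.const_add
  apply Measurable.const_mul
  exact ((h.meas j).comp measurable_fst).mul ((h.meas j).comp measurable_snd)

theorem Riesz_K_le {Ω J : Type} [MeasurableSpace Ω] [Fintype J]
    {μ : Measure Ω} {g : J → Ω → ℝ} {κ : ℝ} (h : Sys μ g κ) (c : ℝ) (x y : Ω) :
    |∏ j, (1 + c ^ 2 * (g j x * g j y))| ≤ (1 + c ^ 2) ^ Fintype.card J := by
  rw [Finset.abs_prod]
  calc ∏ j, |1 + c ^ 2 * (g j x * g j y)| ≤ ∏ _j : J, (1 + c ^ 2) := by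
        apply Finset.prod_le_prod
        · intro j _; exact abs_nonneg _
        · intro j _
          calc |1 + c ^ 2 * (g j x * g j y)| ≤ |1| + |c ^ 2 * (g j x * g j y)| := abs_add_le _ _
            _ ≤ 1 + c ^ 2 := by
                rw [abs_one, abs_mul, abs_of_nonneg (sq_nonneg c), abs_mul]
                have := mul_le_one₀ (h.bd j x) (abs_nonneg _) (h.bd j y)
                nlinarith [sq_nonneg c]
    _ = (1 + c ^ 2) ^ Fintype.card J := by simp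

theorem sum_err_le (h : Sys μ g κ) (hκ : 0 < κ) {c : ℝ} (hc : 0 < c) (hc2 : c ^ 2 ≤ 1 / 2) :
    ∑ σ : J → Bool, ∑ k, (coef μ c g σ k - c * κ * sg (σ k)) ^ 2 ≤
      2 ^ Fintype.card J *
        ((∫ x, ∫ y, |kerX c g x y| ^ 3 * Real.exp |kerX c g x y| ∂μ ∂μ) / (2 * c ^ 2) +
          c ^ 4 * κ * (Fintype.card J * √(Fintype.card J))) := by
  have hc1 : c ≤ 1 := by nlinarith
  set D : ℝ := (Fintype.card J : ℝ) with hD
  have hD0 : 0 ≤ D := by rw [hD]; positivity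
  set n : ℝ := 2 ^ Fintype.card J with hn
  have hn0 : 0 < n := by rw [hn]; positivity
  -- expansion
  have hexp : ∑ σ : J → Bool, ∑ k, (coef μ c g σ k - c * κ * sg (σ k)) ^ 2 =
      (∑ σ : J → Bool, ∑ k, coef μ c g σ k ^ 2) - n * D * (c ^ 2 * κ ^ 2) := by
    have e1 : ∀ σ : J → Bool, ∀ k : J, (coef μ c g σ k - c * κ * sg (σ k)) ^ 2 =
        coef μ c g σ k ^ 2 - 2 * c * κ * (sg (σ k) * coef μ c g σ k) + c ^ 2 * κ ^ 2 := by
      intro σ k
      have := sg_sq (σ k)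
      linear_combination (c ^ 2 * κ ^ 2) * this
    have e2 : ∑ σ : J → Bool, ∑ k, (coef μ c g σ k - c * κ * sg (σ k)) ^ 2 =
        (∑ σ : J → Bool, ∑ k, coef μ c g σ k ^ 2) -
        2 * c * κ * (∑ σ : J → Bool, ∑ k, sg (σ k) * coef μ c g σ k) +
        ∑ _σ : J → Bool, ∑ _k : J, c ^ 2 * κ ^ 2 := by
      rw [Finset.mul_sum, ← Finset.sum_sub_distrib, ← Finset.sum_add_distrib]
      apply Finset.sum_congr rfl
      intro σ _
      rw [Finset.mul_sum, ← Finset.sum_sub_distrib, ← Finset.sum_add_distrib]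
      apply Finset.sum_congr rfl
      intro k _
      exact e1 σ k
    have e3 : ∑ σ : J → Bool, ∑ k, sg (σ k) * coef μ c g σ k = D * (n * (c * κ)) := by
      rw [Finset.sum_comm, Finset.sum_congr rfl (fun k _ => sum_sg_coef h hc hc1 k)]
      simp [hD, hn]
    have e4 : ∑ _σ : J → Bool, ∑ _k : J, c ^ 2 * κ ^ 2 = n * (D * (c ^ 2 * κ ^ 2)) := by
      simp [hD, hn]
    rw [e2, e3, e4]
    ring
  have hS2 := sum_coef_sq h hc hc1
  have hX0 := integral_kerX h c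
  have hX2 := integral_kerX_sq h c
  have hXa := integral_abs_kerX h hκ hc
  -- integrability
  have mX := Riesz_kerX_meas h c
  have mK := Riesz_K_meas h c
  have bX := Riesz_abs_kerX_le h c
  have bK := Riesz_K_le h c
  set M : ℝ := c ^ 2 * Fintype.card J with hM
  have hM0 : 0 ≤ M := by rw [hM]; positivity
  have iX : Integrable (fun p : Ω × Ω => kerX c g p.1 p.2) (μ.prod μ) :=
    Riesz_integrable_of_bdd (kerX c g) mX M bX
  have iX2 : Integrable (fun p : Ω × Ω => kerX c g p.1 p.2 ^ 2) (μ.prod μ) := by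
    apply Riesz_integrable_of_bdd (fun x y => kerX c g x y ^ 2) (mX.pow_const 2) (M ^ 2)
    intro x y
    rw [abs_pow]
    exact pow_le_pow_left₀ (abs_nonneg _) (bX x y) 2
  have iXK : Integrable (fun p : Ω × Ω => kerX c g p.1 p.2 *
      ∏ j, (1 + c ^ 2 * (g j p.1 * g j p.2))) (μ.prod μ) := by
    apply Riesz_integrable_of_bdd (fun x y => kerX c g x y * ∏ j, (1 + c ^ 2 * (g j x * g j y)))
      (mX.mul mK) (M * (1 + c ^ 2) ^ Fintype.card J)
    intro x y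
    rw [abs_mul]
    exact mul_le_mul (bX x y) (bK x y) (abs_nonneg _) hM0
  have iA : Integrable (fun p : Ω × Ω => |kerX c g p.1 p.2|) (μ.prod μ) := iX.abs
  have iE : Integrable (fun p : Ω × Ω => |kerX c g p.1 p.2| ^ 3 *
      Real.exp |kerX c g p.1 p.2|) (μ.prod μ) := by
    apply Riesz_integrable_of_bdd (fun x y => |kerX c g x y| ^ 3 * Real.exp |kerX c g x y|)
      _ (M ^ 3 * Real.exp M)
    · intro x y
      rw [abs_mul, abs_of_pos (Real.exp_pos _), abs_pow, abs_abs]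
      apply mul_le_mul (pow_le_pow_left₀ (abs_nonneg _) (bX x y) 3)
        (Real.exp_le_exp.mpr (bX x y)) (Real.exp_pos _).le (by positivity)
    · exact (mX.abs.pow_const 3).mul mX.abs.exp
  have c1 : ∫ x, ∫ y, kerX c g x y ∂μ ∂μ = ∫ p, kerX c g p.1 p.2 ∂(μ.prod μ) :=
    integral_integral (f := kerX c g) iX
  have c2 : ∫ x, ∫ y, kerX c g x y ^ 2 ∂μ ∂μ = ∫ p, kerX c g p.1 p.2 ^ 2 ∂(μ.prod μ) :=
    integral_integral (f := fun x y => kerX c g x y ^ 2) iX2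
  have c3 : ∫ x, ∫ y, kerX c g x y * ∏ j, (1 + c ^ 2 * (g j x * g j y)) ∂μ ∂μ =
      ∫ p, kerX c g p.1 p.2 * ∏ j, (1 + c ^ 2 * (g j p.1 * g j p.2)) ∂(μ.prod μ) :=
    integral_integral (f := fun x y => kerX c g x y * ∏ j, (1 + c ^ 2 * (g j x * g j y))) iXK
  have c4 : ∫ x, ∫ y, |kerX c g x y| ∂μ ∂μ = ∫ p, |kerX c g p.1 p.2| ∂(μ.prod μ) :=
    integral_integral (f := fun x y => |kerX c g x y|) iA
  have c5 : ∫ x, ∫ y, |kerX c g x y| ^ 3 * Real.exp |kerX c g x y| ∂μ ∂μ =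
      ∫ p, |kerX c g p.1 p.2| ^ 3 * Real.exp |kerX c g p.1 p.2| ∂(μ.prod μ) :=
    integral_integral (f := fun x y => |kerX c g x y| ^ 3 * Real.exp |kerX c g x y|) iE
  rw [c1] at hX0
  rw [c2] at hX2
  rw [c3] at hS2
  rw [c4] at hXa
  rw [c5]
  -- pointwise bound integrated
  have hpt : ∫ p, (kerX c g p.1 p.2 * ∏ j, (1 + c ^ 2 * (g j p.1 * g j p.2)) -
        kerX c g p.1 p.2 - kerX c g p.1 p.2 ^ 2) ∂(μ.prod μ) ≤
      ∫ p, (|kerX c g p.1 p.2| ^ 3 * Real.exp |kerX c g p.1 p.2| / 2 +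
        c ^ 4 * D * |kerX c g p.1 p.2|) ∂(μ.prod μ) := by
    apply integral_mono
    · exact (iXK.sub iX).sub iX2
    · exact (iE.div_const 2).add (iA.const_mul _)
    · intro p
      have hk : kerX c g p.1 p.2 = ∑ j, c ^ 2 * (g j p.1 * g j p.2) := by
        unfold kerX
        rw [Finset.mul_sum]
      have hb : ∀ j, |c ^ 2 * (g j p.1 * g j p.2)| ≤ c ^ 2 := by
        intro j
        rw [abs_mul, abs_of_nonneg (sq_nonneg c), abs_mul]
        have := mul_le_one₀ (h.bd j p.1) (abs_nonneg _) (h.bd j p.2)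
        nlinarith [sq_nonneg c]
      have := expand_le (fun j => c ^ 2 * (g j p.1 * g j p.2)) (c ^ 2) hc2 hb
      simp only [← hk] at this
      simp only
      calc kerX c g p.1 p.2 * ∏ j, (1 + c ^ 2 * (g j p.1 * g j p.2)) -
            kerX c g p.1 p.2 - kerX c g p.1 p.2 ^ 2
          = kerX c g p.1 p.2 * (∏ j, (1 + c ^ 2 * (g j p.1 * g j p.2)) - 1 -
            kerX c g p.1 p.2) := by ring
        _ ≤ _ := this
        _ = _ := by rw [hD]; ring
  have l1 : ∫ p, (kerX c g p.1 p.2 * ∏ j, (1 + c ^ 2 * (g j p.1 * g j p.2)) -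
        kerX c g p.1 p.2 - kerX c g p.1 p.2 ^ 2) ∂(μ.prod μ) =
      (∫ p, kerX c g p.1 p.2 * ∏ j, (1 + c ^ 2 * (g j p.1 * g j p.2)) ∂(μ.prod μ)) -
        (∫ p, kerX c g p.1 p.2 ∂(μ.prod μ)) - ∫ p, kerX c g p.1 p.2 ^ 2 ∂(μ.prod μ) := by
    rw [← integral_sub iXK iX, ← integral_sub _ iX2]
    exact iXK.sub iX
  have l2 : ∫ p, (|kerX c g p.1 p.2| ^ 3 * Real.exp |kerX c g p.1 p.2| / 2 +
        c ^ 4 * D * |kerX c g p.1 p.2|) ∂(μ.prod μ) =
      (∫ p, |kerX c g p.1 p.2| ^ 3 * Real.exp |kerX c g p.1 p.2| ∂(μ.prod μ)) / 2 +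
        c ^ 4 * D * ∫ p, |kerX c g p.1 p.2| ∂(μ.prod μ) := by
    rw [← integral_div, ← integral_const_mul, ← integral_add (iE.div_const 2) (iA.const_mul _)]
  rw [l1, l2, hX0, hX2, sub_zero] at hpt
  rw [hexp]
  set I3 := ∫ p, |kerX c g p.1 p.2| ^ 3 * Real.exp |kerX c g p.1 p.2| ∂(μ.prod μ) with hI3
  set IK := ∫ p, kerX c g p.1 p.2 * ∏ j, (1 + c ^ 2 * (g j p.1 * g j p.2)) ∂(μ.prod μ) with hIK
  set IA := ∫ p, |kerX c g p.1 p.2| ∂(μ.prod μ) with hIA
  set S2 := ∑ σ : J → Bool, ∑ k, coef μ c g σ k ^ 2 with hS2'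
  have hc2' : (0 : ℝ) < c ^ 2 := by positivity
  have hfin : c ^ 2 * (S2 - n * D * (c ^ 2 * κ ^ 2)) ≤
      c ^ 2 * (n * (I3 / (2 * c ^ 2) + c ^ 4 * κ * (D * √D))) := by
    have e1 : c ^ 2 * (S2 - n * D * (c ^ 2 * κ ^ 2)) = n * (IK - c ^ 4 * κ ^ 2 * D) := by
      rw [mul_sub, hS2]
      ring
    have e2 : c ^ 2 * (n * (I3 / (2 * c ^ 2) + c ^ 4 * κ * (D * √D))) =
        n * (I3 / 2 + c ^ 4 * D * (c ^ 2 * κ * √D)) := by
      field_simp
    rw [e1, e2]
    apply mul_le_mul_of_nonneg_left _ hn0.le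
    have : c ^ 4 * D * IA ≤ c ^ 4 * D * (c ^ 2 * κ * √D) :=
      mul_le_mul_of_nonneg_left hXa (by positivity)
    linarith
  exact le_of_mul_le_mul_left hfin hc2'

end Pool.Agent.MixEnt
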