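import Mathlib
import Pool.Agent.Lib.MP_b56574_an.Riesz

/-! # Separation of sign vectors -/

open MeasureTheory

noncomputable section

namespace Pool.Agent.MixEnt

variable {Ω J : Type} [MeasurableSpace Ω] [Fintype J] [DecidableEq J]
  {μ : Measure Ω} [IsProbabilityMeasure μ] {g : J → Ω → ℝ} {κ : ℝ}

/-- Markov's inequality in counting form. -/
theorem Sep_markov (F : (J → Bool) → ℝ) (hF : ∀ σ, 0 ≤ F σ) (a : ℝ) (ha : 0 < a)
    (hs : ∑ σ, F σ ≤ 2 ^ Fintype.card J * a) :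
    4 * ((Finset.univ : Finset (J → Bool)).filter (fun σ => 4 * a < F σ)).card ≤
      2 ^ Fintype.card J := by
  set B := (Finset.univ : Finset (J → Bool)).filter (fun σ => 4 * a < F σ) with hB
  have h1 : (B.card : ℝ) * (4 * a) ≤ ∑ σ, F σ := by
    calc (B.card : ℝ) * (4 * a) = ∑ _σ ∈ B, 4 * a := by simp
      _ ≤ ∑ σ ∈ B, F σ := by
          refine Finset.sum_le_sum fun σ hσ => ?_
          rw [hB, Finset.mem_filter] at hσ
          exact hσ.2.le
      _ ≤ ∑ σ, F σ := Finset.sum_le_sum_of_subset_of_nonneg (Finset.subset_univ _)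
          fun σ _ _ => hF σ
  have h2 : (4 * B.card : ℝ) * a ≤ 2 ^ Fintype.card J * a := by linarith
  have h3 : (4 * B.card : ℝ) ≤ 2 ^ Fintype.card J := le_of_mul_le_mul_right h2 ha
  exact_mod_cast h3

/-- For at least half of all sign vectors `σ` the Riesz product `ρ_σ` has mass at most `4` and
separates `∑ σ_j g_j` from `∑ w_j g_j` for every `w` at Hamming distance at least `D/8`. -/
theorem separation (h : Sys μ g κ) (hκ : 0 < κ) {c : ℝ} (hc : 0 < c) (hc2 : c ^ 2 ≤ 1 / 2)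
    (hI : ∫ x, ∫ y, |kerX c g x y| ^ 3 * Real.exp |kerX c g x y| ∂μ ∂μ ≤
      c ^ 4 * κ ^ 2 * Fintype.card J / 1024)
    (hD : c ^ 2 * √(Fintype.card J) ≤ κ / 2048) :
    ∃ G : Finset (J → Bool), 2 ^ Fintype.card J ≤ 2 * G.card ∧ ∀ σ ∈ G,
      ∫ x, riesz c g σ x ∂μ ≤ 4 ∧
      ∀ w : J → Bool, Fintype.card J ≤ 8 * hammingDist σ w →
        c * κ * Fintype.card J / 8 ≤
          ∫ x, ((∑ j, sg (σ j) * g j x) - ∑ j, sg (w j) * g j x) * riesz c g σ x ∂μ := by
  have hc1 : c ≤ 1 := by nlinarith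
  set D : ℝ := (Fintype.card J : ℝ) with hDdef
  have hD0 : 0 ≤ D := by rw [hDdef]; positivity
  set E : (J → Bool) → ℝ := fun σ => ∑ k, (coef μ c g σ k - c * κ * sg (σ k)) ^ 2 with hE
  have hE0 : ∀ σ, 0 ≤ E σ := fun σ => Finset.sum_nonneg fun k _ => sq_nonneg _
  -- bound for the mean of E
  have hmean : ∑ σ, E σ ≤ 2 ^ Fintype.card J * (c ^ 2 * κ ^ 2 * D / 1024) := by
    refine (sum_err_le h hκ hc hc2).trans ?_
    refine mul_le_mul_of_nonneg_left ?_ (by positivity)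
    have h1 : (∫ x, ∫ y, |kerX c g x y| ^ 3 * Real.exp |kerX c g x y| ∂μ ∂μ) / (2 * c ^ 2) ≤
        c ^ 2 * κ ^ 2 * D / 2048 := by
      rw [div_le_iff₀ (by positivity)]
      calc _ ≤ c ^ 4 * κ ^ 2 * D / 1024 := hI
        _ = _ := by ring
    have h2 : c ^ 4 * κ * (D * √D) ≤ c ^ 2 * κ ^ 2 * D / 2048 := by
      calc c ^ 4 * κ * (D * √D) = (c ^ 2 * κ * D) * (c ^ 2 * √D) := by ring
        _ ≤ (c ^ 2 * κ * D) * (κ / 2048) := by gcongr
        _ = _ := by ring
    linarith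
  rcases Nat.eq_zero_or_pos (Fintype.card J) with hJ | hJ
  · -- no index: trivial
    refine ⟨Finset.univ, ?_, ?_⟩
    · simp [hJ]
    · intro σ _
      have he : IsEmpty J := Fintype.card_eq_zero_iff.1 hJ
      refine ⟨?_, ?_⟩
      · simp [riesz]
      · intro w _
        simp [hDdef]
  have hDpos : 0 < D := by rw [hDdef]; exact_mod_cast hJ
  set G1 := (Finset.univ : Finset (J → Bool)).filter
    (fun σ => 4 * (c ^ 2 * κ ^ 2 * D / 1024) < E σ) with hG1
  set G2 := (Finset.univ : Finset (J → Bool)).filter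
    (fun σ => 4 * (1 : ℝ) < ∫ x, riesz c g σ x ∂μ) with hG2
  have hc1' : 4 * G1.card ≤ 2 ^ Fintype.card J := Sep_markov E hE0 _ (by positivity) hmean
  have hc2' : 4 * G2.card ≤ 2 ^ Fintype.card J := by
    refine Sep_markov (fun σ => ∫ x, riesz c g σ x ∂μ)
      (fun σ => integral_nonneg fun x => riesz_nonneg h hc hc1 σ x) 1 one_pos ?_
    rw [sum_integral_riesz h hc hc1, mul_one]
  refine ⟨(G1 ∪ G2)ᶜ, ?_, ?_⟩
  · have h1 : (G1 ∪ G2)ᶜ.card = 2 ^ Fintype.card J - (G1 ∪ G2).card := by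
      rw [Finset.card_compl]; simp
    have h2 : (G1 ∪ G2).card ≤ G1.card + G2.card := Finset.card_union_le _ _
    omega
  intro σ hσ
  rw [Finset.mem_compl, Finset.mem_union, not_or, hG1, hG2, Finset.mem_filter,
    Finset.mem_filter] at hσ
  have hEσ : E σ ≤ c ^ 2 * κ ^ 2 * D / 256 := by
    have := not_lt.1 fun hh => hσ.1 ⟨Finset.mem_univ _, hh⟩
    linarith
  have hMσ : ∫ x, riesz c g σ x ∂μ ≤ 4 := by
    have := not_lt.1 fun hh => hσ.2 ⟨Finset.mem_univ _, hh⟩
    linarith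
  refine ⟨hMσ, fun w hw => ?_⟩
  have hgi : ∀ j, Integrable (fun x => g j x * riesz c g σ x) μ := by
    intro j
    have := (riesz_integrable h hc hc1 σ).bdd_mul (c := 1) (h.meas j).aestronglyMeasurable
      (Filter.Eventually.of_forall fun x => by rw [Real.norm_eq_abs]; exact h.bd j x)
    exact this
  -- the integral is a linear combination of the coefficients
  have hlin : ∫ x, ((∑ j, sg (σ j) * g j x) - ∑ j, sg (w j) * g j x) * riesz c g σ x ∂μ =
      ∑ j, (sg (σ j) - sg (w j)) * coef μ c g σ j := by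
    have h1 : ∀ x, ((∑ j, sg (σ j) * g j x) - ∑ j, sg (w j) * g j x) * riesz c g σ x =
        ∑ j, (sg (σ j) - sg (w j)) * (g j x * riesz c g σ x) := by
      intro x
      rw [← Finset.sum_sub_distrib, Finset.sum_mul]
      exact Finset.sum_congr rfl fun j _ => by ring
    rw [integral_congr_ae (Filter.Eventually.of_forall h1),
      integral_finsetSum _ fun j _ => (hgi j).const_mul _]
    refine Finset.sum_congr rfl fun j _ => ?_
    rw [integral_const_mul]
    rfl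
  rw [hlin]
  set e : J → ℝ := fun k => coef μ c g σ k - c * κ * sg (σ k) with he
  have hsplit : ∑ j, (sg (σ j) - sg (w j)) * coef μ c g σ j =
      c * κ * (∑ j, (sg (σ j) - sg (w j)) * sg (σ j)) + ∑ j, (sg (σ j) - sg (w j)) * e j := by
    rw [Finset.mul_sum, ← Finset.sum_add_distrib]
    refine Finset.sum_congr rfl fun j _ => ?_
    rw [he]; ring
  have hmain : ∑ j, (sg (σ j) - sg (w j)) * sg (σ j) = 2 * (hammingDist σ w : ℝ) := by
    have h1 : ∀ j, (sg (σ j) - sg (w j)) * sg (σ j) = if σ j ≠ w j then (2 : ℝ) else 0 := by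
      intro j
      cases σ j <;> cases w j <;> simp [sg] <;> norm_num
    rw [Finset.sum_congr rfl fun j _ => h1 j, ← Finset.sum_filter, Finset.sum_const, nsmul_eq_mul]
    unfold hammingDist
    ring
  have hsq : ∑ j, (sg (σ j) - sg (w j)) ^ 2 ≤ 4 * D := by
    calc ∑ j, (sg (σ j) - sg (w j)) ^ 2 ≤ ∑ _j : J, (4 : ℝ) := by
          refine Finset.sum_le_sum fun j _ => ?_
          cases σ j <;> cases w j <;> simp [sg] <;> norm_num
      _ = 4 * D := by simp [hDdef, mul_comm]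
  have hcs : |∑ j, (sg (σ j) - sg (w j)) * e j| ≤ c * κ * D / 8 := by
    have h1 : (∑ j, (sg (σ j) - sg (w j)) * e j) ^ 2 ≤
        (∑ j, (sg (σ j) - sg (w j)) ^ 2) * ∑ j, e j ^ 2 := Finset.sum_mul_sq_le_sq_mul_sq _ _ _
    have h2 : (∑ j, (sg (σ j) - sg (w j)) * e j) ^ 2 ≤ (c * κ * D / 8) ^ 2 := by
      calc _ ≤ (∑ j, (sg (σ j) - sg (w j)) ^ 2) * ∑ j, e j ^ 2 := h1
        _ ≤ (4 * D) * (c ^ 2 * κ ^ 2 * D / 256) := by
            refine mul_le_mul hsq hEσ (Finset.sum_nonneg fun j _ => sq_nonneg _) (by positivity)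
        _ = (c * κ * D / 8) ^ 2 := by ring
    exact abs_le_of_sq_le_sq h2 (by positivity)
  have hw' : D / 8 ≤ (hammingDist σ w : ℝ) := by
    have : (D : ℝ) ≤ 8 * (hammingDist σ w : ℝ) := by
      rw [hDdef]; exact_mod_cast hw
    linarith
  rw [hsplit, hmain]
  have h3 := (abs_le.1 hcs).1
  have h4 : c * κ * (2 * (hammingDist σ w : ℝ)) ≥ c * κ * D / 4 := by
    have : 0 < c * κ := by positivity
    nlinarith
  linarith

end Pool.Agent.MixEnt
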