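import Mathlib
import Pool.Agent.Lib.MP_b56574_an.Par
import Pool.Agent.Lib.MP_b56574_an.Sep
import Pool.Agent.Lib.MP_b56574_an.Ham
import Pool.Agent.Lib.MP_b56574_an.Khin
import Pool.Agent.Lib.MP_b56574_an.CovA

/-! # The lower bound for admissible radii -/

open MeasureTheory

noncomputable section

namespace Pool.Agent.MixEnt

/-- Pigeonhole principle. -/
theorem Cov_pigeon {α : Type} [DecidableEq α] (G : Finset α) (N : ℕ) (hN : 0 < N)
    (f : α → Fin N) : ∃ j, G.card ≤ N * (G.filter fun s => f s = j).card := by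
  haveI : Nonempty (Fin N) := ⟨⟨0, hN⟩⟩
  obtain ⟨j, -, hj⟩ := Finset.exists_max_image (Finset.univ : Finset (Fin N))
    (fun j => (G.filter fun s => f s = j).card) Finset.univ_nonempty
  refine ⟨j, ?_⟩
  rw [Finset.card_eq_sum_card_fiberwise (f := f) (s := G) (t := Finset.univ)
    (fun _ _ => Finset.mem_coe.2 (Finset.mem_univ _))]
  calc ∑ b : Fin N, (G.filter fun s => f s = b).card ≤
      ∑ _b : Fin N, (G.filter fun s => f s = j).card :=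
        Finset.sum_le_sum fun b _ => hj b (Finset.mem_univ b)
    _ = N * (G.filter fun s => f s = j).card := by simp

theorem Cov_inter {α : Type} [DecidableEq α] [Fintype α] (G₁ G₂ : Finset α) (N : ℕ)
    (hN : Fintype.card α = N) (h1 : N ≤ 2 * G₁.card) (h2 : 3 * N ≤ 4 * G₂.card) :
    N ≤ 4 * (G₁ ∩ G₂).card := by
  have h3 := Finset.card_union_add_card_inter G₁ G₂
  have h4 : (G₁ ∪ G₂).card ≤ N := by
    rw [← hN]
    exact Finset.card_le_univ _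
  omega

/-- The main step for fixed data. -/
theorem Cov_main (𝕜 : Type) [RCLike 𝕜] {e L k : ℕ} {q r B c ε : ℝ} (hq : 1 ≤ q) (hr : 1 < r)
    (α : Fin (e + 1) → ℝ) (hB : 0 < B) (hε : 0 < ε) (hc : 0 < c) (hc1 : c ≤ 1)
    (hk : 4 * k + 32 ≤ Fintype.card (Idx e L))
    (G₁ G₂ : Finset (Idx e L → Bool))
    (hG₁ : 2 ^ Fintype.card (Idx e L) ≤ 2 * G₁.card)
    (hG₂ : 3 * 2 ^ Fintype.card (Idx e L) ≤ 4 * G₂.card)
    (h1 : ∀ σ ∈ G₁, ∫ x, riesz c (gfun : Idx e L → _ → ℝ) σ x ∂(torus (e + 1)) ≤ 4 ∧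
      ∀ w : Idx e L → Bool, Fintype.card (Idx e L) ≤ 8 * hammingDist σ w →
        c * (1 / 2) ^ (e + 1) * Fintype.card (Idx e L) / 8 ≤
          ∫ x, ((∑ j, sg (σ j) * gfun j x) - ∑ j, sg (w j) * gfun j x) *
            riesz c (gfun : Idx e L → _ → ℝ) σ x ∂(torus (e + 1)))
    (h2 : ∀ σ ∈ G₂, eLpNorm (fun y => ∑ j, sg (σ j) * pfun r α j y) (ENNReal.ofReal q)
      (torus (e + 1)) ≤ ENNReal.ofReal B)
    (hp : ∃ p : Fin (2 ^ k) → ((Fin (e + 1) → ℝ) → 𝕜), (∀ j, p j ∈ MW 𝕜 (e + 1) r q α) ∧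
        ∀ f ∈ MW 𝕜 (e + 1) r q α, ∃ j, eLpNorm (f - p j) ⊤ (torus (e + 1)) ≤ ENNReal.ofReal ε) :
    c * (1 / 2) ^ (e + 1) * Fintype.card (Idx e L) / 8 ≤ 8 * ε * B := by
  classical
  obtain ⟨p, -, hp⟩ := hp
  have hcard : Fintype.card (Idx e L → Bool) = 2 ^ Fintype.card (Idx e L) := by
    simp only [Fintype.card_fun, Fintype.card_bool]
  have hG := Cov_inter G₁ G₂ _ hcard hG₁ hG₂
  -- centres
  have hj : ∀ σ : Idx e L → Bool, ∃ j : Fin (2 ^ k), σ ∈ G₁ ∩ G₂ →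
      eLpNorm ((fun x => ((∑ j, (B⁻¹ * sg (σ j)) * gfun j x : ℝ) : 𝕜)) - p j) ⊤
        (torus (e + 1)) ≤ ENNReal.ofReal ε := by
    intro σ
    by_cases hσ : σ ∈ G₁ ∩ G₂
    · obtain ⟨j, hj⟩ := hp _ (mem_MW 𝕜 hr hq α hB σ (h2 σ (Finset.mem_inter.1 hσ).2))
      exact ⟨j, fun _ => hj⟩
    · exact ⟨⟨0, by positivity⟩, fun h => absurd h hσ⟩
  choose F hF using hj
  obtain ⟨j, hj⟩ := Cov_pigeon (G₁ ∩ G₂) (2 ^ k) (by positivity) F
  set V := (G₁ ∩ G₂).filter fun s => F s = j with hV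
  have hVc : 2 ^ Fintype.card (Idx e L) ≤ 4 * 2 ^ k * V.card := by
    calc 2 ^ Fintype.card (Idx e L) ≤ 4 * (G₁ ∩ G₂).card := hG
      _ ≤ 4 * (2 ^ k * V.card) := Nat.mul_le_mul le_rfl hj
      _ = _ := by ring
  have hVne : V.Nonempty := by
    rw [← Finset.card_pos]
    by_contra h0
    have : V.card = 0 := by omega
    rw [this] at hVc
    have : 0 < 2 ^ Fintype.card (Idx e L) := by positivity
    omega
  obtain ⟨σ, hσ⟩ := hVne
  obtain ⟨w, hw, hd⟩ := exists_far σ V k hk hVc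
  rw [hV, Finset.mem_filter] at hσ hw
  have hσ' := h1 σ (Finset.mem_inter.1 hσ.1).1
  have e1 := hF σ hσ.1
  have e2 := hF w hw.1
  rw [hσ.2] at e1
  rw [hw.2] at e2
  exact (hσ'.2 w hd).trans (pair_bound 𝕜 hB hε hc hc1 σ w hσ'.1 (p j) e1 e2)

theorem eps_ge (e : ℕ) (he : 1 ≤ e) (q r : ℝ) (hq : 1 ≤ q) (hr : 1 < r) :
    ∃ c₁ : ℝ, 0 < c₁ ∧ ∀ (𝕜 : Type) [RCLike 𝕜] (α : Fin (e + 1) → ℝ) (k L : ℕ), 1 ≤ L →
      4 * k + 32 ≤ 2 ^ (e * L) * L ^ e → ∀ ε : ℝ, 0 < ε →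
      (∃ p : Fin (2 ^ k) → ((Fin (e + 1) → ℝ) → 𝕜), (∀ j, p j ∈ MW 𝕜 (e + 1) r q α) ∧
        ∀ f ∈ MW 𝕜 (e + 1) r q α, ∃ j, eLpNorm (f - p j) ⊤ (torus (e + 1)) ≤ ENNReal.ofReal ε) →
      c₁ * √(e * L) * (2 : ℝ) ^ (-(r * (e * L))) ≤ ε := by
  obtain ⟨a, ha, hpar⟩ := params e he
  obtain ⟨C, hC, hkh⟩ := khin_good q hq
  refine ⟨a * (1 / 2) ^ (e + 1) / (64 * C * (2 : ℝ) ^ (r * (e + 1))), by positivity, ?_⟩
  intro 𝕜 _ α k L hL hkL ε hε hcov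
  obtain ⟨c, hc, hc2, hc12, hI, hD⟩ := hpar L hL
  have hcard := card_idx e L
  have hk : 4 * k + 32 ≤ Fintype.card (Idx e L) := by rw [hcard]; exact hkL
  haveI : Nonempty (Idx e L) := by
    rw [← Fintype.card_pos_iff]; omega
  set D : ℝ := (Fintype.card (Idx e L) : ℝ) with hDdef
  have hD0 : 0 < D := by
    rw [hDdef]
    have : 0 < Fintype.card (Idx e L) := by omega
    exact_mod_cast this
  set A : ℝ := (2 : ℝ) ^ (r * ((e * L : ℕ) + e + 1 : ℝ)) with hA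
  have hA0 : 0 < A := by positivity
  have hc1 : c ≤ 1 := by nlinarith
  obtain ⟨G₁, hG₁, h1⟩ := separation (sys_gfun e L) (by positivity) hc hc12 hI hD
  obtain ⟨G₂, hG₂, h2⟩ := hkh _ (Idx e L) (torus (e + 1)) (pfun r α) A hA0
    (fun j => pfun_measurable r α j) (fun j x => pfun_bound (by linarith) α j x)
  have hB : 0 < C * A * √D := by positivity
  have hmain := Cov_main 𝕜 hq hr α hB hε hc hc1 hk G₁ G₂ hG₁ hG₂ h1 h2 hcov
  rw [← hDdef] at hmain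
  -- c √D = a √(eL)
  have hcD : c * √D = a * √(e * L) := by
    have h0 : (c * √D) ^ 2 = (a * √(e * L)) ^ 2 := by
      rw [mul_pow, mul_pow, Real.sq_sqrt hD0.le, Real.sq_sqrt (by positivity), hc2]
      field_simp
    exact (pow_left_inj₀ (by positivity) (by positivity) (by norm_num)).1 h0
  have hsD : √D * √D = D := Real.mul_self_sqrt hD0.le
  have hsD0 : 0 < √D := Real.sqrt_pos.2 hD0
  have hAeq : A = (2 : ℝ) ^ (r * (e + 1)) * (2 : ℝ) ^ (r * (e * L)) := by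
    rw [hA, ← Real.rpow_add (by norm_num)]
    congr 1
    push_cast
    ring
  have h3 : c * (1 / 2) ^ (e + 1) * √D ≤ 64 * ε * (C * A) := by
    have h4 : (c * (1 / 2) ^ (e + 1) * √D) * √D ≤ (64 * ε * (C * A)) * √D := by
      calc (c * (1 / 2) ^ (e + 1) * √D) * √D = 8 * (c * (1 / 2) ^ (e + 1) * (√D * √D) / 8) := by ring
        _ = 8 * (c * (1 / 2) ^ (e + 1) * D / 8) := by rw [hsD]
        _ ≤ 8 * (8 * ε * (C * A * √D)) := by gcongr
        _ = _ := by ring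
    exact le_of_mul_le_mul_right h4 hsD0
  have h5 : a * (1 / 2) ^ (e + 1) * √(e * L) ≤ 64 * ε * (C * A) := by
    calc a * (1 / 2) ^ (e + 1) * √(e * L) = (1 / 2) ^ (e + 1) * (a * √(e * L)) := by ring
      _ = c * (1 / 2) ^ (e + 1) * √D := by rw [← hcD]; ring
      _ ≤ _ := h3
  rw [Real.rpow_neg (by norm_num)]
  have hP : 0 < (2 : ℝ) ^ (r * (e + 1)) := by positivity
  have hQ : 0 < (2 : ℝ) ^ (r * (e * L)) := by positivity
  rw [hAeq] at h5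
  rw [div_mul_eq_mul_div, div_mul_eq_mul_div, div_le_iff₀ (by positivity), ← div_eq_mul_inv,
    div_le_iff₀ hQ]
  calc _ ≤ 64 * ε * (C * ((2 : ℝ) ^ (r * (e + 1)) * (2 : ℝ) ^ (r * (e * L)))) := h5
    _ = _ := by ring

end Pool.Agent.MixEnt
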