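import Mathlib
import Pool.Agent.Lib.MP_b56574_an.TrigB

/-! # Admissible radii exist -/

open MeasureTheory

noncomputable section

namespace Pool.Agent.MixEnt


theorem admissible_nonempty (𝕜 : Type) [RCLike 𝕜] {d : ℕ} {r q : ℝ} (hr : 1 < r) (hq : 1 ≤ q)
    (α : Fin d → ℝ) (k : ℕ) :
    {ε : ℝ | 0 < ε ∧ ∃ c : Fin (2 ^ k) → ((Fin d → ℝ) → 𝕜), (∀ j, c j ∈ MW 𝕜 d r q α) ∧
      ∀ f ∈ MW 𝕜 d r q α, ∃ j, eLpNorm (f - c j) ⊤ (torus d) ≤ ENNReal.ofReal ε}.Nonempty := by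
  obtain ⟨C, hC, hb⟩ := bern_bounded hr d
  have h0 : conv 𝕜 r α (fun _ => (0 : 𝕜)) = 0 := by
    funext x
    simp [conv]
  refine ⟨C, hC, fun _ => 0, ?_, ?_⟩
  · intro _
    refine ⟨fun _ => 0, MemLp.zero', ?_, h0.symm⟩
    rw [eLpNorm_zero']
    exact zero_le_one
  · rintro f ⟨φ, hφ, hn, rfl⟩
    refine ⟨⟨0, by positivity⟩, ?_⟩
    rw [sub_zero, eLpNorm_exponent_top]
    apply eLpNormEssSup_le_of_ae_bound
    refine Filter.Eventually.of_forall fun x => ?_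
    have hq1 : (1 : ENNReal) ≤ ENNReal.ofReal q := by
      rw [← ENNReal.ofReal_one]
      exact ENNReal.ofReal_le_ofReal hq
    have h1 : eLpNorm φ 1 (torus d) ≤ 1 :=
      (eLpNorm_le_eLpNorm_of_exponent_le hq1 hφ.1).trans hn
    have hint : Integrable φ (torus d) := hφ.integrable hq1
    have h2 : ∫ y, ‖φ y‖ ∂(torus d) ≤ 1 := by
      rw [integral_norm_eq_lintegral_enorm hφ.1, ← eLpNorm_one_eq_lintegral_enorm]
      exact ENNReal.toReal_le_of_le_ofReal zero_le_one (by rw [ENNReal.ofReal_one]; exact h1)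
    have h3 : ‖conv 𝕜 r α φ x‖ ≤ ∫ y, C * ‖φ y‖ ∂(torus d) := by
      rw [conv]
      refine norm_integral_le_of_norm_le (hint.norm.const_mul C) ?_
      refine Filter.Eventually.of_forall fun y => ?_
      rw [norm_mul, RCLike.norm_ofReal]
      exact mul_le_mul_of_nonneg_right (hb α (x - y)) (norm_nonneg _)
    rw [integral_const_mul] at h3
    calc ‖conv 𝕜 r α φ x‖ ≤ C * ∫ y, ‖φ y‖ ∂(torus d) := h3
      _ ≤ C * 1 := mul_le_mul_of_nonneg_left h2 hC.le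
      _ = C := mul_one C

end Pool.Agent.MixEnt
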