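import Mathlib
import Pool.Agent.Lib.MP_b56574_an.Cov
import Pool.Agent.Lib.MP_b56574_an.CovB
import Pool.Agent.Lib.MP_b56574_an.Asym

/-! # The lower estimate of the entropy numbers -/

open MeasureTheory

noncomputable section

namespace Pool.Agent.MixEnt

theorem main (d : ℕ) (hd : 2 ≤ d) (q : ℝ) (hq : 1 ≤ q) (r : ℝ) (hr : 1 < r) :
    ∃ c : ℝ, 0 < c ∧ ∀ (𝕜 : Type) [RCLike 𝕜] (α : Fin d → ℝ) (k : ℕ), 2 ≤ k →
      c * (k : ℝ) ^ (-r) * (Real.log k) ^ (((d : ℝ) - 1) * r + 1 / 2) ≤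
        entropyNumber 𝕜 d k (MW 𝕜 d r q α) := by
  obtain ⟨e, rfl⟩ : ∃ e, d = e + 1 := ⟨d - 1, by omega⟩
  have he : 1 ≤ e := by omega
  obtain ⟨c₁, hc₁, h₁⟩ := eps_ge e he q r hq hr
  obtain ⟨c₂, hc₂, h₂⟩ := exists_L e he r hr
  refine ⟨c₁ * c₂, by positivity, ?_⟩
  intro 𝕜 _ α k hk
  obtain ⟨L, hL, hD, hA⟩ := h₂ k hk
  have hcast : (((e + 1 : ℕ) : ℝ) - 1) * r + 1 / 2 = e * r + 1 / 2 := by push_cast; ring
  rw [hcast]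
  calc c₁ * c₂ * (k : ℝ) ^ (-r) * (Real.log k) ^ (e * r + 1 / 2)
      = c₁ * (c₂ * (k : ℝ) ^ (-r) * (Real.log k) ^ (e * r + 1 / 2)) := by ring
    _ ≤ c₁ * (√(e * L) * (2 : ℝ) ^ (-(r * (e * L)))) := by gcongr
    _ = c₁ * √(e * L) * (2 : ℝ) ^ (-(r * (e * L))) := by ring
    _ ≤ _ := by
      refine le_csInf (admissible_nonempty 𝕜 hr hq α k) ?_
      rintro ε ⟨hε, hcov⟩
      exact h₁ 𝕜 α k L hL hD ε hε hcov

end Pool.Agent.MixEnt
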